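import Pool.Agent.P.MP_263185_co.AL.Defs

/-! Working definitions: residues, boxes, averages, preorders, confusability relations. -/

set_option linter.unusedSectionVars false

namespace Pool.Agent.P.MP_263185_co.AL

open Finset
open scoped Classical

section residues
variable {p : ℕ}

/-- confusable residues -/
def cf (x y : ZMod p) : Prop := y = x ∨ y = x + 1 ∨ x = y + 1

/-- `x` lies in the edge with base `b` -/
def ed (b x : ZMod p) : Prop := x = b ∨ x = b + 1

/-- the real lift of `y - x` -/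
noncomputable def lf (x y : ZMod p) : ℝ := if y = x + 1 then 1 else if x = y + 1 then -1 else 0

theorem cf_refl (x : ZMod p) : cf x x := .inl rfl

theorem cf.symm {x y : ZMod p} (h : cf x y) : cf y x := by
  rcases h with h | h | h
  exacts [.inl h.symm, .inr (.inr h), .inr (.inl h)]

theorem ed.cf {b x y : ZMod p} (h : ed b x) (h' : ed b y) : cf x y := by
  rcases h with rfl | rfl <;> rcases h' with h | h
  exacts [.inl h, .inr (.inl h), .inr (.inr (by rw [h])), .inl h]

/-- small integers do not vanish -/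
theorem cast_ne (hp : 5 ≤ p) {k : ℕ} (h0 : 0 < k) (h4 : k < 5) : (k : ZMod p) ≠ 0 := fun h =>
  absurd (Nat.le_of_dvd h0 ((ZMod.natCast_eq_zero_iff k p).1 h)) (by omega)

theorem ne1 (hp : 5 ≤ p) : (1 : ZMod p) ≠ 0 := by simpa using cast_ne hp (k := 1)
theorem ne2 (hp : 5 ≤ p) : (2 : ZMod p) ≠ 0 := by simpa using cast_ne hp (k := 2)
theorem ne3 (hp : 5 ≤ p) : (3 : ZMod p) ≠ 0 := by simpa using cast_ne hp (k := 3)
theorem ne4 (hp : 5 ≤ p) : (4 : ZMod p) ≠ 0 := by simpa using cast_ne hp (k := 4)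

end residues

section cube
variable {m : ℕ}

/-- the sign of a bit -/
def sg (t : Bool) : ℝ := if t then -1 else 1

/-- the mean over the cube -/
noncomputable def cE (f : (Fin m → Bool) → ℝ) : ℝ := (∑ β, f β) / 2 ^ m

/-- the flip of one bit -/
def fb (j : Fin m) (β : Fin m → Bool) : Fin m → Bool := Function.update β j (!β j)

/-- half of the difference in direction `j` -/
noncomputable def cD (j : Fin m) (f : (Fin m → Bool) → ℝ) (β : Fin m → Bool) : ℝ :=
  (f β - f (fb j β)) / 2

/-- the coefficient of degree one -/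
noncomputable def cA (j : Fin m) (f : (Fin m → Bool) → ℝ) : ℝ := cE fun β => f β * sg (β j)

/-- the indicator of a proposition -/
noncomputable def ind (P : Prop) : ℝ := if P then 1 else 0

theorem fb_fb (j : Fin m) (β : Fin m → Bool) : fb j (fb j β) = β := by simp [fb]

theorem sum_fb (j : Fin m) (f : (Fin m → Bool) → ℝ) : ∑ β, f (fb j β) = ∑ β, f β :=
  Equiv.sum_comp (Function.Involutive.toPerm (fb j) (fb_fb j)) f

theorem cE_fb (j : Fin m) (f : (Fin m → Bool) → ℝ) : cE (fun β => f (fb j β)) = cE f := by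
  rw [cE, cE, sum_fb]

end cube

/-- Gibbs' inequality -/
theorem gibbs {ι : Type} (s : Finset ι) (P q : ι → ℝ) (hP : ∀ i ∈ s, 0 < P i)
    (hq : ∀ i ∈ s, 0 < q i) (h : ∑ i ∈ s, q i ≤ ∑ i ∈ s, P i) :
    ∑ i ∈ s, P i * Real.log (q i / P i) ≤ 0 := by
  refine le_trans (sum_le_sum (g := fun i => q i - P i) fun i hi => ?_) ?_
  · have h1 := Real.log_le_sub_one_of_pos (div_pos (hq i hi) (hP i hi))
    have h2 := mul_le_mul_of_nonneg_left h1 (hP i hi).le
    rwa [mul_sub, mul_div_cancel₀ _ (hP i hi).ne', mul_one] at h2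
  · rw [sum_sub_distrib]; linarith

/-- a finite set with two maps to words, the second injective and determined up to confusion by
the first, without winding in one coordinate -/
structure Pre (p m : ℕ) where
  X : Type
  [fin : Fintype X]
  hp : 5 ≤ p
  c : X → Fin m → ZMod p
  s : X → Fin m → ZMod p
  sinj : Function.Injective s
  lip : ∀ x y, (∀ l, cf (c x l) (c y l)) → ∀ i, cf (s x i) (s y i)
  nw : ∀ (j : Fin m) (r : ZMod p → X), (∀ t, c (r t) j = t) →
    (∀ l, l ≠ j → ∀ t t', cf (c (r t) l) (c (r t') l)) → ∃ t, ∀ i, cf (s (r t) i) (s (r (t + 2)) i)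

attribute [instance] Pre.fin

/-- the same with an injective first map and a choice of boxes -/
structure Dat (p m : ℕ) extends Pre p m where
  cinj : Function.Injective c
  ne : Nonempty X
  a : (Fin m → ZMod p) → Fin m → ZMod p
  ha : ∀ b y, (∀ l, ed (b l) (c y l)) → ∀ i, ed (a b i) (s y i)

namespace Pre
variable {p m : ℕ} (P : Pre p m)

/-- the coordinates in which the fibre of `c` through `x` is not constant -/
noncomputable def sp (x : P.X) : Finset (Fin m) :=
  univ.filter fun i => ∃ y, P.c y = P.c x ∧ P.s y i ≠ P.s x i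

/-- the points whose first word is confusable with that of `x` -/
noncomputable def nb (x : P.X) : Finset P.X := univ.filter fun y => ∀ l, cf (P.c x l) (P.c y l)

/-- the Hamming distance of the first words -/
noncomputable def dc (x y : P.X) : ℕ := #(univ.filter fun l => P.c y l ≠ P.c x l)

/-- the Hamming distance of the second words off the span -/
noncomputable def ds (x y : P.X) : ℕ := #(univ.filter fun i => i ∉ P.sp x ∧ P.s y i ≠ P.s x i)

end Pre

namespace Dat
variable {p m : ℕ} [NeZero p] (D : Dat p m)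

/-- the first word of `x` lies in the box `b` -/
def In (x : D.X) (b : Fin m → ZMod p) : Prop := ∀ l, ed (b l) (D.c x l)

/-- the box through `x` given by the bits `β` -/
def bx (x : D.X) (β : Fin m → Bool) : Fin m → ZMod p := fun l => D.c x l - if β l then 1 else 0

/-- the mean over the points -/
noncomputable def xE (f : D.X → ℝ) : ℝ := (∑ x, f x) / Fintype.card D.X

/-- the mean over incident pairs of a point and a box -/
noncomputable def E (F : D.X → (Fin m → ZMod p) → ℝ) : ℝ :=
  D.xE fun x => cE fun β => F x (D.bx x β)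

/-- the deficiency -/
noncomputable def df : ℝ := m * Real.log p - Real.log (Fintype.card D.X)

/-- the other box in direction `j` -/
def fl (j : Fin m) (x : D.X) (b : Fin m → ZMod p) : Fin m → ZMod p :=
  Function.update b j (2 * D.c x j - 1 - b j)

/-- the points of the box `b` that agree with `x` on `J` -/
noncomputable def A (J : Finset (Fin m)) (x : D.X) (b : Fin m → ZMod p) : Finset D.X :=
  univ.filter fun y => D.In y b ∧ ∀ l ∈ J, D.c y l = D.c x l

/-- the sign of `x` in the image box -/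
noncomputable def chi (i : Fin m) (x : D.X) (b : Fin m → ZMod p) : ℝ :=
  if D.s x i = D.a b i then 1 else -1

/-- the mean sign -/
noncomputable def M (J : Finset (Fin m)) (i : Fin m) (x : D.X) (b : Fin m → ZMod p) : ℝ :=
  (∑ y ∈ D.A J x b, D.chi i y b) / #(D.A J x b)

/-- the mean displacement -/
noncomputable def psi (J : Finset (Fin m)) (i : Fin m) (x : D.X) (b : Fin m → ZMod p) : ℝ :=
  (∑ y ∈ D.A J x b, lf (D.s x i) (D.s y i)) / #(D.A J x b)

/-- the total conditional variance -/
noncomputable def e (J : Finset (Fin m)) : ℝ := ∑ i, D.E fun x b => D.psi J i x b ^ 2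

/-- the martingale increment -/
noncomputable def del (J : Finset (Fin m)) (i j : Fin m) (x : D.X) (b : Fin m → ZMod p) : ℝ :=
  D.psi J i x b - D.psi (insert j J) i x b

/-- the span -/
noncomputable def spn (J : Finset (Fin m)) (x : D.X) (b : Fin m → ZMod p) : Finset (Fin m) :=
  univ.filter fun i => ∃ y ∈ D.A J x b, D.s y i ≠ D.s x i

/-- the mean sign of a bit of the first word -/
noncomputable def tau (J : Finset (Fin m)) (j : Fin m) (x : D.X) (b : Fin m → ZMod p) : ℝ :=
  (∑ y ∈ D.A J x b, if D.c y j = b j then (1 : ℝ) else -1) / #(D.A J x b)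

/-- the label of an incident pair -/
def lab (J : Finset (Fin m)) (x : D.X) (b : Fin m → ZMod p) : Fin m → ZMod p :=
  fun l => if l ∈ J then D.c x l else b l

/-- the boxes through `x` with the same image box -/
noncomputable def Fs (x : D.X) (b : Fin m → ZMod p) : Finset (Fin m → ZMod p) :=
  univ.filter fun b' => D.In x b' ∧ D.a b' = D.a b

/-- the mean logarithm of their number -/
noncomputable def phi : ℝ := D.E fun x b => Real.log #(D.Fs x b)

/-- the number of points in a box -/
noncomputable def N (b : Fin m → ZMod p) : ℕ := #(univ.filter fun y => D.In y b)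

/-- the number of incident pairs with the same image box -/
noncomputable def V (b : Fin m → ZMod p) : ℕ := ∑ b' ∈ univ.filter fun b' => D.a b' = D.a b, D.N b'

/-- the mean distance of two boxes with the same image -/
noncomputable def Ed : ℝ := D.E fun x b =>
  (∑ b' ∈ D.Fs x b, (#(univ.filter fun l => b' l ≠ b l) : ℝ)) / #(D.Fs x b)

/-- the cylinder in direction `j` -/
noncomputable def Cy (J : Finset (Fin m)) (j : Fin m) (x : D.X) (b : Fin m → ZMod p) : Finset D.X :=
  univ.filter fun y => (∀ l ∈ J, D.c y l = D.c x l) ∧ ∀ l, l ≠ j → ed (b l) (D.c y l)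

/-- its cells -/
noncomputable def ce (J : Finset (Fin m)) (j : Fin m) (x : D.X) (b : Fin m → ZMod p)
    (r : ZMod p) : Finset D.X := (D.Cy J j x b).filter fun y => D.c y j = r

/-- the box moved along with the point -/
def tb (j : Fin m) (x : D.X) (b : Fin m → ZMod p) (y : D.X) : Fin m → ZMod p :=
  Function.update b j (D.c y j - D.c x j + b j)

/-- balanced cylinders -/
def good (J : Finset (Fin m)) (j : Fin m) (x : D.X) (b : Fin m → ZMod p) : Prop :=
  j ∈ J ∨ ∀ r r', #(D.ce J j x b r) ≤ 2 * #(D.ce J j x b r')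

/-- the total displacement between consecutive cells -/
noncomputable def St (J : Finset (Fin m)) (i j : Fin m) (x : D.X) (b : Fin m → ZMod p)
    (r : ZMod p) : ℝ :=
  ∑ y ∈ D.ce J j x b r, ∑ y' ∈ D.ce J j x b (r + 1), lf (D.s y i) (D.s y' i)

/-- the current -/
noncomputable def g (J : Finset (Fin m)) (i j : Fin m) (x : D.X) (b : Fin m → ZMod p)
    (r : ZMod p) : ℝ :=
  D.St J i j x b r / (#(D.ce J j x b r) + #(D.ce J j x b (r + 1)))

/-- the energy -/
noncomputable def En (J : Finset (Fin m)) : ℝ :=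
  ∑ i, ∑ j, D.E fun x b => ((D.psi J i x b - D.psi J i x (D.fl j x b)) / 2) ^ 2

/-- the energy in balanced cylinders -/
noncomputable def Eg (J : Finset (Fin m)) : ℝ :=
  ∑ i, ∑ j, D.E fun x b =>
    ind (D.good J j x b) * ((D.psi J i x b - D.psi J i x (D.fl j x b)) / 2) ^ 2

/-- the total increment -/
noncomputable def Dr (J : Finset (Fin m)) : ℝ := ∑ i, ∑ j, D.E fun x b => D.del J i j x b ^ 2

/-- the loss -/
noncomputable def G (J : Finset (Fin m)) : ℝ :=
  ∑ i, ∑ j, D.E fun x b => ((D.del J i j x b + D.del J i j x (D.fl j x b)) / 2) ^ 2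

/-- the directions that are often unbalanced -/
noncomputable def U (J : Finset (Fin m)) (x : D.X) : Finset (Fin m) :=
  univ.filter fun j => 1 / 8 ≤ cE fun β => ind (¬ D.good J j x (D.bx x β))

/-- the weight of the constant term and of these directions -/
noncomputable def Aw (J : Finset (Fin m)) : ℝ := ∑ i, D.xE fun x =>
  cE (fun β => D.psi J i x (D.bx x β)) ^ 2 +
    ∑ j ∈ D.U J x, cA j (fun β => D.psi J i x (D.bx x β)) ^ 2

variable {D}

theorem card_pos : (0 : ℝ) < Fintype.card D.X := by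
  have := D.ne
  exact_mod_cast Fintype.card_pos

theorem In_bx (x : D.X) (β : Fin m → Bool) : D.In x (D.bx x β) := fun l => by
  unfold bx ed; split_ifs <;> simp

theorem bx_fb (x : D.X) (j : Fin m) (β : Fin m → Bool) :
    D.bx x (fb j β) = D.fl j x (D.bx x β) := by
  funext l
  by_cases h : l = j
  · subst h
    cases hb : β l <;> simp [bx, fb, fl, hb] <;> ring
  · simp [bx, fb, fl, Function.update_of_ne h]

theorem E_eq (F : D.X → (Fin m → ZMod p) → ℝ) :
    D.E F = (∑ x, ∑ β, F x (D.bx x β)) / (Fintype.card D.X * 2 ^ m) := by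
  rw [E, xE]; simp only [cE]; rw [← sum_div, div_div, mul_comm]

theorem E_mono {F F' : D.X → (Fin m → ZMod p) → ℝ} (h : ∀ x b, D.In x b → F x b ≤ F' x b) :
    D.E F ≤ D.E F' := by
  rw [E_eq, E_eq]
  exact div_le_div_of_nonneg_right (sum_le_sum fun x _ => sum_le_sum fun β _ => h _ _ (In_bx x β))
    (by positivity)

theorem E_congr {F F' : D.X → (Fin m → ZMod p) → ℝ} (h : ∀ x b, D.In x b → F x b = F' x b) :
    D.E F = D.E F' :=
  le_antisymm (E_mono fun x b i => (h x b i).le) (E_mono fun x b i => (h x b i).ge)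

theorem E_add (F F' : D.X → (Fin m → ZMod p) → ℝ) :
    D.E (fun x b => F x b + F' x b) = D.E F + D.E F' := by
  simp only [E_eq, sum_add_distrib, add_div]

theorem E_sub (F F' : D.X → (Fin m → ZMod p) → ℝ) :
    D.E (fun x b => F x b - F' x b) = D.E F - D.E F' := by
  simp only [E_eq, sum_sub_distrib, sub_div]

theorem E_mul (t : ℝ) (F : D.X → (Fin m → ZMod p) → ℝ) :
    D.E (fun x b => t * F x b) = t * D.E F := by
  simp only [E_eq, ← mul_sum, mul_div_assoc]

theorem E_const (t : ℝ) : D.E (fun _ _ => t) = t := by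
  have := card_pos (D := D)
  rw [E_eq]; simp; field_simp

theorem E_sum {ι : Type} (S : Finset ι) (F : ι → D.X → (Fin m → ZMod p) → ℝ) :
    D.E (fun x b => ∑ i ∈ S, F i x b) = ∑ i ∈ S, D.E (F i) := by
  simp only [E_eq]
  rw [← sum_div, sum_comm (s := S)]
  congr 1
  exact sum_congr rfl fun x _ => sum_comm

theorem E_nonneg {F : D.X → (Fin m → ZMod p) → ℝ} (h : ∀ x b, D.In x b → 0 ≤ F x b) :
    0 ≤ D.E F := (E_const (D := D) 0).ge.trans (E_mono h)

theorem E_fl (j : Fin m) (F : D.X → (Fin m → ZMod p) → ℝ) :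
    D.E (fun x b => F x (D.fl j x b)) = D.E F := by
  simp only [E, ← bx_fb]
  exact congrArg D.xE (funext fun x => cE_fb j fun β => F x (D.bx x β))

theorem mem_A {J : Finset (Fin m)} {x y : D.X} {b : Fin m → ZMod p} :
    y ∈ D.A J x b ↔ D.In y b ∧ ∀ l ∈ J, D.c y l = D.c x l := by simp [A]

theorem self_mem_A (J : Finset (Fin m)) {x : D.X} {b : Fin m → ZMod p} (h : D.In x b) :
    x ∈ D.A J x b := mem_A.2 ⟨h, fun _ _ => rfl⟩

theorem A_eq {J : Finset (Fin m)} {x y : D.X} {b : Fin m → ZMod p} (h : y ∈ D.A J x b) :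
    D.A J y b = D.A J x b := by
  ext z
  simp only [mem_A] at h ⊢
  exact and_congr_right fun _ => forall₂_congr fun l hl => by rw [h.2 l hl]

theorem mem_Cy {J : Finset (Fin m)} {j : Fin m} {x y : D.X} {b : Fin m → ZMod p} :
    y ∈ D.Cy J j x b ↔ (∀ l ∈ J, D.c y l = D.c x l) ∧ ∀ l, l ≠ j → ed (b l) (D.c y l) := by
  simp [Cy]

theorem Cy_eq {J : Finset (Fin m)} {j : Fin m} {x y : D.X} {b : Fin m → ZMod p}
    (h : y ∈ D.Cy J j x b) (t : ZMod p) :
    D.Cy J j y (Function.update b j t) = D.Cy J j x b := by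
  ext z
  simp only [mem_Cy] at h ⊢
  exact and_congr (forall₂_congr fun l hl => by rw [h.1 l hl])
    (forall₂_congr fun l hl => by rw [Function.update_of_ne hl])

theorem self_mem_Cy (J : Finset (Fin m)) (j : Fin m) {x : D.X} {b : Fin m → ZMod p}
    (h : D.In x b) : x ∈ D.Cy J j x b := mem_Cy.2 ⟨fun _ _ => rfl, fun l _ => h l⟩

theorem In_fl (j : Fin m) {x : D.X} {b : Fin m → ZMod p} (h : D.In x b) :
    D.In x (D.fl j x b) := fun l => by
  by_cases e : l = j
  · subst e
    rcases h l with h | h <;> simp only [fl, Function.update_self, ed, h]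
    · right; ring
    · left; ring
  · simpa only [fl, Function.update_of_ne e] using h l

theorem In_tb {J : Finset (Fin m)} {j : Fin m} {x y : D.X} {b : Fin m → ZMod p} (h : D.In x b)
    (hy : y ∈ D.Cy J j x b) : D.In y (D.tb j x b y) := fun l => by
  by_cases e : l = j
  · subst e
    rcases h l with h | h <;> simp only [tb, Function.update_self, ed, h]
    · left; ring
    · right; ring
  · simpa only [tb, Function.update_of_ne e] using (mem_Cy.1 hy).2 l e

end Dat

/-- the closed circle relation -/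
def circ (p : ℕ) (x y : ℝ) : Prop := ∃ k : ℤ, |x - y - k| ≤ 2 / p

theorem circ_of_cf {p : ℕ} (hp : 0 < p) {x y : ℝ}
    (h : cf ((⌊p * x⌋ : ℤ) : ZMod p) ((⌊p * y⌋ : ℤ) : ZMod p)) : circ p x y := by
  have p0 : (0 : ℝ) < p := by exact_mod_cast hp
  obtain ⟨t, k, ht, hk⟩ : ∃ t k : ℤ, |t| ≤ 1 ∧ ⌊p * x⌋ - ⌊p * y⌋ - t = p * k := by
    have key : ∀ t : ℤ, |t| ≤ 1 → ((⌊p * x⌋ - ⌊p * y⌋ - t : ℤ) : ZMod p) = 0 →
        ∃ t k : ℤ, |t| ≤ 1 ∧ ⌊p * x⌋ - ⌊p * y⌋ - t = p * k := fun t ht h0 =>
      ((ZMod.intCast_zmod_eq_zero_iff_dvd _ p).1 h0).elim fun k hk => ⟨t, k, ht, hk⟩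
    rcases h with h | h | h
    · exact key 0 (by simp) (by push_cast; rw [h]; ring)
    · exact key (-1) (by simp) (by push_cast; rw [h]; ring)
    · exact key 1 (by simp) (by push_cast; rw [h]; ring)
  refine ⟨k, ?_⟩
  have h1 : ((⌊p * x⌋ : ℤ) : ℝ) - (⌊p * y⌋ : ℤ) - t = p * k := by exact_mod_cast hk
  have h2 : |(t : ℝ)| ≤ 1 := by exact_mod_cast ht
  obtain ⟨h3, h4⟩ := abs_le.1 h2
  have a1 := Int.floor_le (p * x)
  have a2 := Int.lt_floor_add_one (p * x)
  have a3 := Int.floor_le (p * y)
  have a4 := Int.lt_floor_add_one (p * y)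
  rw [le_div_iff₀ p0, ← abs_of_pos p0, ← abs_mul, abs_le]
  constructor <;> nlinarith

/-- a Strassen preorder -/
structure SP {R : Type 1} [CommSemiring R] (le : R → R → Prop) : Prop where
  refl : ∀ x, le x x
  trans : ∀ x y z, le x y → le y z → le x z
  add : ∀ x y z, le x y → le (x + z) (y + z)
  mul : ∀ x y z, le x y → le (x * z) (y * z)
  zero : ∀ x, le 0 x
  one : ∀ x, x ≠ 0 → le 1 x
  arch : ∀ x, ∃ r : ℕ, le x r
  prop : ∀ n : ℕ, ¬ le (n + 1) n

/-- the extension of a preorder in which `y` is below `x` -/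
def xt {R : Type 1} [CommSemiring R] (le : R → R → Prop) (y x : R) (u v : R) : Prop :=
  ∃ s, le (u + s * x) (v + s * y)

/-- a confusability relation with a finite clique cover -/
structure Gr where
  V : Type
  r : V → V → Prop
  refl : ∀ x, r x x
  symm : ∀ x y, r x y → r y x
  cov : ∃ (ι : Type) (_ : Finite ι) (f : V → ι), ∀ x y, f x = f y → r x y

namespace Gr

/-- cohomomorphism -/
def le (G H : Gr) : Prop := ∃ f : G.V → H.V, ∀ x y, H.r (f x) (f y) → G.r x y

/-- equivalence -/
def eqv (G H : Gr) : Prop := G.le H ∧ H.le G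

/-- `n` isolated points -/
def disc (n : ℕ) : Gr := ⟨Fin n, Eq, fun _ => rfl, fun _ _ h => h.symm, _, inferInstance, id,
  fun _ _ h => h⟩

/-- disjoint union -/
def sum (G H : Gr) : Gr where
  V := G.V ⊕ H.V
  r := Sum.LiftRel G.r H.r
  refl := fun x => by cases x <;> simp [G.refl, H.refl]
  symm := fun _ _ h => by
    cases h with
    | inl h => exact .inl (G.symm _ _ h)
    | inr h => exact .inr (H.symm _ _ h)
  cov := by
    obtain ⟨ι, _, f, hf⟩ := G.cov
    obtain ⟨κ, _, g, hg⟩ := H.cov
    refine ⟨ι ⊕ κ, inferInstance, Sum.map f g, fun x y h => ?_⟩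
    cases x <;> cases y <;> simp_all

/-- strong product -/
def prod (G H : Gr) : Gr where
  V := G.V × H.V
  r := fun x y => G.r x.1 y.1 ∧ H.r x.2 y.2
  refl := fun _ => ⟨G.refl _, H.refl _⟩
  symm := fun _ _ h => ⟨G.symm _ _ h.1, H.symm _ _ h.2⟩
  cov := by
    obtain ⟨ι, _, f, hf⟩ := G.cov
    obtain ⟨κ, _, g, hg⟩ := H.cov
    exact ⟨ι × κ, inferInstance, Prod.map f g, fun x y h =>
      ⟨hf _ _ (congrArg Prod.fst h), hg _ _ (congrArg Prod.snd h)⟩⟩

/-- strong power -/
def pow (G : Gr) (m : ℕ) : Gr where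
  V := Fin m → G.V
  r := fun x y => ∀ l, G.r (x l) (y l)
  refl := fun _ _ => G.refl _
  symm := fun _ _ h l => G.symm _ _ (h l)
  cov := by
    obtain ⟨ι, _, f, hf⟩ := G.cov
    exact ⟨Fin m → ι, inferInstance, fun x l => f (x l), fun x y h l => hf _ _ (congrFun h l)⟩

/-- the relation of a finite graph -/
def of {V : Type} [Finite V] (G : SimpleGraph V) : Gr :=
  ⟨V, fun x y => x = y ∨ G.Adj x y, fun _ => .inl rfl, fun _ _ h => h.imp Eq.symm G.adj_symm,
    V, inferInstance, id, fun _ _ h => .inl h⟩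

/-- the cycle -/
def cyc (p : ℕ) [NeZero p] : Gr :=
  ⟨ZMod p, cf, cf_refl, fun _ _ h => h.symm, ZMod p, inferInstance, id, fun _ _ h => .inl h.symm⟩

/-- the closed circle graph -/
def circle (p : ℕ) [NeZero p] : Gr where
  V := ℝ
  r := circ p
  refl := fun x => ⟨0, by simp; positivity⟩
  symm := fun x y h => h.elim fun k hk => ⟨-k, by
    rw [← abs_neg]; convert hk using 2; push_cast; ring⟩
  cov := ⟨ZMod p, inferInstance, fun x => ((⌊p * x⌋ : ℤ) : ZMod p), fun _ _ h =>
    circ_of_cf (NeZero.pos p) (.inl h.symm)⟩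

end Gr

end Pool.Agent.P.MP_263185_co.AL
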