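import Mathlib

/-! The asymptotic spectrum of finite graphs and fraction graphs. -/

namespace Pool.Agent.P.MP_263185_co.AL

/-- the strong product: distinct pairs are adjacent if they are equal or adjacent in both
coordinates -/
def strong {V W : Type} (G : SimpleGraph V) (H : SimpleGraph W) : SimpleGraph (V × W) where
  Adj x y := x ≠ y ∧ (x.1 = y.1 ∨ G.Adj x.1 y.1) ∧ (x.2 = y.2 ∨ H.Adj x.2 y.2)
  symm := ⟨fun _ _ h => ⟨h.1.symm, h.2.1.imp Eq.symm G.adj_symm, h.2.2.imp Eq.symm H.adj_symm⟩⟩
  loopless := ⟨fun _ h => h.1 rfl⟩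

/-- the fraction graph: distinct residues modulo `a` are adjacent if their distance on the cycle
of length `a` is less than `b` -/
def fraction (a b : ℕ) : SimpleGraph (Fin a) where
  Adj x y := x ≠ y ∧ ∃ z : ℤ, |((x : ℕ) : ℤ) - (y : ℕ) - z * a| < b
  symm := ⟨fun x y h => ⟨h.1.symm, h.2.elim fun z hz => ⟨-z, by
    rw [← abs_neg]; convert hz using 2; ring⟩⟩⟩
  loopless := ⟨fun _ h => h.1 rfl⟩

/-- a point of the asymptotic spectrum of graphs: a real parameter of finite graphs that is
normalised, additive under disjoint union, multiplicative under the strong product and monotone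
under homomorphisms of the complements -/
structure Spectral (F : ∀ (V : Type) [Finite V], SimpleGraph V → ℝ) : Prop where
  one : F Unit ⊥ = 1
  add : ∀ (V W : Type) [Finite V] [Finite W] (G : SimpleGraph V) (H : SimpleGraph W),
    F (V ⊕ W) (G.sum H) = F V G + F W H
  mul : ∀ (V W : Type) [Finite V] [Finite W] (G : SimpleGraph V) (H : SimpleGraph W),
    F (V × W) (strong G H) = F V G * F W H
  mono : ∀ (V W : Type) [Finite V] [Finite W] (G : SimpleGraph V) (H : SimpleGraph W),
    Nonempty (SimpleGraph.Hom Gᶜ Hᶜ) → F V G ≤ F W H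

end Pool.Agent.P.MP_263185_co.AL
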