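import Pool.Agent.P.MP_263185_co.AL.Base

/-! Statements of the steps. -/

namespace Pool.Agent.P.MP_263185_co.AL

open Finset
open scoped Classical

/-! ### General lemmas -/

-- deps:
def S_LU : Prop := ∀ (Ω Y ι : Type) [Fintype Ω] [Fintype Y] [Fintype ι] (π : Ω → Y) (w : Y → ℝ)
  (χ u : ι → Ω → ℝ) (F : Ω → ℝ), (∀ y, 0 ≤ w y) → ∑ y, w y ≤ 1 → (∀ ω, 0 < w (π ω)) →
  (∀ i ω, χ i ω = 1 ∨ χ i ω = -1) → (∀ i ω ω', π ω = π ω' → u i ω = u i ω') →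
  (∀ ω, (#(univ.filter fun ω' => π ω' = π ω ∧ ∀ i, χ i ω' = χ i ω) : ℝ) ≤ F ω) →
  ∑ ω, ∑ i, (u i ω * χ i ω - u i ω ^ 2 / 2) ≤ ∑ ω, (Fintype.card ι * Real.log 2 -
    Real.log (w (π ω)) - Real.log (Fintype.card Ω) + Real.log (F ω))

-- deps:
def S_CP : Prop := ∀ (m : ℕ) (f : (Fin m → Bool) → ℝ),
  2 * (cE (fun β => f β ^ 2) - cE f ^ 2) ≤ ∑ j, (cE (fun β => cD j f β ^ 2) + cA j f ^ 2)

-- deps:
def S_CA : Prop := ∀ (m : ℕ) (f : (Fin m → Bool) → ℝ) (j : Fin m) (gd : (Fin m → Bool) → Prop),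
  cA j f ^ 2 ≤ cE (fun β => cD j f β ^ 2) ∧
  cA j f ^ 2 ≤ 2 * cE (fun β => ind (gd β) * cD j f β ^ 2) +
    2 * cE (fun β => ind (¬ gd β)) * cE (fun β => cD j f β ^ 2)

-- deps:
def S_CO : Prop := ∀ (m : ℕ) (U : Finset (Fin m)) (a₀ : ℝ) (a : Fin m → ℝ),
  cE (fun β => (a₀ + ∑ j ∈ U, a j * sg (β j)) ^ 2) = a₀ ^ 2 + ∑ j ∈ U, a j ^ 2

-- deps:
def S_GREEDY : Prop := ∀ (m K : ℕ) (e : Finset (Fin m) → ℝ) (B : ℝ), 0 < K → K ≤ m → 0 ≤ B →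
  (∀ J, #J = K → e ∅ - e J ≤ B) → ∃ J, #J < K ∧ ∀ j, e J - e (insert j J) ≤ B / K

-- deps:
def S_EDGE : Prop := ∀ p : ℕ, 5 ≤ p →
  (∀ S : Set (ZMod p), (∀ x ∈ S, ∀ y ∈ S, cf x y) → ∃ a, ∀ x ∈ S, ed a x) ∧
  (∀ a a' x y : ZMod p, x ≠ y → ed a x → ed a y → ed a' x → ed a' y → a = a') ∧
  (∀ a x y z : ZMod p, x ≠ y → ed a x → ed a y → cf x z → cf y z → ed a z) ∧
  (∀ a x y : ZMod p, ed a x → ed a y →
    lf x y = ((if x = a then 1 else -1) - (if y = a then 1 else -1)) / 2) ∧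
  (∀ x y : ZMod p, lf (-x) (-y) = -lf x y ∧ lf y x = -lf x y) ∧
  ∀ x : ZMod p, ¬ cf x (x + 2) ∧ ¬ cf x (x - 2)

-- deps:
def S_CYC : Prop := ∀ (p : ℕ) [NeZero p] (g : ZMod p → ℝ) (r r' : ZMod p),
  g r - g r' ≤ ∑ t, |g t - g (t - 1)|

-- deps: EDGE
def S_WIND : Prop := ∀ (p : ℕ) [NeZero p], 5 ≤ p → ∀ (C : Type) (ce : ZMod p → Finset C)
  (v : C → ZMod p) (x : ZMod p → ZMod p), (∀ r, ∀ y ∈ ce r, ed (x r) (v y)) →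
  (∀ r, ∀ y ∈ ce (r + 1), ed (x r) (v y)) →
  (∀ r, 0 < ∑ y ∈ ce r, ∑ y' ∈ ce (r + 1), lf (v y) (v y')) →
  ∃ x₀, ∀ r, ∀ y ∈ ce r, v y = x₀ + r

/-! ### Averaging -/

-- deps:
def S_SW : Prop := ∀ (p m : ℕ) [NeZero p] (D : Dat p m) (F : D.X → (Fin m → ZMod p) → ℝ),
  ∑ x, ∑ β, F x (D.bx x β) = ∑ b, ∑ x ∈ univ.filter (fun y => D.In y b), F x b ∧
  ∀ x, Function.Injective (D.bx x) ∧ ∀ b, D.In x b → ∃ β, D.bx x β = b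

-- deps: SW
def S_AVG : Prop := ∀ (p m : ℕ) [NeZero p] (D : Dat p m) (J : Finset (Fin m))
  (f g : D.X → (Fin m → ZMod p) → ℝ), (∀ x b, ∀ y ∈ D.A J x b, D.In x b → g y b = g x b) →
  D.E (fun x b => g x b * ((∑ y ∈ D.A J x b, f y b) / #(D.A J x b))) =
    D.E fun x b => g x b * f x b

-- deps: SW
def S_AVJ : Prop := ∀ (p m : ℕ) [NeZero p] (D : Dat p m) (J : Finset (Fin m)) (j : Fin m)
  (f : D.X → (Fin m → ZMod p) → ℝ),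
  D.E (fun x b => (∑ y ∈ D.Cy J j x b, f y (D.tb j x b y)) / #(D.Cy J j x b)) = D.E f

-- deps: EDGE AVG
def S_PSI : Prop := ∀ (p m : ℕ) [NeZero p] (D : Dat p m) (J : Finset (Fin m)),
  (∀ i x b, D.In x b → D.psi J i x b = (D.chi i x b - D.M J i x b) / 2 ∧ D.M J i x b ^ 2 ≤ 1) ∧
  D.e J = (m - ∑ i, D.E fun x b => D.M J i x b ^ 2) / 4

-- deps: PSI AVG
def S_MART : Prop := ∀ (p m : ℕ) [NeZero p] (D : Dat p m) (J : Finset (Fin m)) (j : Fin m),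
  D.e J - D.e (insert j J) = ∑ i, D.E fun x b => D.del J i j x b ^ 2

/-! ### Entropy bounds -/

-- deps: SW
def S_LN : Prop := ∀ (p m : ℕ) [NeZero p] (D : Dat p m), 0 ≤ D.df ∧ 0 ≤ D.phi ∧
  m * Real.log 2 - D.df ≤ D.E fun _ b => Real.log (D.N b)

-- deps: EDGE
def S_QQ : Prop := ∀ (p m : ℕ), 5 ≤ p → ∀ (X : Type) [Fintype X] (t : X → Fin m → ZMod p)
  (b b' : Fin m → ZMod p), Function.Injective t →
  #(univ.filter fun x => (∀ l, ed (b l) (t x l)) ∧ ∀ l, ed (b' l) (t x l)) *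
    2 ^ #(univ.filter fun l => b' l ≠ b l) ≤ 2 ^ m

-- deps: SW
def S_AVF : Prop := ∀ (p m : ℕ) [NeZero p] (D : Dat p m) (f : D.X → (Fin m → ZMod p) → ℝ),
  D.E (fun x b => (∑ b' ∈ D.Fs x b, f x b') / #(D.Fs x b)) = D.E f

-- deps: SW QQ AVF
def S_EA : Prop := ∀ (p m : ℕ) [NeZero p] (D : Dat p m),
  D.E (fun x b => 2 * Real.log (D.N b) + Real.log #(D.Fs x b) - Real.log (D.V b)) +
    (D.Ed - m) * Real.log 2 ≤ 0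

-- deps: SW QQ
def S_EB : Prop := ∀ (p m : ℕ) [NeZero p] (D : Dat p m),
  D.E (fun x b => Real.log (D.V b) - Real.log #(D.Fs x b)) ≤ m * Real.log 2

-- deps: SW
def S_EC : Prop := ∀ (p m : ℕ) [NeZero p] (D : Dat p m) (z : ℝ), 0 < z →
  D.phi ≤ m * z + D.Ed / z

-- deps: LN EA EB EC
def S_E1 : Prop := ∀ (p m : ℕ) [NeZero p] (D : Dat p m) (z : ℝ), 0 < z →
  D.phi ≤ m * z + 4 * D.df / z

-- deps: EDGE
def S_LAB : Prop := ∀ (p m : ℕ) [NeZero p] (D : Dat p m) (J : Finset (Fin m)) (x y : D.X)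
  (b b' : Fin m → ZMod p), D.In x b → D.In y b' → D.lab J x b = D.lab J y b' →
  D.A J x b = D.A J y b' ∧ D.spn J x b = D.spn J y b' ∧
  (∀ i ∈ D.spn J x b, D.a b i = D.a b' i ∧ D.M J i x b = D.M J i y b') ∧
  (∀ j, j ∉ J → D.tau J j x b = D.tau J j y b') ∧
  ((∀ i, D.chi i x b = D.chi i y b') → x = y ∧ D.a b = D.a b')

-- deps: LU LAB AVG SW
def S_UA : Prop := ∀ (p m : ℕ) [NeZero p] (D : Dat p m) (J : Finset (Fin m)),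
  D.E (fun x b => ∑ i ∈ D.spn J x b, D.M J i x b ^ 2) ≤ 2 * (D.df + D.phi)

-- deps: LU LAB SW EDGE
def S_UB : Prop := ∀ (p m : ℕ) [NeZero p] (D : Dat p m) (J : Finset (Fin m)),
  (m - #J) * Real.log 2 - D.df ≤ D.E (fun x b => (#(D.spn J x b) : ℝ)) * Real.log 2

-- deps: UA UB PSI LN
def S_UM : Prop := ∀ (p m : ℕ) [NeZero p] (D : Dat p m) (J : Finset (Fin m)),
  ∑ i, D.E (fun x b => D.M J i x b ^ 2) ≤ #J + 4 * D.df + 2 * D.phi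

-- deps: LU LAB AVG SW
def S_UT : Prop := ∀ (p m : ℕ) [NeZero p] (D : Dat p m) (J : Finset (Fin m)),
  ∑ j ∈ Jᶜ, D.E (fun x b => D.tau J j x b ^ 2) ≤ 2 * D.df

-- deps: LU SW EDGE
def S_UC : Prop := ∀ (p m : ℕ) [NeZero p] (D : Dat p m) (U : D.X → Finset (Fin m))
  (a₀ : Fin m → D.X → ℝ) (a : Fin m → Fin m → D.X → ℝ),
  ∑ i, D.xE (fun x => cE fun β =>
    (a₀ i x + ∑ j ∈ U x, a i j x * sg (β j)) * D.chi i x (D.bx x β) -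
      (a₀ i x + ∑ j ∈ U x, a i j x * sg (β j)) ^ 2 / 2) ≤
    D.xE (fun x => (#(U x) : ℝ)) * Real.log 2 + D.phi

-- deps: UC CO PSI
def S_AU : Prop := ∀ (p m : ℕ) [NeZero p] (D : Dat p m) (J : Finset (Fin m)),
  D.Aw J ≤ D.xE (fun x => (#(D.U J x) : ℝ)) + D.phi + (∑ i, D.E fun x b => D.M J i x b ^ 2) / 2

/-! ### Cylinders -/

-- deps:
def S_BOX : Prop := ∀ (p m : ℕ) [NeZero p] (D : Dat p m) (J : Finset (Fin m)) (j : Fin m)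
  (x : D.X) (b : Fin m → ZMod p),
  (∀ f : D.X → ℝ, ∑ y ∈ D.Cy J j x b, f y = ∑ r, ∑ y ∈ D.ce J j x b r, f y) ∧
  (∀ y ∈ D.Cy J j x b, ∀ t r, D.ce J j y (Function.update b j t) r = D.ce J j x b r) ∧
  (j ∉ J → D.In x b → D.A (insert j J) x b = D.ce J j x b (D.c x j) ∧
    (∀ f : D.X → ℝ, ∑ y ∈ D.A J x b, f y =
      ∑ y ∈ D.ce J j x b (b j), f y + ∑ y ∈ D.ce J j x b (b j + 1), f y) ∧
    D.tau J j x b = ((#(D.ce J j x b (b j)) : ℝ) - #(D.ce J j x b (b j + 1))) /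
      (#(D.ce J j x b (b j)) + #(D.ce J j x b (b j + 1))))

-- deps: EDGE BOX
def S_DEL : Prop := ∀ (p m : ℕ) [NeZero p] (D : Dat p m) (J : Finset (Fin m)) (i j : Fin m)
  (x : D.X) (b : Fin m → ZMod p), j ∉ J → D.In x b →
  (b j = D.c x j → D.del J i j x b = D.g J i j x b (D.c x j) / #(D.ce J j x b (D.c x j))) ∧
  (b j = D.c x j - 1 →
    D.del J i j x b = -D.g J i j x b (D.c x j - 1) / #(D.ce J j x b (D.c x j)))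

-- deps: WIND EDGE
def S_SGN : Prop := ∀ (p m : ℕ) [NeZero p] (D : Dat p m) (J : Finset (Fin m)) (i j : Fin m)
  (x : D.X) (b : Fin m → ZMod p),
  (∃ r, D.g J i j x b r ≤ 0) ∧ ∃ r, 0 ≤ D.g J i j x b r

-- deps: DEL SGN CYC BOX
def S_GOOD : Prop := ∀ (p m : ℕ) [NeZero p] (D : Dat p m) (J : Finset (Fin m)) (i j : Fin m)
  (x : D.X) (b : Fin m → ZMod p), j ∉ J → D.In x b → D.good J j x b →
  D.del J i j x b ^ 2 ≤ 4 * p ^ 2 * ((∑ y ∈ D.Cy J j x b, (D.del J i j y (D.tb j x b y) +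
    D.del J i j y (D.fl j y (D.tb j x b y))) ^ 2) / #(D.Cy J j x b))

-- deps: CYC BOX
def S_BAD : Prop := ∀ (p m : ℕ) [NeZero p] (D : Dat p m) (J : Finset (Fin m)) (j : Fin m)
  (x : D.X) (b : Fin m → ZMod p), D.In x b → ¬ D.good J j x b →
  1 ≤ 8 * p ^ 3 * ((∑ y ∈ D.Cy J j x b, (D.tau J j y (D.tb j x b y) ^ 2 +
    D.tau J j y (D.fl j y (D.tb j x b y)) ^ 2)) / #(D.Cy J j x b))

-- deps: BAD AVJ UT
def S_UU : Prop := ∀ (p m : ℕ) [NeZero p] (D : Dat p m) (J : Finset (Fin m)),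
  D.xE (fun x => (#(D.U J x) : ℝ)) ≤ 256 * p ^ 3 * D.df

-- deps: LAB
def S_EN : Prop := ∀ (p m : ℕ) [NeZero p] (D : Dat p m) (J : Finset (Fin m)),
  (∀ i j x b, D.In x b → D.psi J i x b - D.psi J i x (D.fl j x b) =
    D.del J i j x b - D.del J i j x (D.fl j x b)) ∧ D.En J = D.Dr J - D.G J ∧ 0 ≤ D.G J

-- deps: EN GOOD AVJ BOX
def S_EG : Prop := ∀ (p m : ℕ) [NeZero p] (D : Dat p m) (J : Finset (Fin m)),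
  D.Eg J ≤ 16 * p ^ 2 * D.G J

-- deps: CP CA
def S_CUB : Prop := ∀ (p m : ℕ) [NeZero p] (D : Dat p m) (J : Finset (Fin m)),
  D.e J - D.Aw J ≤ D.En J ∧ 2 * D.e J ≤ 2 * D.Aw J + 5 / 4 * D.En J + 2 * D.Eg J

-- deps: GREEDY PSI MART UM LN UU AU EN EG CUB
def S_FIN : Prop := ∀ (p m : ℕ) [NeZero p] (D : Dat p m) (K : ℕ) (ζ : ℝ), 0 < K → K ≤ m →
  K + 4 * D.df + 2 * D.phi ≤ ζ * m → (4 * D.df + 2 * D.phi) * m ≤ ζ * m * K →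
  256 * p ^ 3 * D.df + D.phi ≤ ζ * m → 3 / 16 ≤ ζ * (6 + 96 * p ^ 2)

-- deps: FIN E1 LN
def S_CORE : Prop := ∀ (p : ℕ) [NeZero p], ∃ ε : ℝ, 0 < ε ∧ ∃ m₀, ∀ m, m₀ ≤ m →
  ∀ D : Dat p m, ε * m ≤ D.df

/-! ### Near injectivity -/

-- deps:
def S_PSD : Prop := ∀ (p : ℕ) [NeZero p], Odd p → ∀ θ : ℝ, 1 / 2 ≤ θ → θ ≤ 1 / 2 + 1 / p ^ 2 →
  ∀ f : ZMod p → ℝ, (1 + 2 * θ) / p * (∑ x, f x) ^ 2 ≤ ∑ x, f x ^ 2 + 2 * θ * ∑ x, f x * f (x + 1)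

-- deps:
def S_TEN : Prop := ∀ (Z : Type) [Fintype Z] (k : Z → Z → ℝ) (α : ℝ), 0 ≤ α →
  (∀ x y, k x y = k y x) → (∀ f : Z → ℝ, α * (∑ x, f x) ^ 2 ≤ ∑ x, ∑ y, f x * f y * k x y) →
  ∀ (m : ℕ) (X : Type) (S : Finset X) (g : X → Fin m → Z),
    α ^ m * (#S : ℝ) ^ 2 ≤ ∑ x ∈ S, ∑ y ∈ S, ∏ l, k (g x l) (g y l)

-- deps: PSD TEN
def S_KER : Prop := ∀ (p m : ℕ) [NeZero p] (P : Pre p m), Odd p → ∀ θ : ℝ, 1 / 2 ≤ θ →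
  θ ≤ 1 / 2 + 1 / p ^ 2 → ∀ S : Finset P.X,
  ((1 + 2 * θ) / p) ^ m * (#S : ℝ) ^ 2 ≤ ∑ x ∈ S, ∑ y ∈ P.nb x, θ ^ P.dc x y

-- deps: EDGE
def S_NA : Prop := ∀ (p m : ℕ) [NeZero p] (P : Pre p m) (x : P.X) (θ : ℝ), 0 ≤ θ →
  ∑ y ∈ P.nb x, θ ^ P.ds x y ≤ 2 ^ #(P.sp x) * (1 + 2 * θ) ^ (m - #(P.sp x)) ∧
  #(univ.filter fun y => P.c y = P.c x) ≤ 2 ^ #(P.sp x)

-- deps: EDGE
def S_NB1 : Prop := ∀ (p m : ℕ) [NeZero p] (P : Pre p m) (x : P.X) (φ : ℝ) (b : Fin m → ZMod p),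
  0 ≤ φ → (∀ l, ed (b l) (P.c x l)) →
  ∑ y ∈ univ.filter (fun y => ∀ l, ed (b l) (P.c y l)), φ ^ P.ds x y ≤
    2 ^ #(P.sp x) * (1 + φ) ^ (m - #(P.sp x))

-- deps: NB1
def S_NB : Prop := ∀ (p m : ℕ) [NeZero p] (P : Pre p m) (x : P.X) (φ : ℝ), 0 ≤ φ →
  ∑ y ∈ P.nb x, (1 / 2) ^ P.dc x y * φ ^ P.ds x y ≤ 2 ^ #(P.sp x) * (1 + φ) ^ (m - #(P.sp x))

-- deps: KER NA NB
def S_ST1 : Prop := ∀ (p : ℕ) [NeZero p], Odd p → ∃ ρ : ℝ, 0 < ρ ∧ ρ < 1 ∧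
  ∀ (m : ℕ) (P : Pre p m) (κ : ℕ), (#(univ.filter fun x => κ ≤ #(P.sp x)) : ℝ) ≤ p ^ m * ρ ^ κ

-- deps: NA EDGE
def S_ST2 : Prop := ∀ (p m : ℕ) [NeZero p] (P : Pre p m) (κ : ℕ),
  Fintype.card P.X ≤ #(univ.filter fun x => κ ≤ #(P.sp x)) ∨ ∃ D : Dat p m,
    Fintype.card P.X ≤ #(univ.filter fun x => κ ≤ #(P.sp x)) + 2 ^ κ * Fintype.card D.X

-- deps: ST1 ST2 CORE
def S_PRE : Prop := ∀ (p : ℕ) [NeZero p], Odd p → ∃ c : ℝ, 1 < c ∧ ∃ m₀, ∀ m, m₀ ≤ m →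
  ∀ P : Pre p m, Fintype.card P.X * c ^ m ≤ p ^ m

-- deps:
def S_R2 : Prop := ∀ (p : ℕ) [NeZero p] (x : ZMod p → ℝ),
  (∀ t, ((⌊p * x t⌋ : ℤ) : ZMod p) = t) → ∃ t, circ p (x t) (x (t + 2))

-- deps: PRE R2
def S_THA : Prop := ∀ (p : ℕ) [NeZero p], 5 ≤ p → Odd p → ∃ c : ℝ, 1 < c ∧ ∃ m₀, ∀ m, m₀ ≤ m →
  ∀ N : ℕ, ((Gr.cyc p).pow m).le ((Gr.disc N).prod ((Gr.circle p).pow m)) → c ^ m ≤ N

/-! ### Duality -/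

-- deps:
def S_ZORN : Prop := ∀ (R : Type 1) [CommSemiring R] (le : R → R → Prop), SP le →
  ∃ le' : R → R → Prop, SP le' ∧ (∀ x y, le x y → le' x y) ∧ ∀ x y, le' x y ∨ le' y x

-- deps:
def S_INIT : Prop := ∀ (R : Type 1) [CommSemiring R] (le : R → R → Prop) (A B : R), SP le →
  le 1 B → (∀ r : ℕ, ∃ l : ℕ, ¬ le (A ^ l) (r * (2 * B) ^ l)) →
  SP (xt le B A) ∧ (∀ x y, le x y → xt le B A x y) ∧ xt le B A B A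

-- deps:
def S_FUN : Prop := ∀ (R : Type 1) [CommSemiring R] (le : R → R → Prop), SP le →
  (∀ x y, le x y ∨ le y x) → ∃ F : R →+* ℝ, ∀ x y, le x y → F x ≤ F y

-- deps:
def S_GEQ : Prop := (∀ G : Gr, G.le G) ∧ (∀ G H K : Gr, G.le H → H.le K → G.le K) ∧
  (∀ G G' H H' : Gr, G.le G' → H.le H' → (G.sum H).le (G'.sum H') ∧ (G.prod H).le (G'.prod H')) ∧
  (∀ G H K : Gr, ((G.sum H).sum K).eqv (G.sum (H.sum K)) ∧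
    ((G.prod H).prod K).eqv (G.prod (H.prod K)) ∧
    (G.prod (H.sum K)).eqv ((G.prod H).sum (G.prod K))) ∧
  (∀ G H : Gr, (G.sum H).le (H.sum G) ∧ (G.prod H).le (H.prod G)) ∧
  (∀ G : Gr, ((Gr.disc 0).sum G).eqv G ∧ ((Gr.disc 1).prod G).eqv G ∧
    ((Gr.disc 0).prod G).eqv (Gr.disc 0) ∧ (Gr.disc 0).le G ∧
    (G.le (Gr.disc 0) ∨ (Gr.disc 1).le G) ∧ (∃ n, G.le (Gr.disc n)) ∧
    (G.pow 0).eqv (Gr.disc 1) ∧ ∀ m, (G.pow (m + 1)).eqv ((G.pow m).prod G)) ∧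
  ∀ n, (Gr.disc (n + 1)).eqv ((Gr.disc n).sum (Gr.disc 1)) ∧ ¬ (Gr.disc (n + 1)).le (Gr.disc n)

-- deps: GEQ
def S_GSR : Prop := ∃ (R : Type 1) (_ : CommSemiring R) (le : R → R → Prop) (mk : Gr → R),
  SP le ∧ (∀ G H, le (mk G) (mk H) ↔ G.le H) ∧ (∀ G H, G.eqv H → mk G = mk H) ∧
  (∀ G H, mk (G.sum H) = mk G + mk H) ∧ (∀ G H, mk (G.prod H) = mk G * mk H) ∧
  (∀ n, mk (Gr.disc n) = n) ∧ ∀ G m, mk (G.pow m) = mk G ^ m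

-- deps:
def S_TRS : Prop :=
  (∀ (V W : Type) [Finite V] [Finite W] (G : SimpleGraph V) (H : SimpleGraph W),
    (Gr.of (G.sum H)).eqv ((Gr.of G).sum (Gr.of H)) ∧
    (Gr.of (strong G H)).eqv ((Gr.of G).prod (Gr.of H)) ∧
    (Nonempty (SimpleGraph.Hom Gᶜ Hᶜ) → (Gr.of G).le (Gr.of H))) ∧
  (Gr.of (⊥ : SimpleGraph Unit)).eqv (Gr.disc 1) ∧
  ∀ (p : ℕ) [NeZero p], 5 ≤ p → (Gr.cyc p).le (Gr.of (SimpleGraph.cycleGraph p)) ∧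
    ∀ a b : ℕ, 2 * a < p * b → (Gr.of (fraction a b)).le (Gr.circle p)

-- deps: ZORN INIT FUN GSR TRS THA
def S_MAIN : Prop := ∀ p : ℕ, 5 ≤ p → Odd p →
  ∃ F : ∀ (V : Type) [Finite V], SimpleGraph V → ℝ, Spectral F ∧ ∃ c : ℝ, 1 < c ∧
    ∀ a b : ℕ, 2 * a < p * b →
      c * F (Fin a) (fraction a b) ≤ F (Fin p) (SimpleGraph.cycleGraph p)

end Pool.Agent.P.MP_263185_co.AL
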