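import Pool.Agent.P.MP_263185_co.AL.Iface

section

/-! Step PSD. -/

namespace Pool.Agent.P.MP_263185_co.AL

open Finset
open scoped Classical

theorem tel_psd {p : ℕ} (f : ZMod p → ℝ) (x : ZMod p) (n : ℕ) :
    ∑ k ∈ range n, (-1 : ℝ) ^ k * (f (x + k) + f (x + k + 1)) = f x - (-1) ^ n * f (x + n) := by
  induction n with
  | zero => simp
  | succ n ih =>
    rw [sum_range_succ, ih, Nat.cast_succ, ← add_assoc, pow_succ]
    ring

theorem shift_psd {p : ℕ} [NeZero p] (F : ZMod p → ℝ) : ∑ x, F (x + 1) = ∑ x, F x :=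
  Equiv.sum_comp (Equiv.addRight 1) F

theorem pt_psd {p : ℕ} [NeZero p] (hp : Odd p) (f : ZMod p → ℝ) (x : ZMod p) :
    4 * f x ^ 2 ≤ p * ∑ y, (f y + f (y + 1)) ^ 2 := by
  have h := tel_psd f x p
  rw [hp.neg_one_pow, ZMod.natCast_self, add_zero] at h
  have h1 := sq_sum_le_card_mul_sum_sq (s := range p)
    (f := fun k : ℕ => (-1 : ℝ) ^ k * (f (x + k) + f (x + k + 1)))
  rw [h, card_range] at h1
  have h2 : ∑ k ∈ range p, ((-1 : ℝ) ^ k * (f (x + k) + f (x + k + 1))) ^ 2 ≤
      ∑ y, (f y + f (y + 1)) ^ 2 := by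
    have inj : Set.InjOn (fun k : ℕ => x + (k : ZMod p)) (range p : Finset ℕ) := by
      intro a ha b hb e
      have e' : (a : ZMod p) = b := add_left_cancel e
      rw [coe_range, Set.mem_Iio] at ha hb
      have := congrArg ZMod.val e'
      rwa [ZMod.val_cast_of_lt ha, ZMod.val_cast_of_lt hb] at this
    calc _ = ∑ k ∈ range p, (f (x + k) + f (x + k + 1)) ^ 2 := by
          refine sum_congr rfl fun k _ => ?_
          rw [mul_pow, ← pow_mul, mul_comm k 2, pow_mul]
          simp
      _ = ∑ y ∈ (range p).image (fun k : ℕ => x + (k : ZMod p)), (f y + f (y + 1)) ^ 2 :=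
          (sum_image (f := fun y => (f y + f (y + 1)) ^ 2) inj).symm
      _ ≤ _ := sum_le_univ_sum_of_nonneg fun _ => sq_nonneg _
  have h3 : (0 : ℝ) ≤ p := Nat.cast_nonneg p
  nlinarith [mul_le_mul_of_nonneg_left h2 h3]

theorem q_psd {p : ℕ} [NeZero p] (hp : Odd p) {θ : ℝ} (h1 : 1 / 2 ≤ θ)
    (h2 : θ ≤ 1 / 2 + 1 / p ^ 2) (f : ZMod p → ℝ) :
    0 ≤ ∑ x, f x ^ 2 + 2 * θ * ∑ x, f x * f (x + 1) := by
  have hp0 : (0 : ℝ) < p := Nat.cast_pos.2 (NeZero.pos p)
  have s1 : ∑ x, f (x + 1) ^ 2 = ∑ x, f x ^ 2 := shift_psd fun x => f x ^ 2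
  have eG : ∑ y, (f y + f (y + 1)) ^ 2 = 2 * ∑ x, f x ^ 2 + 2 * ∑ x, f x * f (x + 1) := by
    rw [two_mul (∑ x, f x ^ 2)]
    nth_rewrite 2 [← s1]
    rw [mul_sum, ← sum_add_distrib, ← sum_add_distrib]
    exact sum_congr rfl fun x _ => by ring
  have hG : 0 ≤ ∑ y, (f y + f (y + 1)) ^ 2 := sum_nonneg fun _ _ => sq_nonneg _
  have h4 : 4 * ∑ x, f x ^ 2 ≤ p * (p * ∑ y, (f y + f (y + 1)) ^ 2) := by
    rw [mul_sum]
    refine (sum_le_sum fun x _ => pt_psd hp f x).trans (le_of_eq ?_)
    rw [sum_const, card_univ, ZMod.card, nsmul_eq_mul]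
  have hA : 0 ≤ ∑ x, f x ^ 2 := sum_nonneg fun _ _ => sq_nonneg _
  rw [eG] at hG h4
  generalize ∑ x, f x ^ 2 = A at *
  generalize ∑ x, f x * f (x + 1) = B at *
  rcases le_total 0 B with hB | hB
  · have : 0 ≤ θ * B := mul_nonneg (by linarith) hB
    linarith
  · have hq : (0 : ℝ) < (p : ℝ) ^ 2 := by positivity
    have h5 : (θ - 1 / 2) * (p : ℝ) ^ 2 ≤ 1 := by
      rw [← le_div_iff₀ hq]; linarith
    have h6 : 0 ≤ (p : ℝ) ^ 2 * (A + 2 * θ * B) := by
      have : (θ - 1 / 2) * (p : ℝ) ^ 2 * (-B) ≤ 1 * (-B) :=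
        mul_le_mul_of_nonneg_right h5 (by linarith)
      nlinarith
    exact (mul_nonneg_iff_of_pos_left hq).1 h6

theorem p_PSD :
    S_PSD := by
  intro p _ hp θ h1 h2 f
  have hp0 : (0 : ℝ) < p := Nat.cast_pos.2 (NeZero.pos p)
  obtain ⟨μ, hμ⟩ : ∃ μ : ℝ, ∑ x, f x = p * μ := ⟨(∑ x, f x) / p, by field_simp⟩
  have h := q_psd hp h1 h2 fun x => f x - μ
  have c : ∀ t : ℝ, ∑ _x : ZMod p, t = p * t := fun t => by
    rw [sum_const, card_univ, ZMod.card, nsmul_eq_mul]
  have s1 : ∑ x, f (x + 1) = p * μ := (shift_psd f).trans hμ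
  have e1 : ∑ x, (f x - μ) ^ 2 = ∑ x, f x ^ 2 - p * μ ^ 2 := by
    have : ∀ x, (f x - μ) ^ 2 = f x ^ 2 - 2 * μ * f x + μ ^ 2 := fun x => by ring
    simp only [this, sum_add_distrib, sum_sub_distrib, ← mul_sum, hμ, c]
    ring
  have e2 : ∑ x, (f x - μ) * (f (x + 1) - μ) = ∑ x, f x * f (x + 1) - p * μ ^ 2 := by
    have : ∀ x, (f x - μ) * (f (x + 1) - μ) =
      f x * f (x + 1) - μ * f x - μ * f (x + 1) + μ ^ 2 := fun x => by ring
    simp only [this, sum_add_distrib, sum_sub_distrib, ← mul_sum, hμ, s1, c]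
    ring
  rw [e1, e2] at h
  have e3 : (1 + 2 * θ) / p * (p * μ) ^ 2 = (1 + 2 * θ) * (p * μ ^ 2) := by field_simp
  rw [hμ, e3]
  linarith

end Pool.Agent.P.MP_263185_co.AL

end

section

/-! Step TEN. -/

namespace Pool.Agent.P.MP_263185_co.AL

open Finset
open scoped Classical

open scoped MatrixOrder in
theorem gram_ten (Z : Type) [Fintype Z] (k : Z → Z → ℝ) (α : ℝ)
    (hs : ∀ x y, k x y = k y x)
    (h : ∀ f : Z → ℝ, α * (∑ x, f x) ^ 2 ≤ ∑ x, ∑ y, f x * f y * k x y) :
    ∃ B : Z → Z → ℝ, ∀ x y, k x y = α + ∑ l, B l x * B l y := by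
  have hR : (Matrix.of fun x y => k x y - α : Matrix Z Z ℝ).PosSemidef := by
    refine .of_dotProduct_mulVec_nonneg ?_ fun f => ?_
    · ext x y
      simp [hs x y]
    · have e : star f ⬝ᵥ (Matrix.of fun x y => k x y - α : Matrix Z Z ℝ).mulVec f =
          ∑ x, ∑ y, f x * f y * k x y - α * (∑ x, f x) ^ 2 := by
        rw [sq, Finset.sum_mul_sum, Finset.mul_sum, ← Finset.sum_sub_distrib]
        simp only [dotProduct, Matrix.mulVec, Matrix.of_apply, star_trivial, Finset.mul_sum,
          ← Finset.sum_sub_distrib]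
        exact Finset.sum_congr rfl fun x _ => Finset.sum_congr rfl fun y _ => by ring
      rw [e]
      exact sub_nonneg.2 (h f)
  obtain ⟨B, hB⟩ := CStarAlgebra.nonneg_iff_eq_star_mul_self.mp hR.nonneg
  refine ⟨fun l x => B l x, fun x y => ?_⟩
  have := congrFun (congrFun hB x) y
  simp only [Matrix.of_apply, Matrix.mul_apply, Matrix.star_apply, star_trivial] at this
  linarith

theorem p_TEN :
    S_TEN := by
  intro Z _ k α hα hs h m X S g
  obtain ⟨B, hB⟩ := gram_ten Z k α hs h
  obtain ⟨v, hv, hv0⟩ : ∃ v : Option Z → Z → ℝ, (∀ x y, k x y = ∑ o, v o x * v o y) ∧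
      ∀ x, v none x = √α :=
    ⟨fun o x => o.elim √α fun l => B l x, fun x y => by
      rw [Fintype.sum_option, hB]
      simp [Real.mul_self_sqrt hα], fun _ => rfl⟩
  have e : ∑ x ∈ S, ∑ y ∈ S, ∏ l, k (g x l) (g y l) =
      ∑ L : Fin m → Option Z, (∑ x ∈ S, ∏ l, v (L l) (g x l)) ^ 2 := by
    simp only [hv, sq, Finset.sum_mul_sum, Finset.prod_univ_sum, Fintype.piFinset_univ,
      Finset.prod_mul_distrib]
    rw [Finset.sum_comm (s := univ)]
    exact Finset.sum_congr rfl fun x _ => Finset.sum_comm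
  rw [e]
  refine le_trans (le_of_eq ?_) (Finset.single_le_sum
    (f := fun L : Fin m → Option Z => (∑ x ∈ S, ∏ l, v (L l) (g x l)) ^ 2)
    (fun _ _ => sq_nonneg _) (Finset.mem_univ fun _ => none))
  simp only [hv0, Finset.prod_const, Finset.card_univ, Fintype.card_fin, Finset.sum_const,
    nsmul_eq_mul]
  rw [mul_pow, ← pow_mul, mul_comm m 2, pow_mul, Real.sq_sqrt hα, mul_comm]

end Pool.Agent.P.MP_263185_co.AL

end

section

/-! Step KER. -/

namespace Pool.Agent.P.MP_263185_co.AL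

open Finset
open scoped Classical

/-- the kernel -/
noncomputable def kk_ker {p : ℕ} (θ : ℝ) (x y : ZMod p) : ℝ :=
  if y = x then 1 else if cf x y then θ else 0

theorem symm_ker {p : ℕ} (θ : ℝ) (x y : ZMod p) : kk_ker θ x y = kk_ker θ y x := by
  have h : cf x y ↔ cf y x := ⟨cf.symm, cf.symm⟩
  simp only [kk_ker, h, eq_comm (a := y)]

theorem split_ker {p : ℕ} (hp : 5 ≤ p) (θ : ℝ) (x y : ZMod p) : kk_ker θ x y =
    (if y = x then 1 else 0) + (if y = x + 1 then θ else 0) + if x = y + 1 then θ else 0 := by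
  have n1 := ne1 hp
  have n2 := ne2 hp
  unfold kk_ker cf
  by_cases h1 : y = x
  · subst h1
    simp [n1]
  · by_cases h2 : y = x + 1
    · have h3 : x ≠ y + 1 := fun h => n2 (by linear_combination -h - h2)
      rw [if_neg h1, if_pos (.inr (.inl h2)), if_neg h1, if_pos h2, if_neg h3]
      ring
    · simp [h1, h2]

theorem form_ker {p : ℕ} [NeZero p] (hp : 5 ≤ p) (θ : ℝ) (f : ZMod p → ℝ) :
    ∑ x, ∑ y, f x * f y * kk_ker θ x y = ∑ x, f x ^ 2 + 2 * θ * ∑ x, f x * f (x + 1) := by
  simp only [split_ker hp, mul_add, sum_add_distrib, mul_ite, mul_zero]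
  rw [sum_comm (f := fun x y => if x = y + 1 then f x * f y * θ else 0)]
  simp only [sum_ite_eq', mem_univ, if_true, mul_sum, ← sum_add_distrib]
  exact sum_congr rfl fun x _ => by ring

theorem p_KER (hPSD : S_PSD) (hTEN : S_TEN) :
    S_KER := by
  intro p m _ P hodd θ h1 h2 S
  have h0 : 0 ≤ θ := by linarith
  refine (hTEN (ZMod p) (kk_ker θ) _ (by positivity) (symm_ker θ)
    (fun f => (hPSD p hodd θ h1 h2 f).trans (form_ker P.hp θ f).ge) m P.X S P.c).trans
    (sum_le_sum fun x _ => ?_)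
  have e : ∀ y, ∏ l, kk_ker θ (P.c x l) (P.c y l) =
      if ∀ l, cf (P.c x l) (P.c y l) then θ ^ P.dc x y else 0 := fun y => by
    split_ifs with h
    · simp only [kk_ker, h, if_true]
      rw [prod_ite, prod_const_one, one_mul, prod_const, Pre.dc]
    · obtain ⟨l, hl⟩ := not_forall.1 h
      refine prod_eq_zero (mem_univ l) ?_
      rw [kk_ker, if_neg fun e => hl (.inl e), if_neg hl]
  rw [Pre.nb, sum_filter]
  simp only [e]
  exact sum_le_sum_of_subset_of_nonneg (subset_univ S) fun y _ _ => by positivity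

end Pool.Agent.P.MP_263185_co.AL

end

section

/-! Step EDGE. -/

namespace Pool.Agent.P.MP_263185_co.AL

open Finset
open scoped Classical

theorem swap_edge {p : ℕ} (hp : 5 ≤ p) (x y : ZMod p) : lf y x = -lf x y := by
  unfold lf
  by_cases h1 : y = x + 1
  · have h2 : ¬ x = y + 1 := fun h2 => ne2 hp (by linear_combination -h1 - h2)
    rw [if_neg h2, if_pos h1, if_pos h1]
  · by_cases h2 : x = y + 1
    · rw [if_pos h2, if_neg h1, if_pos h2, neg_neg]
    · rw [if_neg h2, if_neg h1, if_neg h1, if_neg h2, neg_zero]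

theorem neg_edge {p : ℕ} (x y : ZMod p) : lf (-x) (-y) = lf y x := by
  unfold lf
  have e1 : (-y = -x + 1) ↔ (x = y + 1) :=
    ⟨fun h => by linear_combination h, fun h => by linear_combination h⟩
  have e2 : (-x = -y + 1) ↔ (y = x + 1) :=
    ⟨fun h => by linear_combination h, fun h => by linear_combination h⟩
  simp only [e1, e2]

theorem p_EDGE :
    S_EDGE := by
  intro p hp
  have n1 := ne1 hp
  have n2 := ne2 hp
  have n3 := ne3 hp
  refine ⟨fun S hS => ?_, fun a a' x y hxy h1 h2 h3 h4 => ?_, fun a x y z hxy h1 h2 h3 h4 => ?_,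
    fun a x y h1 h2 => ?_, fun x y => ⟨by rw [neg_edge, swap_edge hp], swap_edge hp x y⟩,
    fun x => ⟨?_, ?_⟩⟩
  · rcases S.eq_empty_or_nonempty with rfl | ⟨x, hx⟩
    · exact ⟨0, fun x hx => hx.elim⟩
    · by_cases h : x - 1 ∈ S
      · refine ⟨x - 1, fun y hy => ?_⟩
        rcases hS x hx y hy with h1 | h1 | h1
        · exact .inr (by linear_combination h1)
        · rcases hS _ h y hy with h2 | h2 | h2
          · exact absurd (by linear_combination h2 - h1) n2
          · exact absurd (by linear_combination h2 - h1) n1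
          · exact absurd (by linear_combination -h2 - h1) n3
        · exact .inl (by linear_combination -h1)
      · refine ⟨x, fun y hy => ?_⟩
        rcases hS x hx y hy with h1 | h1 | h1
        · exact .inl h1
        · exact .inr h1
        · exact absurd (by rw [show x - 1 = y by linear_combination h1]; exact hy) h
  · rcases h1 with h1 | h1 <;> rcases h2 with h2 | h2 <;> rcases h3 with h3 | h3 <;>
      rcases h4 with h4 | h4 <;>
      first
        | exact absurd (h1.trans h2.symm) hxy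
        | exact absurd (h3.trans h4.symm) hxy
        | linear_combination h3 - h1
        | exact absurd (by linear_combination h1 - h2 - h3 + h4) n2
        | exact absurd (by linear_combination -h1 + h2 + h3 - h4) n2
  · rcases h1 with h1 | h1 <;> rcases h2 with h2 | h2
    · exact absurd (h1.trans h2.symm) hxy
    · rcases h3 with h3 | h3 | h3
      · exact .inl (h3.trans h1)
      · exact .inr (by linear_combination h3 + h1)
      · rcases h4 with h4 | h4 | h4
        · exact .inr (h4.trans h2)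
        · exact absurd (by linear_combination h1 - h2 - h3 - h4) n3
        · exact .inl (by linear_combination h2 - h4)
    · rcases h4 with h4 | h4 | h4
      · exact .inl (h4.trans h2)
      · exact .inr (by linear_combination h4 + h2)
      · rcases h3 with h3 | h3 | h3
        · exact .inr (h3.trans h1)
        · exact absurd (by linear_combination h2 - h1 - h3 - h4) n3
        · exact .inl (by linear_combination h1 - h3)
    · exact absurd (h1.trans h2.symm) hxy
  · have a1 : ¬ a = a + 1 := fun h => n1 (by linear_combination -h)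
    have a2 : ¬ a + 1 = a := fun h => n1 (by linear_combination h)
    have a3 : ¬ a = a + 1 + 1 := fun h => n2 (by linear_combination -h)
    have a4 : ¬ a + 1 = a + 1 + 1 := fun h => n1 (by linear_combination -h)
    unfold lf
    rcases h1 with rfl | rfl <;> rcases h2 with h2 | h2 <;> rw [h2]
    · rw [if_neg a1, if_neg a1, if_pos rfl]; norm_num
    · rw [if_pos rfl, if_pos rfl, if_neg a2]; norm_num
    · rw [if_neg a3, if_pos rfl, if_neg a2, if_pos rfl]; norm_num
    · rw [if_neg a4, if_neg a4, if_neg a2]; norm_num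
  · rintro (h | h | h)
    · exact n2 (by linear_combination h)
    · exact n1 (by linear_combination h)
    · exact n3 (by linear_combination -h)
  · rintro (h | h | h)
    · exact n2 (by linear_combination -h)
    · exact n3 (by linear_combination -h)
    · exact n1 (by linear_combination h)

end Pool.Agent.P.MP_263185_co.AL

end

section

/-! Step NA. -/

namespace Pool.Agent.P.MP_263185_co.AL

open Finset
open scoped Classical

theorem prod_na {X κ : Type} {m : ℕ} (s : X → Fin m → κ) (hs : Function.Injective s)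
    (B : Finset X) (T : Fin m → Finset κ) (w : Fin m → κ → ℝ) (hw : ∀ i z, 0 ≤ w i z)
    (h : ∀ y ∈ B, ∀ i, s y i ∈ T i) :
    ∑ y ∈ B, ∏ i, w i (s y i) ≤ ∏ i, ∑ z ∈ T i, w i z := by
  rw [prod_univ_sum, ← sum_image (f := fun t : Fin m → κ => ∏ i, w i (t i)) hs.injOn]
  refine sum_le_sum_of_subset_of_nonneg (fun t ht => ?_) fun t _ _ => prod_nonneg fun i _ => hw i _
  obtain ⟨y, hy, rfl⟩ := mem_image.1 ht
  exact Fintype.mem_piFinset.2 (h y hy)

theorem p_NA (hEDGE : S_EDGE) :
    S_NA := by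
  intro p m _ P x
  have ex : ∀ i, ∃ a, i ∈ P.sp x → ∀ y ∈ P.nb x, ed a (P.s y i) := fun i => by
    by_cases hi : i ∈ P.sp x
    · obtain ⟨z, hz, hn⟩ := (mem_filter.1 hi).2
      have c1 : cf (P.s x i) (P.s z i) := P.lip x z (fun l => by rw [hz]; exact cf_refl _) i
      obtain ⟨a, ha⟩ := (hEDGE p P.hp).1 {P.s x i, P.s z i} (by
        rintro u (rfl | rfl) v (rfl | rfl)
        exacts [cf_refl _, c1, c1.symm, cf_refl _])
      refine ⟨a, fun _ y hy => (hEDGE p P.hp).2.2.1 a _ _ _ hn.symm (ha _ (Or.inl rfl))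
        (ha _ (Or.inr rfl)) (P.lip x y (mem_filter.1 hy).2 i) (P.lip z y (fun l => ?_) i)⟩
      rw [hz]
      exact (mem_filter.1 hy).2 l
    · exact ⟨0, fun h => (hi h).elim⟩
  choose a ha using ex
  have key : ∀ θ : ℝ, 0 ≤ θ →
      ∑ y ∈ P.nb x, θ ^ P.ds x y ≤ 2 ^ #(P.sp x) * (1 + 2 * θ) ^ (m - #(P.sp x)) := by
    intro θ hθ
    have h := prod_na P.s P.sinj (P.nb x)
      (fun i => if i ∈ P.sp x then {a i, a i + 1} else {P.s x i, P.s x i + 1, P.s x i - 1})
      (fun i z => if i ∉ P.sp x ∧ z ≠ P.s x i then θ else 1)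
      (fun i z => by split_ifs; exacts [hθ, zero_le_one]) fun y hy i => by
        split_ifs with hi
        · simpa [ed] using ha i hi y hy
        · rcases P.lip x y (mem_filter.1 hy).2 i with h | h | h <;> simp [h]
    refine le_trans (le_of_eq (sum_congr rfl fun y _ => ?_)) (h.trans ?_)
    · rw [prod_ite, prod_const, prod_const_one, mul_one, Pre.ds]
    · refine (prod_le_prod (g := fun i => if i ∈ P.sp x then 2 else 1 + 2 * θ)
        (fun i _ => sum_nonneg fun z _ => by split_ifs; exacts [hθ, zero_le_one])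
        fun i _ => ?_).trans (le_of_eq ?_)
      · by_cases hi : i ∈ P.sp x
        · simp only [hi, not_true, false_and, if_true, if_false, sum_const, nsmul_eq_mul, mul_one]
          exact_mod_cast card_le_two
        · have n1 : P.s x i + 1 ≠ P.s x i := by simpa using ne1 P.hp
          have n2 : P.s x i - 1 ≠ P.s x i := by simpa using ne1 P.hp
          have n3 : P.s x i + 1 ≠ P.s x i - 1 := fun e => ne2 P.hp (by linear_combination e)
          simp only [hi, not_false_eq_true, true_and, if_false]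
          rw [sum_insert (by simp [n1.symm, n2.symm]), sum_pair n3, if_neg (by simp), if_pos n1,
            if_pos n2]
          linarith
      · rw [prod_ite, prod_const, prod_const, filter_mem_eq_inter, univ_inter, filter_not,
          filter_mem_eq_inter, univ_inter, card_univ_sdiff, Fintype.card_fin]
  refine fun θ hθ => ⟨key θ hθ, ?_⟩
  have h := key 0 le_rfl
  rw [mul_zero, add_zero, one_pow, mul_one] at h
  have h2 : (#(univ.filter fun y => P.c y = P.c x) : ℝ) ≤ ∑ y ∈ P.nb x, (0 : ℝ) ^ P.ds x y := by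
    rw [card_eq_sum_ones, Nat.cast_sum]
    refine le_trans (le_of_eq (sum_congr rfl fun y hy => ?_))
      (sum_le_sum_of_subset_of_nonneg (fun y hy => mem_filter.2 ⟨mem_univ _, fun l => ?_⟩)
        fun y _ _ => by positivity)
    · have : P.ds x y = 0 := card_eq_zero.2 (filter_eq_empty_iff.2 fun i _ hi =>
        hi.1 (mem_filter.2 ⟨mem_univ _, y, (mem_filter.1 hy).2, hi.2⟩))
      rw [this, pow_zero, Nat.cast_one]
    · rw [(mem_filter.1 hy).2]
      exact cf_refl _
  exact_mod_cast h2.trans h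

end Pool.Agent.P.MP_263185_co.AL

end

section

/-! Step NB1. -/

namespace Pool.Agent.P.MP_263185_co.AL

open Finset
open scoped Classical

theorem p_NB1 (hEDGE : S_EDGE) :
    S_NB1 := by
  intro p m _ P x φ b hφ hx
  have hal : ∀ i, ∃ a, ∀ y, (∀ l, ed (b l) (P.c y l)) → ed a (P.s y i) := fun i => by
    obtain ⟨a, ha⟩ := (hEDGE p P.hp).1 {z | ∃ y, (∀ l, ed (b l) (P.c y l)) ∧ z = P.s y i} (by
      rintro _ ⟨y, hy, rfl⟩ _ ⟨y', hy', rfl⟩
      exact P.lip y y' (fun l => (hy l).cf (hy' l)) i)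
    exact ⟨a, fun y hy => ha _ ⟨y, hy, rfl⟩⟩
  choose al hal using hal
  let wt : Fin m → ZMod p → ℝ := fun i z => if i ∈ P.sp x ∨ z = P.s x i then 1 else φ
  have w0 : ∀ i z, 0 ≤ wt i z := fun i z => by
    simp only [wt]; split_ifs
    exacts [zero_le_one, hφ]
  have e1 : ∀ y, φ ^ P.ds x y = ∏ i, wt i (P.s y i) := fun y => by
    simp only [wt, prod_ite, prod_const_one, one_mul, prod_const, Pre.ds, not_or, ne_eq]
  have ne : ∀ i, al i ≠ al i + 1 := fun i h => ne1 P.hp (by simpa using h)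
  calc ∑ y ∈ univ.filter (fun y => ∀ l, ed (b l) (P.c y l)), φ ^ P.ds x y
      = ∑ t ∈ (univ.filter (fun y => ∀ l, ed (b l) (P.c y l))).image P.s, ∏ i, wt i (t i) := by
        rw [sum_image fun _ _ _ _ h => P.sinj h]
        exact sum_congr rfl fun y _ => e1 y
    _ ≤ ∑ t ∈ Fintype.piFinset (fun i => ({al i, al i + 1} : Finset (ZMod p))),
          ∏ i, wt i (t i) := by
        refine sum_le_sum_of_subset_of_nonneg (fun t ht => ?_)
          fun t _ _ => prod_nonneg fun i _ => w0 i _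
        obtain ⟨y, hy, rfl⟩ := mem_image.1 ht
        refine Fintype.mem_piFinset.2 fun i => ?_
        simpa [ed] using hal i y (mem_filter.1 hy).2
    _ = ∏ i, ∑ z ∈ ({al i, al i + 1} : Finset (ZMod p)), wt i z := (prod_univ_sum _ _).symm
    _ ≤ ∏ i, (if i ∈ P.sp x then 2 else 1 + φ) := by
        refine prod_le_prod (fun i _ => sum_nonneg fun z _ => w0 i z) fun i _ => ?_
        rw [sum_pair (ne i)]
        by_cases h : i ∈ P.sp x
        · simp only [wt, h, true_or, if_true]; norm_num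
        · simp only [wt, h, false_or, if_false]
          rcases hal i x hx with e | e
          · rw [e, if_pos rfl, if_neg (ne i).symm]
          · rw [e, if_pos rfl, if_neg (ne i), add_comm]
    _ = _ := by
        rw [prod_ite, prod_const, prod_const, filter_mem_eq_inter, univ_inter, filter_not,
          filter_mem_eq_inter, univ_inter, card_univ_sdiff, Fintype.card_fin]

end Pool.Agent.P.MP_263185_co.AL

end

section

/-! Step NB. -/

namespace Pool.Agent.P.MP_263185_co.AL

open Finset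
open scoped Classical

theorem one_nb {p : ℕ} (u v : ZMod p) (h : cf u v) :
    (if v ≠ u then (1 / 2 : ℝ) else 1) * 2 ≤
      #(univ.filter fun t : Bool => ed (u - if t then 1 else 0) v) := by
  by_cases e : v = u
  · have : (univ.filter fun t : Bool => ed (u - if t then 1 else 0) v) = univ := by
      refine filter_true_of_mem fun t _ => ?_
      cases t <;> simp [ed, e]
    rw [this]
    simp [e]
  · have : 1 ≤ #(univ.filter fun t : Bool => ed (u - if t then 1 else 0) v) := by
      refine card_pos.2 ?_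
      rcases h with h | h | h
      · exact absurd h e
      · exact ⟨false, by simp [ed, h]⟩
      · exact ⟨true, by simp [ed, h]⟩
    rw [if_pos e, show (1 / 2 : ℝ) * 2 = 1 by norm_num]
    exact_mod_cast this

theorem count_nb {p m : ℕ} (u v : Fin m → ZMod p) (h : ∀ l, cf (u l) (v l)) :
    (1 / 2 : ℝ) ^ #(univ.filter fun l => v l ≠ u l) * 2 ^ m ≤
      #(univ.filter fun β : Fin m → Bool => ∀ l, ed (u l - if β l then 1 else 0) (v l)) := by
  have e : (univ.filter fun β : Fin m → Bool => ∀ l, ed (u l - if β l then 1 else 0) (v l)) =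
      Fintype.piFinset fun l => univ.filter fun t : Bool => ed (u l - if t then 1 else 0) (v l) := by
    ext β
    simp [Fintype.mem_piFinset]
  rw [e, Fintype.card_piFinset, Nat.cast_prod]
  refine le_trans (le_of_eq ?_) (prod_le_prod (fun l _ => ?_) fun l _ => one_nb _ _ (h l))
  · rw [prod_mul_distrib, prod_ite, prod_const, prod_const, prod_const]
    simp
  · split_ifs <;> norm_num

theorem p_NB (hNB1 : S_NB1) :
    S_NB := by
  intro p m _ P x φ hφ
  have h1 : ∑ β : Fin m → Bool, ∑ y ∈ univ.filter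
      (fun y => ∀ l, ed (P.c x l - if β l then 1 else 0) (P.c y l)), φ ^ P.ds x y ≤
      ∑ _β : Fin m → Bool, 2 ^ #(P.sp x) * (1 + φ) ^ (m - #(P.sp x)) :=
    sum_le_sum fun β _ => hNB1 p m P x φ _ hφ fun l => by unfold ed; split_ifs <;> simp
  rw [sum_const, card_univ, Fintype.card_fun, Fintype.card_bool, Fintype.card_fin, nsmul_eq_mul,
    Nat.cast_pow, Nat.cast_ofNat] at h1
  refine le_of_mul_le_mul_left (le_trans ?_ h1) (by positivity : (0 : ℝ) < 2 ^ m)
  simp only [sum_filter]
  rw [sum_comm, mul_sum, Pre.nb, sum_filter]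
  refine sum_le_sum fun y _ => ?_
  rw [← sum_filter, sum_const, nsmul_eq_mul]
  split_ifs with h
  · rw [← mul_assoc, mul_comm (2 ^ m : ℝ)]
    exact mul_le_mul_of_nonneg_right (count_nb _ _ h) (by positivity)
  · positivity

end Pool.Agent.P.MP_263185_co.AL

end

section

/-! Step ST1. -/

namespace Pool.Agent.P.MP_263185_co.AL

open Finset
open scoped Classical

theorem mean_st1 {θ : ℝ} (h1 : 1 / 2 ≤ θ) (h2 : θ ≤ 1) : ∃ t : ℝ, 0 ≤ t ∧ t ≤ 1 ∧ ∀ d e : ℕ,
    θ ^ d ≤ t * ((1 / 2) ^ d * (2 * θ) ^ e) + (1 - t) * θ ^ e := by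
  have h0 : 0 < θ := by linarith
  have l2 : 0 < Real.log 2 := Real.log_pos (by norm_num)
  have a1 : Real.log θ ≤ 0 := Real.log_nonpos h0.le h2
  have a2 : -Real.log 2 ≤ Real.log θ := by
    rw [← Real.log_inv]; exact Real.log_le_log (by norm_num) (by linarith)
  have t0 : 0 ≤ -Real.log θ / Real.log 2 := div_nonneg (by linarith) l2.le
  have t1 : -Real.log θ / Real.log 2 ≤ 1 := (div_le_one l2).2 (by linarith)
  refine ⟨_, t0, t1, fun d e => ?_⟩
  have c := convexOn_exp.2 (Set.mem_univ (Real.log ((1 / 2) ^ d * (2 * θ) ^ e)))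
    (Set.mem_univ (Real.log (θ ^ e))) t0 (sub_nonneg.2 t1) (add_sub_cancel _ _)
  simp only [smul_eq_mul] at c
  rw [Real.exp_log (by positivity), Real.exp_log (by positivity)] at c
  refine le_trans (le_of_eq ?_) c
  rw [← Real.exp_log (pow_pos h0 d)]
  congr 1
  rw [Real.log_mul (by positivity) (by positivity), Real.log_pow, Real.log_pow, Real.log_pow,
    Real.log_pow, Real.log_mul (by norm_num) h0.ne', one_div, Real.log_inv]
  field_simp
  ring

theorem p_ST1 (hKER : S_KER) (hNA : S_NA) (hNB : S_NB) :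
    S_ST1 := by
  intro p _ hp
  have p1 : (1 : ℝ) ≤ p := by exact_mod_cast NeZero.one_le
  obtain ⟨θ, h1, h2, h3⟩ : ∃ θ : ℝ, 1 / 2 < θ ∧ θ ≤ 1 ∧ θ ≤ 1 / 2 + 1 / p ^ 2 := by
    have a : (0 : ℝ) < 1 / p ^ 2 := by positivity
    have b : (1 : ℝ) / p ^ 2 ≤ 1 := (div_le_one (by positivity)).2 (one_le_pow₀ p1)
    exact ⟨1 / 2 + 1 / p ^ 2 / 2, by linarith, by linarith, by linarith⟩
  obtain ⟨t, t0, t1, ht⟩ := mean_st1 h1.le h2
  have q0 : 0 < 1 + 2 * θ := by linarith
  have r1 : 2 / (1 + 2 * θ) < 1 := (div_lt_one q0).2 (by linarith)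
  refine ⟨2 / (1 + 2 * θ), by positivity, r1, fun m P κ => ?_⟩
  set S := univ.filter fun x => κ ≤ #(P.sp x) with hS
  have a : ∀ x ∈ S, ∑ y ∈ P.nb x, θ ^ P.dc x y ≤ (1 + 2 * θ) ^ m * (2 / (1 + 2 * θ)) ^ κ := by
    intro x hx
    have k1 : #(P.sp x) ≤ m := by simpa using card_le_univ (P.sp x)
    have b1 := hNB p m P x (2 * θ) (by linarith)
    have b2 := (hNA p m P x θ (by linarith)).1
    calc ∑ y ∈ P.nb x, θ ^ P.dc x y
        ≤ ∑ y ∈ P.nb x, (t * ((1 / 2) ^ P.dc x y * (2 * θ) ^ P.ds x y) + (1 - t) * θ ^ P.ds x y) :=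
          sum_le_sum fun y _ => ht _ _
      _ ≤ t * (2 ^ #(P.sp x) * (1 + 2 * θ) ^ (m - #(P.sp x))) +
          (1 - t) * (2 ^ #(P.sp x) * (1 + 2 * θ) ^ (m - #(P.sp x))) := by
          rw [sum_add_distrib, ← mul_sum, ← mul_sum]
          exact add_le_add (mul_le_mul_of_nonneg_left b1 t0)
            (mul_le_mul_of_nonneg_left b2 (sub_nonneg.2 t1))
      _ = (1 + 2 * θ) ^ m * (2 / (1 + 2 * θ)) ^ #(P.sp x) := by
          rw [pow_sub₀ _ q0.ne' k1, div_pow]; ring
      _ ≤ _ := mul_le_mul_of_nonneg_left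
          (pow_le_pow_of_le_one (by positivity) r1.le (mem_filter.1 hx).2) (by positivity)
  have b := (hKER p m P hp θ h1.le h3 S).trans (sum_le_sum a)
  rw [sum_const, nsmul_eq_mul] at b
  rcases (Nat.cast_nonneg (α := ℝ) #S).eq_or_lt with c | c
  · rw [← c]; positivity
  · refine le_of_mul_le_mul_left ?_ (show 0 < ((1 + 2 * θ) / p) ^ m * #S by positivity)
    calc _ = ((1 + 2 * θ) / p) ^ m * (#S : ℝ) ^ 2 := by ring
      _ ≤ _ := b
      _ = _ := by rw [div_pow (1 + 2 * θ)]; field_simp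

end Pool.Agent.P.MP_263185_co.AL

end

section

/-! Step ST2. -/

namespace Pool.Agent.P.MP_263185_co.AL

open Finset
open scoped Classical

theorem p_ST2 (hNA : S_NA) (hEDGE : S_EDGE) :
    S_ST2 := by
  intro p m _ P κ
  have h0 := card_filter_add_card_filter_not (s := (univ : Finset P.X)) fun x => κ ≤ #(P.sp x)
  rw [card_univ] at h0
  set S := univ.filter fun x => ¬κ ≤ #(P.sp x) with hS
  rcases S.eq_empty_or_nonempty with e | ⟨x₀, h₀⟩
  · rw [e, card_empty] at h0
    exact .inl h0.ge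
  obtain ⟨T, -, hT, hi⟩ := exists_subset_injOn_image_eq_of_surjOn (f := P.c) (S : Set P.X)
    (S.image P.c) (by rw [coe_image]; exact Set.surjOn_image _ _)
  have h1 : #S ≤ 2 ^ κ * #(S.image P.c) := card_le_mul_card_image S _ fun b hb => by
    obtain ⟨x, hx, rfl⟩ := mem_image.1 hb
    exact (card_le_card (filter_subset_filter _ (subset_univ S))).trans
      ((hNA p m P x 0 le_rfl).2.trans
        (pow_le_pow_right₀ one_le_two (not_le.1 (mem_filter.1 hx).2).le))
  obtain ⟨y₀, hy₀, -⟩ := mem_image.1 (hi.ge (mem_image_of_mem _ h₀))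
  choose a ha using fun (b : Fin m → ZMod p) (i : Fin m) => (hEDGE p P.hp).1
    {z | ∃ y, (∀ l, ed (b l) (P.c y l)) ∧ z = P.s y i} (by
      rintro _ ⟨x, hx, rfl⟩ _ ⟨y, hy, rfl⟩
      exact P.lip x y (fun l => (hx l).cf (hy l)) i)
  refine .inr ⟨{ X := T
                 hp := P.hp
                 c := fun x => P.c x
                 s := fun x => P.s x
                 sinj := P.sinj.comp Subtype.val_injective
                 lip := fun x y => P.lip x y
                 nw := fun j r => P.nw j fun t => r t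
                 cinj := fun x y e => Subtype.ext (hT x.2 y.2 e)
                 ne := ⟨⟨y₀, hy₀⟩⟩
                 a := a
                 ha := fun b y hy i => ha b i _ ⟨y, hy, rfl⟩ }, ?_⟩
  rw [← hi, card_image_of_injOn hT, ← Fintype.card_coe T] at h1
  exact h0.ge.trans (Nat.add_le_add_left h1 _)

end Pool.Agent.P.MP_263185_co.AL

end

section

/-! Step GREEDY. -/

namespace Pool.Agent.P.MP_263185_co.AL

open Finset
open scoped Classical

theorem p_GREEDY :
    S_GREEDY := by
  intro m K e B hK _ hB h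
  by_contra c
  push Not at c
  have k0 : (0 : ℝ) < K := by exact_mod_cast hK
  have b0 : 0 ≤ B / K := div_nonneg hB k0.le
  have st : ∀ J : Finset (Fin m), #J < K →
      ∃ J' : Finset (Fin m), #J' = #J + 1 ∧ B / K < e J - e J' := fun J hJ => by
    obtain ⟨j, hj⟩ := c J hJ
    refine ⟨insert j J, card_insert_of_notMem fun d => ?_, hj⟩
    rw [insert_eq_of_mem d, sub_self] at hj
    linarith
  have main : ∀ k, k < K → ∃ J : Finset (Fin m), #J = k + 1 ∧
      (k + 1 : ℝ) * (B / K) < e ∅ - e J := by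
    intro k
    induction k with
    | zero =>
      intro hk
      obtain ⟨J, h1, h2⟩ := st ∅ (by simpa using hk)
      exact ⟨J, by simpa using h1, by simpa using h2⟩
    | succ k ih =>
      intro hk
      obtain ⟨J, h1, h2⟩ := ih (by omega)
      obtain ⟨J', h3, h4⟩ := st J (by omega)
      refine ⟨J', by omega, ?_⟩
      push_cast
      linarith
  obtain ⟨k, rfl⟩ : ∃ k, K = k + 1 := ⟨K - 1, by omega⟩
  obtain ⟨J, h1, h2⟩ := main k (by omega)
  have h3 := h J h1
  push_cast at h2 k0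
  rw [mul_div_cancel₀ _ k0.ne'] at h2
  linarith

end Pool.Agent.P.MP_263185_co.AL

end

section

/-! Step SW. -/

namespace Pool.Agent.P.MP_263185_co.AL

open Finset
open scoped Classical

theorem p_SW :
    S_SW := by
  intro p m _ D F
  have inj : ∀ x, Function.Injective (D.bx x) := fun x β β' h => funext fun l => by
    have e := sub_right_injective (congrFun h l)
    have := ne1 D.hp
    cases h1 : β l <;> cases h2 : β' l <;> simp_all
  have sur : ∀ x b, D.In x b → ∃ β, D.bx x β = b := fun x b h =>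
    ⟨fun l => decide (D.c x l ≠ b l), funext fun l => by
      rcases h l with e | e <;> simp [Dat.bx, e, ne1 D.hp]⟩
  refine ⟨?_, fun x => ⟨inj x, sur x⟩⟩
  simp only [sum_filter]
  rw [sum_comm (γ := Fin m → ZMod p)]
  refine sum_congr rfl fun x _ => ?_
  rw [← sum_filter]
  exact sum_bij (fun β _ => D.bx x β) (fun β _ => mem_filter.2 ⟨mem_univ _, D.In_bx x β⟩)
    (fun _ _ _ _ h => inj x h)
    (fun b hb => (sur x b (mem_filter.1 hb).2).imp fun β h => ⟨mem_univ _, h⟩) fun _ _ => rfl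

end Pool.Agent.P.MP_263185_co.AL

end

section

/-! Step AVG. -/

namespace Pool.Agent.P.MP_263185_co.AL

open Finset
open scoped Classical

theorem p_AVG (hSW : S_SW) :
    S_AVG := by
  intro p m _ D J f g hg
  rw [Dat.E_eq, Dat.E_eq,
    (hSW p m D fun x b => g x b * ((∑ y ∈ D.A J x b, f y b) / #(D.A J x b))).1,
    (hSW p m D fun x b => g x b * f x b).1]
  congr 1
  refine sum_congr rfl fun b _ => ?_
  have h1 : ∀ x ∈ univ.filter (fun y => D.In y b),
      g x b * ((∑ y ∈ D.A J x b, f y b) / #(D.A J x b)) =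
        ∑ y ∈ D.A J x b, g y b * f y b / #(D.A J y b) := fun x hx => by
    rw [sum_div, mul_sum]
    refine sum_congr rfl fun y hy => ?_
    rw [hg x b y hy (mem_filter.1 hx).2, Dat.A_eq hy, mul_div_assoc]
  rw [sum_congr rfl h1, sum_comm' (t' := univ.filter fun y => D.In y b) (s' := fun y => D.A J y b)]
  · refine sum_congr rfl fun y hy => ?_
    have : (#(D.A J y b) : ℝ) ≠ 0 :=
      Nat.cast_ne_zero.2 (card_pos.2 ⟨y, Dat.self_mem_A J (mem_filter.1 hy).2⟩).ne'
    rw [sum_const, nsmul_eq_mul]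
    field_simp
  · intro x y
    simp only [mem_filter, mem_univ, true_and, Dat.mem_A]
    exact ⟨fun h => ⟨⟨h.1, fun l hl => (h.2.2 l hl).symm⟩, h.2.1⟩,
      fun h => ⟨h.1.1, h.2, fun l hl => (h.1.2 l hl).symm⟩⟩

end Pool.Agent.P.MP_263185_co.AL

end

section

/-! Step PSI. -/

namespace Pool.Agent.P.MP_263185_co.AL

open Finset
open scoped Classical

theorem chi_sq_psi {p m : ℕ} [NeZero p] (D : Dat p m) (i : Fin m) (x : D.X)
    (b : Fin m → ZMod p) : D.chi i x b ^ 2 = 1 := by
  unfold Dat.chi; split_ifs <;> norm_num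

theorem chi_abs_psi {p m : ℕ} [NeZero p] (D : Dat p m) (i : Fin m) (x : D.X)
    (b : Fin m → ZMod p) : |D.chi i x b| = 1 := by
  unfold Dat.chi; split_ifs <;> norm_num

theorem p_PSI (hEDGE : S_EDGE) (hAVG : S_AVG) :
    S_PSI := by
  intro p m _ D J
  have h1 : ∀ i x b, D.In x b →
      D.psi J i x b = (D.chi i x b - D.M J i x b) / 2 ∧ D.M J i x b ^ 2 ≤ 1 := by
    intro i x b hx
    have hc : (0 : ℝ) < #(D.A J x b) := by
      exact_mod_cast card_pos.2 ⟨x, Dat.self_mem_A J hx⟩
    constructor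
    · have : ∑ y ∈ D.A J x b, lf (D.s x i) (D.s y i) =
          ∑ y ∈ D.A J x b, (D.chi i x b - D.chi i y b) / 2 :=
        sum_congr rfl fun y hy => (hEDGE p D.hp).2.2.2.1 (D.a b i) _ _ (D.ha b x hx i)
          (D.ha b y (Dat.mem_A.1 hy).1 i)
      rw [Dat.psi, Dat.M, this, ← sum_div, sum_sub_distrib, sum_const, nsmul_eq_mul]
      field_simp
    · rw [sq_le_one_iff_abs_le_one, Dat.M, abs_div, abs_of_pos hc, div_le_one hc]
      refine (abs_sum_le_sum_abs _ _).trans ?_
      simp [chi_abs_psi]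
  refine ⟨h1, ?_⟩
  have h2 : ∀ i, D.E (fun x b => D.psi J i x b ^ 2) =
      (1 - D.E fun x b => D.M J i x b ^ 2) / 4 := by
    intro i
    have h3 := hAVG p m D J (D.chi i) (D.M J i) fun x b y hy _ => by
      rw [Dat.M, Dat.M, Dat.A_eq hy]
    have h4 : D.E (fun x b => D.M J i x b ^ 2) = D.E fun x b => D.M J i x b * D.chi i x b := by
      rw [← h3]
      exact Dat.E_congr fun x b _ => by rw [sq]; rfl
    have h5 : D.E (fun x b => D.psi J i x b ^ 2) = D.E fun x b =>
        (1 / 4 : ℝ) * ((1 - 2 * (D.M J i x b * D.chi i x b)) + D.M J i x b ^ 2) :=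
      Dat.E_congr fun x b hx => by
        rw [(h1 i x b hx).1]
        linear_combination (1 / 4 : ℝ) * chi_sq_psi D i x b
    rw [h5, Dat.E_mul, Dat.E_add, Dat.E_sub, Dat.E_mul, Dat.E_const, ← h4]
    ring
  rw [Dat.e, sum_congr rfl fun i _ => h2 i, ← sum_div, sum_sub_distrib]
  simp

end Pool.Agent.P.MP_263185_co.AL

end

section

/-! Step MART. -/

namespace Pool.Agent.P.MP_263185_co.AL

open Finset
open scoped Classical

theorem M_eq_mart {p m : ℕ} [NeZero p] {D : Dat p m} {J : Finset (Fin m)} {x y : D.X}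
    {b : Fin m → ZMod p} (h : y ∈ D.A J x b) (i : Fin m) : D.M J i y b = D.M J i x b := by
  rw [Dat.M, Dat.M, Dat.A_eq h]

theorem p_MART (hPSI : S_PSI) (hAVG : S_AVG) :
    S_MART := by
  intro p m _ D J j
  rw [Dat.e, Dat.e, ← sum_sub_distrib]
  refine sum_congr rfl fun i _ => ?_
  have h1 := fun x b h => ((hPSI p m D J).1 i x b h).1
  have h2 := fun x b h => ((hPSI p m D (insert j J)).1 i x b h).1
  have h3 : ∀ x b, D.In x b →
      D.del J i j x b = (D.M (insert j J) i x b - D.M J i x b) / 2 := fun x b h => by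
    rw [Dat.del, h1 x b h, h2 x b h]; ring
  have h4 : D.E (fun x b => D.del J i j x b * D.M (insert j J) i x b) =
      D.E fun x b => D.del J i j x b * D.chi i x b :=
    hAVG p m D (insert j J) (D.chi i) (D.del J i j) fun x b y hy hx => by
      have hy' := Dat.mem_A.1 hy
      have hy2 : y ∈ D.A J x b :=
        Dat.mem_A.2 ⟨hy'.1, fun l hl => hy'.2 l (mem_insert_of_mem hl)⟩
      rw [h3 y b hy'.1, h3 x b hx, M_eq_mart hy, M_eq_mart hy2]
  have h5 : D.E (fun x b => D.psi J i x b ^ 2) = D.E fun x b =>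
      (D.psi (insert j J) i x b ^ 2 + D.del J i j x b ^ 2) +
      (D.del J i j x b * D.chi i x b - D.del J i j x b * D.M (insert j J) i x b) :=
    Dat.E_congr fun x b h => by
      have e : D.psi J i x b = D.psi (insert j J) i x b + D.del J i j x b := by
        rw [Dat.del]; ring
      rw [e, h2 x b h]; ring
  rw [h5, Dat.E_add, Dat.E_add, Dat.E_sub, h4]
  ring

end Pool.Agent.P.MP_263185_co.AL

end
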