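import Pool.Agent.P.MP_263185_co.AL.Iface

section

/-! Step LU. -/

namespace Pool.Agent.P.MP_263185_co.AL

open Finset
open scoped Classical

/-- spreading a mass evenly over the fibres -/
theorem fib_lu {Ω K : Type} [Fintype Ω] [Fintype K] [DecidableEq K] (key : Ω → K) (g : K → ℝ)
    (hg : ∀ k, 0 ≤ g k) :
    ∑ ω, g (key ω) / (#(univ.filter fun ω' => key ω' = key ω) : ℝ) ≤ ∑ k, g k := by
  rw [← sum_fiberwise univ key]
  refine sum_le_sum fun k _ => ?_
  have e : ∀ ω ∈ univ.filter fun ω => key ω = k,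
      g (key ω) / (#(univ.filter fun ω' => key ω' = key ω) : ℝ) =
        g k / (#(univ.filter fun ω' => key ω' = k) : ℝ) := by
    intro ω h
    rw [(mem_filter.1 h).2]
  rw [sum_congr rfl e, sum_const, nsmul_eq_mul]
  by_cases h : (#(univ.filter fun ω' => key ω' = k) : ℝ) = 0
  · rw [h, zero_mul]
    exact hg k
  · rw [mul_div_cancel₀ _ h]

/-- the sign of a bit -/
noncomputable def sg_lu (b : Bool) : ℝ := if b then 1 else -1

theorem prod_lu {ι : Type} [Fintype ι] (v : ι → ℝ) :
    ∑ γ : ι → Bool, ∏ i, Real.exp (v i * sg_lu (γ i)) / (2 * Real.cosh (v i)) = 1 := by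
  rw [← Fintype.piFinset_univ, ← prod_univ_sum (fun _ => (univ : Finset Bool))
    (fun i b => Real.exp (v i * sg_lu b) / (2 * Real.cosh (v i)))]
  refine prod_eq_one fun i _ => ?_
  have := Real.cosh_pos (v i)
  rw [Fintype.sum_bool, ← add_div, div_eq_one_iff_eq (by positivity), Real.cosh_eq]
  simp only [sg_lu, if_true, Bool.false_eq_true, if_false, mul_one, mul_neg]
  ring

theorem log_lu (t : ℝ) : Real.log (2 * Real.cosh t) ≤ Real.log 2 + t ^ 2 / 2 := by
  have := Real.cosh_pos t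
  rw [Real.log_mul (by norm_num) this.ne']
  have h := Real.log_le_log this (Real.cosh_le_exp_half_sq t)
  rw [Real.log_exp] at h
  linarith

theorem p_LU :
    S_LU := by
  intro Ω Y ι _ _ _ π w χ u F hw hw1 hpos hχ hu hF
  rcases isEmpty_or_nonempty Ω with hE | hN
  · simp
  have hNp : (0 : ℝ) < Fintype.card Ω := Nat.cast_pos.2 Fintype.card_pos
  let key : Ω → Y × (ι → Bool) := fun ω => (π ω, fun i => decide (χ i ω = 1))
  let uy : ι → Y → ℝ := fun i y => if h : ∃ ω, π ω = y then u i h.choose else 0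
  have huy : ∀ i ω, uy i (π ω) = u i ω := by
    intro i ω
    have h : ∃ ω', π ω' = π ω := ⟨ω, rfl⟩
    simp only [uy, dif_pos h]
    exact hu i _ _ h.choose_spec
  have hsg : ∀ i ω, sg_lu (decide (χ i ω = 1)) = χ i ω := by
    intro i ω
    rcases hχ i ω with h | h
    · simp [sg_lu, h]
    · simp [sg_lu, h]
      norm_num
  let g : Y × (ι → Bool) → ℝ := fun k =>
    w k.1 * ∏ i, Real.exp (uy i k.1 * sg_lu (k.2 i)) / (2 * Real.cosh (uy i k.1))
  have hg : ∀ k, 0 ≤ g k := fun k => mul_nonneg (hw _) (prod_nonneg fun i _ =>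
    div_nonneg (Real.exp_pos _).le (mul_pos two_pos (Real.cosh_pos _)).le)
  have hg1 : ∑ k, g k ≤ 1 := by
    rw [Fintype.sum_prod_type]
    refine le_trans (le_of_eq (sum_congr rfl fun y _ => ?_)) hw1
    simp only [g]
    rw [← mul_sum, prod_lu (fun i => uy i y), mul_one]
  let fib : Ω → ℝ := fun ω => (#(univ.filter fun ω' => key ω' = key ω) : ℝ)
  have hf0 : ∀ ω, 0 < fib ω := fun ω =>
    Nat.cast_pos.2 (card_pos.2 ⟨ω, mem_filter.2 ⟨mem_univ _, rfl⟩⟩)
  have hfF : ∀ ω, fib ω ≤ F ω := by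
    intro ω
    refine le_trans (Nat.cast_le.2 (card_le_card fun ω' h => ?_)) (hF ω)
    have h' := (mem_filter.1 h).2
    refine mem_filter.2 ⟨mem_univ _, congrArg Prod.fst h', fun i => ?_⟩
    have h2 : decide (χ i ω' = 1) = decide (χ i ω = 1) := congrFun (congrArg Prod.snd h') i
    rw [← hsg i ω', ← hsg i ω, h2]
  have hgk : ∀ ω, g (key ω) =
      w (π ω) * ∏ i, Real.exp (u i ω * χ i ω) / (2 * Real.cosh (u i ω)) := by
    intro ω
    simp only [g, key, huy, hsg]
  have hpp : ∀ i ω, 0 < Real.exp (u i ω * χ i ω) / (2 * Real.cosh (u i ω)) := fun i ω =>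
    div_pos (Real.exp_pos _) (mul_pos two_pos (Real.cosh_pos _))
  have hg0 : ∀ ω, 0 < g (key ω) := fun ω => by
    rw [hgk]
    exact mul_pos (hpos ω) (prod_pos fun i _ => hpp i ω)
  have hG := gibbs (univ : Finset Ω) (fun _ => 1 / (Fintype.card Ω : ℝ))
    (fun ω => g (key ω) / fib ω) (fun _ _ => one_div_pos.2 hNp)
    (fun ω _ => div_pos (hg0 ω) (hf0 ω)) (by
      rw [sum_const, card_univ, nsmul_eq_mul, mul_one_div_cancel hNp.ne']
      exact (fib_lu key g hg).trans hg1)
  rw [← mul_sum] at hG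
  have hG' := nonpos_of_mul_nonpos_right hG (one_div_pos.2 hNp)
  have hpt : ∀ ω, ∑ i, (u i ω * χ i ω - u i ω ^ 2 / 2) ≤ (Fintype.card ι * Real.log 2 -
      Real.log (w (π ω)) - Real.log (Fintype.card Ω) + Real.log (F ω)) +
      Real.log (g (key ω) / fib ω / (1 / (Fintype.card Ω : ℝ))) := by
    intro ω
    rw [Real.log_div (div_pos (hg0 ω) (hf0 ω)).ne' (one_div_pos.2 hNp).ne',
      Real.log_div (hg0 ω).ne' (hf0 ω).ne', hgk, one_div, Real.log_inv,
      Real.log_mul (hpos ω).ne' (prod_pos fun i _ => hpp i ω).ne',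
      Real.log_prod (fun i _ => (hpp i ω).ne')]
    have h1 := Real.log_le_log (hf0 ω) (hfF ω)
    have h2 : ∑ i, (u i ω * χ i ω - u i ω ^ 2 / 2) ≤ ∑ i, (Real.log 2 +
        Real.log (Real.exp (u i ω * χ i ω) / (2 * Real.cosh (u i ω)))) := by
      refine sum_le_sum fun i _ => ?_
      rw [Real.log_div (Real.exp_pos _).ne' (mul_pos two_pos (Real.cosh_pos _)).ne',
        Real.log_exp]
      have := log_lu (u i ω)
      linarith
    rw [sum_add_distrib, sum_const, card_univ, nsmul_eq_mul] at h2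
    linarith
  refine le_trans (sum_le_sum fun ω _ => hpt ω) ?_
  rw [sum_add_distrib]
  linarith

end Pool.Agent.P.MP_263185_co.AL

end

section

/-! Step LAB. -/

namespace Pool.Agent.P.MP_263185_co.AL

open Finset
open scoped Classical

theorem sub_lab {p m : ℕ} [NeZero p] {D : Dat p m} {J : Finset (Fin m)} {x y : D.X}
    {b b' : Fin m → ZMod p} (hy : D.In y b') (h : D.lab J x b = D.lab J y b') :
    D.A J x b ⊆ D.A J y b' := fun z hz => by
  have hJ : ∀ l ∈ J, D.c z l = D.c y l := fun l hl => by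
    have := congrFun h l
    simp only [Dat.lab, if_pos hl] at this
    rw [(Dat.mem_A.1 hz).2 l hl, this]
  refine Dat.mem_A.2 ⟨fun l => ?_, hJ⟩
  by_cases hl : l ∈ J
  · rw [hJ l hl]
    exact hy l
  · have := congrFun h l
    simp only [Dat.lab, if_neg hl] at this
    rw [← this]
    exact (Dat.mem_A.1 hz).1 l

theorem spn_lab {p m : ℕ} [NeZero p] {D : Dat p m} {J : Finset (Fin m)} {x y : D.X}
    {b b' : Fin m → ZMod p} (hx : D.In x b) (h : D.A J x b ⊆ D.A J y b') :
    D.spn J x b ⊆ D.spn J y b' := fun i hi => by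
  obtain ⟨z, hz, e⟩ := (mem_filter.1 hi).2
  refine mem_filter.2 ⟨mem_univ _, ?_⟩
  by_cases c : D.s z i = D.s y i
  · exact ⟨x, h (Dat.self_mem_A J hx), fun e' => e (c.trans e'.symm)⟩
  · exact ⟨z, h hz, c⟩

theorem chi_lab {p : ℕ} (hp : 5 ≤ p) {a a' u v : ZMod p} (h1 : ed a u) (h2 : ed a v)
    (h3 : ed a' u) (h4 : ed a' v)
    (h : (if u = a then (1 : ℝ) else -1) = if v = a' then 1 else -1) : u = v ∧ a = a' := by
  have key : a + 1 = a' → a' + 1 = a → False := fun e e' => ne2 hp (by linear_combination e + e')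
  split_ifs at h with c c' c'
  · subst c c'
    have : u = v := by
      by_contra e
      exact key (h2.resolve_left (Ne.symm e)).symm (h3.resolve_left e).symm
    exact ⟨this, this⟩
  · norm_num at h
  · norm_num at h
  · have e1 := h1.resolve_left c
    have e2 := h4.resolve_left c'
    subst e1 e2
    have : a = a' := by
      by_contra e
      exact key (h3.resolve_right fun e' => e (add_right_cancel e'))
        (h2.resolve_right fun e' => e (add_right_cancel e').symm)
    exact ⟨by rw [this], this⟩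

theorem p_LAB (hEDGE : S_EDGE) :
    S_LAB := by
  intro p m _ D J x y b b' hx hy h
  have hA : D.A J x b = D.A J y b' := Subset.antisymm (sub_lab hy h) (sub_lab hx h.symm)
  have hx' : D.In x b' := (Dat.mem_A.1 (hA ▸ Dat.self_mem_A J hx)).1
  have hy' : D.In y b := (Dat.mem_A.1 (hA.symm ▸ Dat.self_mem_A J hy)).1
  refine ⟨hA, Subset.antisymm (spn_lab hx hA.le) (spn_lab hy hA.ge), fun i hi => ?_,
    fun j hj => ?_, fun hc => ?_⟩
  · obtain ⟨z, hz, e⟩ := (mem_filter.1 hi).2
    have ha : D.a b i = D.a b' i := (hEDGE p D.hp).2.1 _ _ _ _ e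
      (D.ha b z (Dat.mem_A.1 hz).1 i) (D.ha b x hx i)
      (D.ha b' z (Dat.mem_A.1 (hA ▸ hz)).1 i) (D.ha b' x hx' i)
    exact ⟨ha, by simp only [Dat.M, Dat.chi, hA, ha]⟩
  · have := congrFun h j
    simp only [Dat.lab, if_neg hj] at this
    simp only [Dat.tau, hA, this]
  · have k := fun i => chi_lab D.hp (D.ha b x hx i) (D.ha b y hy' i) (D.ha b' x hx' i)
      (D.ha b' y hy i) (hc i)
    exact ⟨D.sinj (funext fun i => (k i).1), funext fun i => (k i).2⟩

end Pool.Agent.P.MP_263185_co.AL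

end

section

/-! Step UA. -/

namespace Pool.Agent.P.MP_263185_co.AL

open Finset
open scoped Classical

/-- the truncated mean sign -/
noncomputable def U_ua {p m : ℕ} [NeZero p] (D : Dat p m) (J : Finset (Fin m)) (i : Fin m)
    (x : D.X) (b : Fin m → ZMod p) : ℝ := if i ∈ D.spn J x b then D.M J i x b else 0

theorem lab_ua (hLAB : S_LAB) {p m : ℕ} [NeZero p] (D : Dat p m) (J : Finset (Fin m)) (i : Fin m)
    {x y : D.X} {b b' : Fin m → ZMod p} (h : D.In x b) (h' : D.In y b')
    (e : D.lab J x b = D.lab J y b') : U_ua D J i x b = U_ua D J i y b' := by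
  obtain ⟨-, h2, h3, -⟩ := hLAB p m D J x y b b' h h' e
  unfold U_ua
  by_cases hi : i ∈ D.spn J x b
  · rw [if_pos hi, if_pos (h2 ▸ hi), (h3 i hi).2]
  · rw [if_neg hi, if_neg (h2 ▸ hi)]

theorem avg_ua (hLAB : S_LAB) (hAVG : S_AVG) {p m : ℕ} [NeZero p] (D : Dat p m)
    (J : Finset (Fin m)) (i : Fin m) :
    D.E (fun x b => U_ua D J i x b * D.chi i x b) = D.E fun x b => U_ua D J i x b ^ 2 := by
  rw [← hAVG p m D J (D.chi i) (U_ua D J i) fun x b y hy hx => by
    obtain ⟨h1, h2⟩ := Dat.mem_A.1 hy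
    refine lab_ua hLAB D J i h1 hx (funext fun l => ?_)
    unfold Dat.lab
    split_ifs with hl
    exacts [h2 l hl, rfl]]
  refine Dat.E_congr fun x b _ => ?_
  change U_ua D J i x b * D.M J i x b = _
  unfold U_ua
  split_ifs <;> ring

theorem p_UA (hLU : S_LU) (hLAB : S_LAB) (hAVG : S_AVG) (hSW : S_SW) :
    S_UA := by
  intro p m _ D J
  have hp : (0 : ℝ) < p := by exact_mod_cast NeZero.pos p
  have hX := Dat.card_pos (D := D)
  have key := hLU (D.X × (Fin m → Bool)) (Fin m → ZMod p) (Fin m)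
    (fun ω => D.lab J ω.1 (D.bx ω.1 ω.2)) (fun _ => 1 / (p : ℝ) ^ m)
    (fun i ω => D.chi i ω.1 (D.bx ω.1 ω.2)) (fun i ω => U_ua D J i ω.1 (D.bx ω.1 ω.2))
    (fun ω => #(D.Fs ω.1 (D.bx ω.1 ω.2))) (fun _ => by positivity)
    (by simp [ZMod.card, hp.ne']) (fun _ => by positivity)
    (fun i ω => by unfold Dat.chi; split_ifs <;> simp)
    (fun i ω ω' e => lab_ua hLAB D J i (Dat.In_bx _ _) (Dat.In_bx _ _) e)
    (fun ω => by
      have aux : ∀ ω' : D.X × (Fin m → Bool),
          D.lab J ω'.1 (D.bx ω'.1 ω'.2) = D.lab J ω.1 (D.bx ω.1 ω.2) →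
          (∀ i, D.chi i ω'.1 (D.bx ω'.1 ω'.2) = D.chi i ω.1 (D.bx ω.1 ω.2)) →
          ω'.1 = ω.1 ∧ D.a (D.bx ω'.1 ω'.2) = D.a (D.bx ω.1 ω.2) := fun ω' e c =>
        (hLAB p m D J _ _ _ _ (Dat.In_bx _ _) (Dat.In_bx _ _) e).2.2.2.2 c
      refine Nat.cast_le.2 (card_le_card_of_injOn (fun ω' => D.bx ω'.1 ω'.2) ?_ ?_)
      · intro ω' h
        simp only [coe_filter, mem_univ, true_and, Set.mem_ofPred_eq] at h
        obtain ⟨h1, h2⟩ := aux ω' h.1 h.2
        simp only [Dat.Fs, coe_filter, mem_univ, true_and, Set.mem_ofPred_eq]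
        exact ⟨h1 ▸ Dat.In_bx _ _, h2⟩
      · intro ω' h ω'' h' e
        simp only [coe_filter, mem_univ, true_and, Set.mem_ofPred_eq] at h h'
        have e1 : ω'.1 = ω''.1 := (aux ω' h.1 h.2).1.trans (aux ω'' h'.1 h'.2).1.symm
        refine Prod.ext e1 (((hSW p m D fun _ _ => 0).2 ω''.1).1 ?_)
        simpa only [e1] using e)
  rw [Fintype.sum_prod_type, Fintype.sum_prod_type] at key
  have hn : (0 : ℝ) < Fintype.card D.X * 2 ^ m := by positivity
  have k2 := div_le_div_of_nonneg_right key hn.le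
  have hl : Real.log (Fintype.card (D.X × (Fin m → Bool))) =
      Real.log (Fintype.card D.X) + m * Real.log 2 := by
    rw [Fintype.card_prod, Fintype.card_fun, Fintype.card_bool, Fintype.card_fin]
    push_cast
    rw [Real.log_mul hX.ne' (by positivity), Real.log_pow]
  have hw : Real.log (1 / (p : ℝ) ^ m) = -(m * Real.log p) := by
    rw [one_div, Real.log_inv, Real.log_pow]
  rw [hl, hw, Fintype.card_fin] at k2
  rw [← Dat.E_eq (fun x b => ∑ i, (U_ua D J i x b * D.chi i x b - U_ua D J i x b ^ 2 / 2)),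
    ← Dat.E_eq (fun x b => m * Real.log 2 - -(m * Real.log p) -
      (Real.log (Fintype.card D.X) + m * Real.log 2) + Real.log #(D.Fs x b)),
    Dat.E_add, Dat.E_const, Dat.E_sum] at k2
  have e1 : ∀ i, D.E (fun x b => U_ua D J i x b * D.chi i x b - U_ua D J i x b ^ 2 / 2) =
      1 / 2 * D.E fun x b => U_ua D J i x b ^ 2 := fun i => by
    rw [Dat.E_sub, avg_ua hLAB hAVG, Dat.E_congr (F := fun x b => U_ua D J i x b ^ 2 / 2)
      (F' := fun x b => 1 / 2 * U_ua D J i x b ^ 2) fun x b _ => by ring, Dat.E_mul]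
    ring
  simp only [e1] at k2
  rw [← mul_sum, ← Dat.E_sum] at k2
  have e2 : D.E (fun x b => ∑ i ∈ D.spn J x b, D.M J i x b ^ 2) =
      D.E fun x b => ∑ i, U_ua D J i x b ^ 2 := Dat.E_congr fun x b _ => by
    rw [← sum_ite_mem_eq (D.spn J x b)]
    refine sum_congr rfl fun i _ => ?_
    unfold U_ua
    split_ifs <;> simp
  rw [e2]
  unfold Dat.df Dat.phi
  linarith

end Pool.Agent.P.MP_263185_co.AL

end

section

/-! Step UB. -/

namespace Pool.Agent.P.MP_263185_co.AL

open Finset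
open scoped Classical

theorem p_UB (hLU : S_LU) (hLAB : S_LAB) (hSW : S_SW) (hEDGE : S_EDGE) :
    S_UB := by
  intro p m _ D J
  have p0 : (0 : ℝ) < p := by exact_mod_cast NeZero.pos p
  have c0 := Dat.card_pos (D := D)
  have h := hLU (D.X × (Fin m → Bool)) (Fin m → ZMod p) (Fin 0)
    (fun w => D.lab J w.1 (D.bx w.1 w.2)) (fun _ => 1 / p ^ m) (fun _ _ => 1) (fun _ _ => 0)
    (fun w => 2 ^ (#(D.spn J w.1 (D.bx w.1 w.2)) + #J)) (fun _ => by positivity)
    (by simp [ZMod.card]) (fun _ => by positivity) (fun _ _ => .inl rfl)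
    (fun _ _ _ _ => rfl)
    (fun w => by
      norm_cast
      rw [pow_add, ← card_powerset, ← card_powerset, ← card_product]
      refine card_le_card_of_injOn (fun v => ((D.spn J w.1 (D.bx w.1 w.2)).filter
        fun i => D.s v.1 i = D.a (D.bx w.1 w.2) i, J.filter fun l => v.2 l = true))
        (fun v _ => mem_coe.2 (mem_product.2 ⟨mem_powerset.2 (filter_subset _ _),
          mem_powerset.2 (filter_subset _ _)⟩)) fun v hv v' hv' e => ?_
      simp only [mem_coe, mem_filter, mem_univ, true_and] at hv hv'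
      have k : ∀ u : D.X × (Fin m → Bool),
          D.lab J u.1 (D.bx u.1 u.2) = D.lab J w.1 (D.bx w.1 w.2) →
          u.1 ∈ D.A J w.1 (D.bx w.1 w.2) := fun u hu =>
        (hLAB p m D J _ _ _ _ (Dat.In_bx _ _) (Dat.In_bx _ _) hu).1 ▸
          Dat.self_mem_A J (Dat.In_bx _ _)
      have k1 := k v hv.1
      have k2 := k v' hv'.1
      obtain ⟨e1, e2⟩ := Prod.ext_iff.1 e
      have hx : v.1 = v'.1 := D.sinj (funext fun i => by
        by_cases hi : i ∈ D.spn J w.1 (D.bx w.1 w.2)
        · have e3 := Finset.ext_iff.1 e1 i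
          simp only [mem_filter, hi, true_and] at e3
          rcases D.ha _ _ (Dat.mem_A.1 k1).1 i with a | a <;>
            rcases D.ha _ _ (Dat.mem_A.1 k2).1 i with a' | a'
          exacts [a.trans a'.symm, a.trans (e3.1 a).symm, (e3.2 a').trans a'.symm, a.trans a'.symm]
        · simp only [Dat.spn, mem_filter, mem_univ, true_and, not_exists, not_and, not_not] at hi
          exact (hi _ k1).trans (hi _ k2).symm)
      refine Prod.ext hx (funext fun l => ?_)
      by_cases hl : l ∈ J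
      · simpa [hl] using Finset.ext_iff.1 e2 l
      · have e4 := congrFun (hv.1.trans hv'.1.symm) l
        have n1 := ne1 D.hp
        simp only [Dat.lab, hl, if_false, Dat.bx, hx, sub_right_inj] at e4
        cases h1 : v.2 l <;> cases h2 : v'.2 l <;> simp [h1, h2, n1, n1.symm] at e4 ⊢)
  have h2 : (0 : ℝ) ≤ D.E fun x b => D.df - m * Real.log 2 + #J * Real.log 2 +
      Real.log 2 * (#(D.spn J x b) : ℝ) := by
    rw [Dat.E_eq, ← Fintype.sum_prod_type']
    refine div_nonneg (le_trans (by simp) (h.trans (le_of_eq (sum_congr rfl fun w _ => ?_))))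
      (by positivity)
    simp only [Fintype.card_prod, Fintype.card_fun, Fintype.card_bool, Fintype.card_fin, one_div,
      Real.log_inv, Real.log_pow, Dat.df]
    push_cast
    rw [Real.log_mul c0.ne' (by positivity), Real.log_pow]; ring
  rw [Dat.E_add, Dat.E_const, Dat.E_mul] at h2
  linarith

end Pool.Agent.P.MP_263185_co.AL

end

section

/-! Step LN. -/

namespace Pool.Agent.P.MP_263185_co.AL

open Finset
open scoped Classical

theorem one_div_div_one_div_ln {a b : ℝ} (ha : 0 < a) (hb : 0 < b) :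
    Real.log (1 / a / (1 / b)) = Real.log b - Real.log a := by
  rw [Real.log_div (by positivity) (by positivity), one_div, one_div, Real.log_inv, Real.log_inv]
  ring

theorem p_LN (hSW : S_SW) :
    S_LN := by
  intro p m _ D
  have hn := Dat.card_pos (D := D)
  have hp : (0 : ℝ) < p := by exact_mod_cast Nat.pos_of_ne_zero (NeZero.ne p)
  refine ⟨?_, ?_, ?_⟩
  · have h1 : Fintype.card D.X ≤ p ^ m := by
      simpa [ZMod.card] using Fintype.card_le_of_injective _ D.cinj
    have h2 : (Fintype.card D.X : ℝ) ≤ (p : ℝ) ^ m := by exact_mod_cast h1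
    have h3 := Real.log_le_log hn h2
    rw [Real.log_pow] at h3
    unfold Dat.df
    linarith
  · refine Dat.E_nonneg fun x b h => Real.log_natCast_nonneg _
  · have hN : ∀ x β, (0 : ℝ) < D.N (D.bx x β) := fun x β => by
      have : 0 < D.N (D.bx x β) := card_pos.2 ⟨x, mem_filter.2 ⟨mem_univ _, Dat.In_bx x β⟩⟩
      exact_mod_cast this
    have hs : ∑ i : D.X × (Fin m → Bool), 1 / ((p : ℝ) ^ m * D.N (D.bx i.1 i.2)) ≤
        ∑ _i : D.X × (Fin m → Bool), 1 / ((Fintype.card D.X : ℝ) * 2 ^ m) := by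
      rw [Fintype.sum_prod_type,
        (hSW p m D fun _ b => 1 / ((p : ℝ) ^ m * D.N b)).1]
      calc _ ≤ ∑ _b : Fin m → ZMod p, 1 / (p : ℝ) ^ m := sum_le_sum fun b _ => by
            rw [sum_const, nsmul_eq_mul]
            change (D.N b : ℝ) * _ ≤ _
            rcases Nat.eq_zero_or_pos (D.N b) with h | h
            · rw [h]; simp
            · have : (0 : ℝ) < D.N b := by exact_mod_cast h
              apply le_of_eq
              field_simp
        _ = 1 := by
            simp [ZMod.card]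
        _ = _ := by
            simp
            field_simp
    have hg := gibbs univ (fun _ : D.X × (Fin m → Bool) => 1 / ((Fintype.card D.X : ℝ) * 2 ^ m))
      (fun i => 1 / ((p : ℝ) ^ m * D.N (D.bx i.1 i.2))) (fun _ _ => by positivity)
      (fun i _ => by have := hN i.1 i.2; positivity) hs
    have he : D.E (fun _ b => (m * Real.log 2 - D.df) - Real.log (D.N b)) ≤ 0 := by
      rw [Dat.E_eq]
      refine le_of_eq_of_le ?_ hg
      rw [Fintype.sum_prod_type, sum_div]
      refine sum_congr rfl fun x _ => ?_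
      rw [sum_div]
      refine sum_congr rfl fun β _ => ?_
      have := hN x β
      rw [one_div_div_one_div_ln (by positivity) (by positivity),
        Real.log_mul (by positivity) (by positivity), Real.log_mul (by positivity) (by positivity),
        Real.log_pow, Real.log_pow]
      unfold Dat.df
      push_cast
      ring
    rw [Dat.E_sub, Dat.E_const] at he
    linarith

end Pool.Agent.P.MP_263185_co.AL

end

section

/-! Step UM. -/

namespace Pool.Agent.P.MP_263185_co.AL

open Finset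
open scoped Classical

theorem p_UM (hUA : S_UA) (hUB : S_UB) (hPSI : S_PSI) (hLN : S_LN) :
    S_UM := by
  intro p m _ D J
  have h1 : ∑ i, D.E (fun x b => D.M J i x b ^ 2) ≤
      D.E (fun x b => ∑ i ∈ D.spn J x b, D.M J i x b ^ 2) +
        (m - D.E fun x b => (#(D.spn J x b) : ℝ)) := by
    rw [← Dat.E_sum, ← Dat.E_const (D := D) (m : ℝ), ← Dat.E_sub, ← Dat.E_add]
    refine Dat.E_mono fun x b h => ?_
    rw [← sum_add_sum_compl (D.spn J x b)]
    refine add_le_add le_rfl ((sum_le_card_nsmul _ _ 1 fun i _ =>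
      ((hPSI p m D J).1 i x b h).2).trans ?_)
    rw [card_compl, Fintype.card_fin, nsmul_eq_mul, mul_one,
      Nat.cast_sub ((card_le_univ _).trans (Fintype.card_fin m).le)]
  have h2 := hUA p m D J
  have h3 := hUB p m D J
  have h4 : 0 ≤ D.df := (hLN p m D).1
  have h5 := Real.log_two_gt_d9
  have h6 : (m - D.E fun x b => (#(D.spn J x b) : ℝ)) - #J ≤ 2 * D.df := by
    by_contra c
    nlinarith
  linarith

end Pool.Agent.P.MP_263185_co.AL

end

section

/-! Step CYC. -/

namespace Pool.Agent.P.MP_263185_co.AL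

open Finset
open scoped Classical

theorem p_CYC :
    S_CYC := by
  intro p _ g r r'
  have hk : (r - r').val < p := ZMod.val_lt _
  have e : r = r' + ((r - r').val : ℕ) := by rw [ZMod.natCast_zmod_val, add_sub_cancel]
  generalize (r - r').val = k at hk e
  have h1 := sum_range_sub (fun i : ℕ => g (r' + i)) k
  rw [Nat.cast_zero, add_zero, ← e] at h1
  have inj : Set.InjOn (fun i : ℕ => r' + ((i + 1 : ℕ) : ZMod p)) (range k : Finset ℕ) := by
    intro i hi j hj h
    have h2 : (i : ZMod p) = j := by simpa using h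
    have h3 := congrArg ZMod.val h2
    rwa [ZMod.val_cast_of_lt ((mem_range.1 hi).trans hk),
      ZMod.val_cast_of_lt ((mem_range.1 hj).trans hk)] at h3
  rw [← h1]
  refine le_trans ?_ (sum_le_sum_of_subset_of_nonneg
    (subset_univ ((range k).image fun i : ℕ => r' + ((i + 1 : ℕ) : ZMod p)))
    fun _ _ _ => abs_nonneg _)
  rw [sum_image inj]
  refine sum_le_sum fun i _ => le_trans (le_of_eq ?_) (le_abs_self _)
  rw [Nat.cast_succ, ← add_assoc, add_sub_cancel_right]

end Pool.Agent.P.MP_263185_co.AL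

end

section

/-! Step BOX. -/

namespace Pool.Agent.P.MP_263185_co.AL

open Finset
open scoped Classical

theorem p_BOX :
    S_BOX := by
  intro p m _ D J j x b
  refine ⟨fun f => (sum_fiberwise _ (fun y => D.c y j) f).symm, fun y hy t r => ?_,
    fun hj hx => ?_⟩
  · ext z
    simp only [Dat.Cy, Dat.ce, mem_filter, mem_univ, true_and] at hy ⊢
    refine and_congr_left fun _ => and_congr ?_ ?_
    · exact forall₂_congr fun l hl => by rw [hy.1 l hl]
    · exact forall₂_congr fun l hl => by rw [Function.update_of_ne hl]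
  have h1 : b j ≠ b j + 1 := fun h => ne1 D.hp (by linear_combination -h)
  have h2 : ∀ f : D.X → ℝ, ∑ y ∈ D.A J x b, f y =
      ∑ y ∈ D.ce J j x b (b j), f y + ∑ y ∈ D.ce J j x b (b j + 1), f y := fun f => by
    rw [← sum_union (disjoint_left.2 fun y h h' =>
      h1 ((mem_filter.1 h).2.symm.trans (mem_filter.1 h').2))]
    congr 1
    ext y
    simp only [Dat.A, Dat.Cy, Dat.ce, Dat.In, mem_filter, mem_univ, true_and, mem_union]
    refine ⟨fun h => (h.1 j).imp (fun e => ⟨⟨h.2, fun l _ => h.1 l⟩, e⟩)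
      fun e => ⟨⟨h.2, fun l _ => h.1 l⟩, e⟩, fun h => ⟨fun l => ?_, h.elim (·.1.1) (·.1.1)⟩⟩
    by_cases e : l = j
    · exact e ▸ h.imp (·.2) (·.2)
    · exact h.elim (·.1.2 l e) (·.1.2 l e)
  refine ⟨?_, h2, ?_⟩
  · ext y
    simp only [Dat.A, Dat.Cy, Dat.ce, Dat.In, mem_filter, mem_univ, true_and, forall_mem_insert]
    refine ⟨fun h => ⟨⟨h.2.2, fun l _ => h.1 l⟩, h.2.1⟩, fun h => ⟨fun l => ?_, h.2, h.1.1⟩⟩
    by_cases e : l = j
    · rw [e, h.2]; exact hx j
    · exact h.1.2 l e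
  · have h3 := h2 fun _ => 1
    simp only [sum_const, nsmul_eq_mul, mul_one] at h3
    rw [Dat.tau, h2, h3,
      sum_congr (s₁ := D.ce J j x b (b j)) rfl fun y hy => if_pos (mem_filter.1 hy).2,
      sum_congr (s₁ := D.ce J j x b (b j + 1)) rfl fun y hy =>
        if_neg fun h => h1 (h.symm.trans (mem_filter.1 hy).2)]
    simp [sub_eq_add_neg]

end Pool.Agent.P.MP_263185_co.AL

end

section

/-! Step BAD. -/

namespace Pool.Agent.P.MP_263185_co.AL

open Finset
open scoped Classical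

theorem real_bad (hCYC : S_CYC) {p : ℕ} [NeZero p] (n T : ZMod p → ℝ) (h0 : ∀ t, 0 ≤ n t)
    (hT : ∀ t, T t = (n t - n (t + 1)) / (n t + n (t + 1))) {r₀ r' : ZMod p}
    (hr : 2 * n r' < n r₀) :
    1 ≤ 8 * p ^ 3 * ((∑ t, n t * (T t ^ 2 + T (t - 1) ^ 2)) / ∑ t, n t) := by
  obtain ⟨r, -, hm⟩ := exists_max_image univ n ⟨r₀, mem_univ _⟩
  have sh : ∀ f : ZMod p → ℝ, ∑ t, f (t + 1) = ∑ t, f t := fun f =>
    Equiv.sum_comp (Equiv.addRight 1) f
  have a1 : ∑ t, n t * (T t ^ 2 + T (t - 1) ^ 2) = ∑ t, (n t + n (t + 1)) * T t ^ 2 := by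
    simp only [mul_add, add_mul, sum_add_distrib]
    rw [← sh fun t => n t * T (t - 1) ^ 2]
    simp only [add_sub_cancel_right]
  have a2 : (∑ t, |n (t + 1) - n t|) ^ 2 ≤
      (∑ t, (n t + n (t + 1)) * T t ^ 2) * ∑ t, (n t + n (t + 1)) := by
    refine sum_sq_le_sum_mul_sum_of_sq_le_mul _
      (fun t _ => mul_nonneg (add_nonneg (h0 _) (h0 _)) (sq_nonneg _))
      (fun t _ => add_nonneg (h0 _) (h0 _)) fun t _ => le_of_eq ?_
    rw [sq_abs, hT]
    by_cases e : n t + n (t + 1) = 0
    · have b1 := h0 t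
      have b2 := h0 (t + 1)
      rw [e, show n (t + 1) - n t = 0 by linarith]; simp
    · field_simp; ring
  have a3 := hCYC p n r r'
  rw [← sh fun t => |n t - n (t - 1)|] at a3
  simp only [add_sub_cancel_right] at a3
  rw [sum_add_distrib, sh n] at a2
  have a4 : ∑ t, n t ≤ p * n r := by
    simpa [ZMod.card] using sum_le_card_nsmul univ n (n r) hm
  have a5 : n r ≤ ∑ t, n t := single_le_sum (fun t _ => h0 t) (mem_univ r)
  have a6 := hm r₀ (mem_univ _)
  have a7 := h0 r'
  have a8 : (1 : ℝ) ≤ p := by exact_mod_cast NeZero.one_le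
  have a9 : 0 ≤ ∑ t, (n t + n (t + 1)) * T t ^ 2 :=
    sum_nonneg fun t _ => mul_nonneg (add_nonneg (h0 _) (h0 _)) (sq_nonneg _)
  rw [a1]
  generalize ∑ t, (n t + n (t + 1)) * T t ^ 2 = Q at *
  generalize ∑ t, n t = S at *
  generalize ∑ t, |n (t + 1) - n t| = W at *
  have hS : 0 < S := by linarith
  have b1 : (n r / 2) ^ 2 ≤ W ^ 2 := pow_le_pow_left₀ (by linarith) (by linarith) 2
  have b2 : S ^ 2 ≤ (p * n r) ^ 2 := pow_le_pow_left₀ hS.le a4 2
  have b3 : S * S ≤ 8 * p ^ 2 * Q * S := by nlinarith [sq_nonneg (p : ℝ)]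
  have b4 := le_of_mul_le_mul_right b3 hS
  rw [← mul_div_assoc, le_div_iff₀ hS]
  nlinarith [mul_nonneg (sq_nonneg (p : ℝ)) a9]

theorem p_BAD (hCYC : S_CYC) (hBOX : S_BOX) :
    S_BAD := by
  intro p m _ D J j x b hx hg
  simp only [Dat.good, not_or, not_forall, not_le] at hg
  obtain ⟨hj, r, r', hr⟩ := hg
  obtain ⟨h1, h2, -⟩ := hBOX p m D J j x b
  let n : ZMod p → ℝ := fun t => #(D.ce J j x b t)
  let T : ZMod p → ℝ := fun t => (n t - n (t + 1)) / (n t + n (t + 1))
  have ht : ∀ y ∈ D.Cy J j x b, ∀ t, D.In y (Function.update b j t) →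
      D.tau J j y (Function.update b j t) = T t := fun y hy t hi => by
    rw [((hBOX p m D J j y _).2.2 hj hi).2.2, h2 y hy, h2 y hy, Function.update_self]
  have hc : (#(D.Cy J j x b) : ℝ) = ∑ t, n t := by simpa using h1 fun _ => 1
  rw [hc, h1]
  refine (real_bad hCYC n T (fun t => Nat.cast_nonneg _) (fun _ => rfl) (r₀ := r) (r' := r')
    (by simp only [n]; exact_mod_cast hr)).trans_eq ?_
  congr 2
  refine sum_congr rfl fun t _ => ?_
  rw [← nsmul_eq_mul, ← sum_const]
  refine sum_congr rfl fun y hy => ?_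
  obtain ⟨hy, e⟩ := mem_filter.1 hy
  have i1 := Dat.In_tb hx hy
  have i2 := Dat.In_fl j i1
  simp only [Dat.fl, Dat.tb, Function.update_idem, Function.update_self] at i1 i2 ⊢
  rw [ht y hy _ i1, ht y hy _ i2, e]
  rcases hx j with h | h <;> rw [h]
  · congr 3 <;> ring
  · rw [add_comm]
    congr 3 <;> ring

end Pool.Agent.P.MP_263185_co.AL

end

section

/-! Step AVJ. -/

namespace Pool.Agent.P.MP_263185_co.AL

open Finset
open scoped Classical

theorem tri_avj {p m : ℕ} [NeZero p] (D : Dat p m) (J : Finset (Fin m)) (j : Fin m)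
    (g : (Fin m → ZMod p) → D.X → D.X → ℝ) :
    ∑ b, ∑ x ∈ univ.filter (fun y => D.In y b), ∑ y ∈ D.Cy J j x b, g b x y =
      ∑ t ∈ univ.filter (fun t : (Fin m → ZMod p) × D.X × D.X =>
        D.In t.2.1 t.1 ∧ t.2.2 ∈ D.Cy J j t.2.1 t.1), g t.1 t.2.1 t.2.2 := by
  rw [sum_filter, Fintype.sum_prod_type]
  refine sum_congr rfl fun b _ => ?_
  rw [sum_filter, Fintype.sum_prod_type]
  refine sum_congr rfl fun x _ => ?_
  by_cases h : D.In x b
  · simp only [h, true_and, if_true]
    rw [← sum_filter, filter_mem_eq_inter, univ_inter]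
  · simp [h]

theorem tb_tb_avj {p m : ℕ} [NeZero p] (D : Dat p m) (j : Fin m) (x y : D.X)
    (b : Fin m → ZMod p) : D.tb j y (D.tb j x b y) x = b := by
  funext l
  by_cases e : l = j
  · subst e
    simp only [Dat.tb, Function.update_self]
    ring
  · simp only [Dat.tb, Function.update_of_ne e]

theorem mem_avj {p m : ℕ} [NeZero p] (D : Dat p m) (J : Finset (Fin m)) (j : Fin m) {x y : D.X}
    {b : Fin m → ZMod p} (h : D.In x b) (hy : y ∈ D.Cy J j x b) :
    D.In y (D.tb j x b y) ∧ x ∈ D.Cy J j y (D.tb j x b y) := by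
  refine ⟨Dat.In_tb h hy, ?_⟩
  rw [Dat.tb, Dat.Cy_eq hy]
  exact Dat.self_mem_Cy J j h

theorem p_AVJ (hSW : S_SW) :
    S_AVJ := by
  intro p m _ D J j f
  rw [Dat.E_eq, Dat.E_eq, (hSW p m D f).1, (hSW p m D fun x b =>
    (∑ y ∈ D.Cy J j x b, f y (D.tb j x b y)) / #(D.Cy J j x b)).1]
  congr 1
  have h1 : ∑ b, ∑ x ∈ univ.filter (fun y => D.In y b), f x b =
      ∑ b, ∑ x ∈ univ.filter (fun y => D.In y b), ∑ _y ∈ D.Cy J j x b,
        f x b / #(D.Cy J j x b) := by
    refine sum_congr rfl fun b _ => sum_congr rfl fun x hx => ?_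
    have h0 : (0 : ℝ) < #(D.Cy J j x b) := by
      exact_mod_cast card_pos.2 ⟨x, Dat.self_mem_Cy J j (mem_filter.1 hx).2⟩
    rw [sum_const, nsmul_eq_mul]
    field_simp
  rw [h1]
  simp only [sum_div]
  rw [tri_avj D J j (fun b x y => f y (D.tb j x b y) / #(D.Cy J j x b)),
    tri_avj D J j (fun b x _ => f x b / #(D.Cy J j x b))]
  refine sum_nbij' (fun t => (D.tb j t.2.1 t.1 t.2.2, t.2.2, t.2.1))
    (fun t => (D.tb j t.2.1 t.1 t.2.2, t.2.2, t.2.1)) ?_ ?_ ?_ ?_ ?_
  · intro t ht
    simp only [mem_filter, mem_univ, true_and] at ht ⊢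
    exact mem_avj D J j ht.1 ht.2
  · intro t ht
    simp only [mem_filter, mem_univ, true_and] at ht ⊢
    exact mem_avj D J j ht.1 ht.2
  · intro t _
    simp only [tb_tb_avj]
  · intro t _
    simp only [tb_tb_avj]
  · intro t ht
    simp only [mem_filter, mem_univ, true_and] at ht
    simp only
    rw [Dat.tb, Dat.Cy_eq ht.2]

end Pool.Agent.P.MP_263185_co.AL

end

section

/-! Step UT. -/

namespace Pool.Agent.P.MP_263185_co.AL

open Finset
open scoped Classical

theorem p_UT (hLU : S_LU) (hLAB : S_LAB) (hAVG : S_AVG) (hSW : S_SW) :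
    S_UT := by
  intro p m _ D J
  have p0 : (0 : ℝ) < p := by exact_mod_cast NeZero.pos p
  have c0 := Dat.card_pos (D := D)
  let χ : Fin m → D.X → (Fin m → ZMod p) → ℝ := fun j x b => if D.c x j = b j then 1 else -1
  let u : Fin m → D.X → (Fin m → ZMod p) → ℝ := fun j x b => if j ∈ J then 0 else D.tau J j x b
  have h := hLU (D.X × (Fin m → Bool)) (Fin m → ZMod p) (Fin m)
    (fun w => D.lab J w.1 (D.bx w.1 w.2)) (fun _ => 1 / p ^ m) (fun j w => χ j w.1 (D.bx w.1 w.2))
    (fun j w => u j w.1 (D.bx w.1 w.2)) (fun _ => 1) (fun _ => by positivity)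
    (by simp [ZMod.card]) (fun _ => by positivity)
    (fun j w => by simp only [χ]; split_ifs <;> simp)
    (fun j w w' e => by
      simp only [u]; split_ifs with hj
      exacts [rfl, (hLAB p m D J _ _ _ _ (Dat.In_bx _ _) (Dat.In_bx _ _) e).2.2.2.1 j hj])
    (fun w => by
      norm_cast
      refine card_le_one.2 fun v hv v' hv' => ?_
      simp only [mem_filter, mem_univ, true_and] at hv hv'
      obtain ⟨a1, a2⟩ := hv
      obtain ⟨a3, a4⟩ := hv'
      have hb : v.2 = v'.2 := funext fun l => by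
        have := (a2 l).trans (a4 l).symm
        have n1 := ne1 D.hp
        simp only [χ, Dat.bx] at this
        cases h1 : v.2 l <;> cases h2 : v'.2 l <;> simp [h1, h2, n1, eq_sub_iff_add_eq] at this ⊢ <;>
          norm_num at this
      refine Prod.ext (D.cinj (funext fun l => ?_)) hb
      have := congrFun (a1.trans a3.symm) l
      simp only [Dat.lab, Dat.bx, hb] at this
      split_ifs at this <;> simpa using this)
  have h2 : ∑ j, D.E (fun x b => u j x b * χ j x b - u j x b ^ 2 / 2) ≤ D.df := by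
    rw [← Dat.E_sum, Dat.E_eq, div_le_iff₀ (by positivity), ← Fintype.sum_prod_type']
    refine h.trans (le_of_eq ?_)
    simp only [sum_const, card_univ, Fintype.card_prod, Fintype.card_fun, Fintype.card_bool,
      Fintype.card_fin, nsmul_eq_mul, Real.log_one, one_div, Real.log_inv, Real.log_pow, Dat.df]
    push_cast
    rw [Real.log_mul c0.ne' (by positivity), Real.log_pow]; ring
  have h3 : ∀ j, D.E (fun x b => u j x b * χ j x b - u j x b ^ 2 / 2) =
      if j ∈ Jᶜ then 1 / 2 * D.E (fun x b => D.tau J j x b ^ 2) else 0 := fun j => by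
    by_cases hj : j ∈ J
    · simp [u, hj, Dat.E_const]
    · have := hAVG p m D J (χ j) (D.tau J j) fun x b y hy _ => by rw [Dat.tau, Dat.A_eq hy]; rfl
      simp only [u, hj, if_false, mem_compl, not_false_iff, if_true]
      rw [Dat.E_sub, ← this, ← Dat.E_sub, ← Dat.E_mul]
      exact Dat.E_congr fun x b _ => by rw [← Dat.tau]; ring
  simp only [h3, sum_ite_mem, univ_inter, ← mul_sum] at h2
  linarith

end Pool.Agent.P.MP_263185_co.AL

end

section

/-! Step UU. -/

namespace Pool.Agent.P.MP_263185_co.AL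

open Finset
open scoped Classical

theorem ind_nonneg_uu (P : Prop) : 0 ≤ ind P := by
  unfold ind; split_ifs <;> norm_num

theorem cE_ind_nonneg_uu {m : ℕ} (P : (Fin m → Bool) → Prop) : 0 ≤ cE fun β => ind (P β) :=
  div_nonneg (sum_nonneg fun _ _ => ind_nonneg_uu _) (by positivity)

theorem p_UU (hBAD : S_BAD) (hAVJ : S_AVJ) (hUT : S_UT) :
    S_UU := by
  intro p m _ D J
  have h1 : ∀ x, (#(D.U J x) : ℝ) ≤ ∑ j, 8 * cE fun β => ind (¬ D.good J j x (D.bx x β)) := by
    intro x
    rw [card_eq_sum_ones, Nat.cast_sum, Dat.U, sum_filter]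
    refine sum_le_sum fun j _ => ?_
    have := cE_ind_nonneg_uu fun β => ¬ D.good J j x (D.bx x β)
    split_ifs with h
    · push_cast; linarith
    · linarith
  have h2 : D.xE (fun x => (#(D.U J x) : ℝ)) ≤
      ∑ j, 8 * D.E fun x b => ind (¬ D.good J j x b) := by
    have hc := Dat.card_pos (D := D)
    calc _ ≤ (∑ x, ∑ j, 8 * cE fun β => ind (¬ D.good J j x (D.bx x β))) / Fintype.card D.X :=
          div_le_div_of_nonneg_right (sum_le_sum fun x _ => h1 x) hc.le
      _ = _ := by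
          rw [sum_comm, sum_div]
          refine sum_congr rfl fun j _ => ?_
          rw [Dat.E, Dat.xE, ← mul_sum, mul_div_assoc]
  have h3 : ∀ j, D.E (fun x b => ind (¬ D.good J j x b)) ≤
      16 * p ^ 3 * D.E fun x b => D.tau J j x b ^ 2 := by
    intro j
    have a1 := hAVJ p m D J j fun y b => D.tau J j y b ^ 2 + D.tau J j y (D.fl j y b) ^ 2
    rw [Dat.E_add, Dat.E_fl j fun y b => D.tau J j y b ^ 2] at a1
    calc _ ≤ D.E fun x b => 8 * p ^ 3 * ((∑ y ∈ D.Cy J j x b, (D.tau J j y (D.tb j x b y) ^ 2 +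
          D.tau J j y (D.fl j y (D.tb j x b y)) ^ 2)) / #(D.Cy J j x b)) := by
          refine Dat.E_mono fun x b hb => ?_
          unfold ind
          split_ifs with h
          · positivity
          · exact hBAD p m D J j x b hb h
      _ = _ := by rw [Dat.E_mul, a1]; ring
  have h4 : ∀ j ∈ J, D.E (fun x b => ind (¬ D.good J j x b)) = 0 := by
    intro j hj
    rw [← Dat.E_const (D := D) 0]
    refine Dat.E_congr fun x b _ => ?_
    simp [ind, Dat.good, hj]
  have h5 := hUT p m D J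
  rw [← sum_add_sum_compl J, sum_eq_zero (fun j hj => by rw [h4 j hj, mul_zero]), zero_add] at h2
  calc _ ≤ _ := h2
    _ ≤ ∑ j ∈ Jᶜ, 128 * p ^ 3 * D.E fun x b => D.tau J j x b ^ 2 :=
        sum_le_sum fun j _ => by linarith [h3 j]
    _ ≤ 128 * p ^ 3 * (2 * D.df) := by
        rw [← mul_sum]
        exact mul_le_mul_of_nonneg_left h5 (by positivity)
    _ = _ := by ring

end Pool.Agent.P.MP_263185_co.AL

end
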