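import Pool.Agent.P.MP_263185_co.AL.Iface

section

/-! Step UC. -/

namespace Pool.Agent.P.MP_263185_co.AL

open Finset
open scoped Classical

theorem a_eq_uc {p m : ℕ} [NeZero p] {D : Dat p m} {x : D.X} {b b' : Fin m → ZMod p}
    (h : D.In x b) (h' : D.In x b') (e : ∀ i, D.chi i x b' = D.chi i x b) : D.a b' = D.a b := by
  funext i
  have e1 := e i
  have h1 := D.ha b x h i
  have h2 := D.ha b' x h' i
  unfold Dat.chi at e1
  by_cases c : D.s x i = D.a b i <;> by_cases c' : D.s x i = D.a b' i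
  · rw [← c, ← c']
  · rw [if_pos c, if_neg c'] at e1; norm_num at e1
  · rw [if_neg c, if_pos c'] at e1; norm_num at e1
  · exact add_right_cancel ((h2.resolve_left c').symm.trans (h1.resolve_left c))

theorem p_UC (hLU : S_LU) (hSW : S_SW) (hEDGE : S_EDGE) :
    S_UC := by
  intro p m _ D U a₀ a
  have hN := Dat.card_pos (D := D)
  have key := hLU (D.X × (Fin m → Bool)) (D.X × Finset (Fin m)) (Fin m)
    (fun ω => (ω.1, (U ω.1).filter fun l => ω.2 l = true))
    (fun y => if y.2 ⊆ U y.1 then 1 / (Fintype.card D.X * 2 ^ #(U y.1)) else 0)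
    (fun i ω => D.chi i ω.1 (D.bx ω.1 ω.2))
    (fun i ω => a₀ i ω.1 + ∑ j ∈ U ω.1, a i j ω.1 * sg (ω.2 j))
    (fun ω => #(D.Fs ω.1 (D.bx ω.1 ω.2)))
    (fun y => by positivity)
    (by
      rw [Fintype.sum_prod_type]
      have : ∀ x : D.X, ∑ S : Finset (Fin m), (if S ⊆ U x then
          1 / (Fintype.card D.X * 2 ^ #(U x)) else 0 : ℝ) = 1 / Fintype.card D.X := fun x => by
        rw [← sum_filter, sum_const, show univ.filter (· ⊆ U x) = (U x).powerset by ext; simp,
          card_powerset, nsmul_eq_mul]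
        push_cast
        field_simp
      simp only [this, sum_const, card_univ, nsmul_eq_mul]
      rw [mul_one_div_cancel hN.ne'])
    (fun ω => by simp only [filter_subset, if_true]; positivity)
    (fun i ω => by simp only [Dat.chi]; split_ifs <;> simp)
    (by
      rintro i ⟨x, β⟩ ⟨x', β'⟩ e
      obtain ⟨rfl, e2⟩ := Prod.mk.inj e
      refine congrArg _ (sum_congr rfl fun j hj => ?_)
      have := Finset.ext_iff.1 e2 j
      simp only [mem_filter, hj, true_and] at this
      simp only [Bool.eq_iff_iff.2 this])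
    (by
      rintro ⟨x, β⟩
      refine Nat.cast_le.2 (card_le_card_of_injOn (fun ω => D.bx x ω.2) ?_ ?_)
      · rintro ⟨x', β'⟩ h
        simp only [coe_filter, mem_univ, true_and, Set.mem_ofPred_eq] at h
        obtain ⟨e, e2⟩ := h
        obtain ⟨rfl, -⟩ := Prod.mk.inj e
        exact mem_filter.2 ⟨mem_univ _, Dat.In_bx _ _,
          a_eq_uc (Dat.In_bx _ _) (Dat.In_bx _ _) e2⟩
      · rintro ⟨x1, β1⟩ h1 ⟨x2, β2⟩ h2 e
        simp only [coe_filter, mem_univ, true_and, Set.mem_ofPred_eq] at h1 h2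
        have e1 : x1 = x := (Prod.mk.inj h1.1).1
        have e2 : x2 = x := (Prod.mk.inj h2.1).1
        exact Prod.ext (e1.trans e2.symm) (((hSW p m D fun _ _ => 0).2 x).1 e))
  have r : ∀ ω : D.X × (Fin m → Bool), (Fintype.card (Fin m) : ℝ) * Real.log 2 -
      Real.log (if (U ω.1).filter (fun l => ω.2 l = true) ⊆ U ω.1 then
        1 / (Fintype.card D.X * 2 ^ #(U ω.1)) else 0) -
      Real.log (Fintype.card (D.X × (Fin m → Bool))) + Real.log #(D.Fs ω.1 (D.bx ω.1 ω.2)) =
      #(U ω.1) * Real.log 2 + Real.log #(D.Fs ω.1 (D.bx ω.1 ω.2)) := fun ω => by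
    rw [if_pos (filter_subset _ _), one_div, Real.log_inv, Fintype.card_prod, Fintype.card_fun,
      Fintype.card_bool, Fintype.card_fin]
    push_cast
    rw [Real.log_mul hN.ne' (by positivity), Real.log_mul hN.ne' (by positivity), Real.log_pow,
      Real.log_pow]
    ring
  simp only [r] at key
  rw [sum_comm, sum_add_distrib] at key
  simp only [Fintype.sum_prod_type, sum_const, card_univ, Fintype.card_fun, Fintype.card_bool,
    Fintype.card_fin, nsmul_eq_mul, ← mul_sum, ← sum_mul] at key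
  rw [Dat.phi, Dat.E_eq]
  simp only [Dat.xE, cE, ← sum_div, div_div]
  push_cast at key
  rw [mul_comm ((2 : ℝ) ^ m), div_le_iff₀ (by positivity), add_mul,
    div_mul_cancel₀ _ (by positivity)]
  refine key.trans (le_of_eq ?_)
  field_simp

end Pool.Agent.P.MP_263185_co.AL

end

section

/-! Step CO. -/

namespace Pool.Agent.P.MP_263185_co.AL

open Finset
open scoped Classical

theorem sq_co (t : Bool) : sg t ^ 2 = 1 := by cases t <;> simp [sg]

theorem neg_co (t : Bool) : sg (!t) = -sg t := by cases t <;> simp [sg]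

theorem zero_co {m : ℕ} (j : Fin m) (h : (Fin m → Bool) → ℝ) (e : ∀ β, h (fb j β) = h β) :
    ∑ β, h β * sg (β j) = 0 := by
  have := sum_fb j fun β => h β * sg (β j)
  simp only [e, fb, Function.update_self, neg_co, mul_neg, sum_neg_distrib] at this
  simp only [← fb.eq_1, e] at this
  linarith

theorem p_CO :
    S_CO := by
  intro m U a₀ a
  have hm : (2 : ℝ) ^ m ≠ 0 := by positivity
  rw [cE, div_eq_iff hm]
  induction U using Finset.induction_on with
  | empty => simp [mul_comm]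
  | insert j U hj ih =>
    have z := zero_co j (fun β => a₀ + ∑ l ∈ U, a l * sg (β l)) fun β => by
      congr 1
      refine sum_congr rfl fun l hl => ?_
      rw [fb, Function.update_of_ne (ne_of_mem_of_not_mem hl hj)]
    have e : ∀ β : Fin m → Bool, (a₀ + ∑ l ∈ insert j U, a l * sg (β l)) ^ 2 =
        (a₀ + ∑ l ∈ U, a l * sg (β l)) ^ 2 +
          2 * a j * ((a₀ + ∑ l ∈ U, a l * sg (β l)) * sg (β j)) + a j ^ 2 := fun β => by
      rw [sum_insert hj]
      linear_combination a j ^ 2 * sq_co (β j)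
    simp only [e]
    rw [sum_add_distrib, sum_add_distrib, ← mul_sum, z, ih, sum_insert hj]
    simp
    ring

end Pool.Agent.P.MP_263185_co.AL

end

section

/-! Step AU. -/

namespace Pool.Agent.P.MP_263185_co.AL

open Finset
open scoped Classical

theorem lin_au {m : ℕ} (U : Finset (Fin m)) (a₀ : ℝ) (a : Fin m → ℝ) (f : (Fin m → Bool) → ℝ) :
    cE (fun β => (a₀ + ∑ j ∈ U, a j * sg (β j)) * f β) = a₀ * cE f + ∑ j ∈ U, a j * cA j f := by
  simp only [cA, cE, add_mul, sum_mul, sum_add_distrib, add_div]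
  rw [← mul_sum, mul_div_assoc, sum_comm, sum_div U]
  congr 1
  refine sum_congr rfl fun j _ => ?_
  rw [← mul_div_assoc, mul_sum]
  congr 1
  exact sum_congr rfl fun β _ => by ring

theorem key_au {m : ℕ} (l f g c : (Fin m → Bool) → ℝ) (W : ℝ) (h : ∀ β, f β = (c β - g β) / 2)
    (h1 : cE (fun β => l β ^ 2) = W) (h2 : cE (fun β => l β * f β) = W) :
    W ≤ cE (fun β => l β * c β - l β ^ 2 / 2) + cE (fun β => g β ^ 2) / 2 := by
  have e : W = 2 * cE (fun β => l β * f β) - cE (fun β => l β ^ 2) := by rw [h1, h2]; ring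
  rw [e]
  simp only [cE]
  rw [← mul_div_assoc, ← sub_div, div_right_comm, ← add_div, mul_sum, ← sum_sub_distrib,
    sum_div univ _ (2 : ℝ), ← sum_add_distrib]
  refine div_le_div_of_nonneg_right (sum_le_sum fun β _ => ?_) (by positivity)
  rw [h β]
  nlinarith [sq_nonneg (l β + g β)]

theorem pt_au (hCO : S_CO) {m : ℕ} (U : Finset (Fin m)) (f g c : (Fin m → Bool) → ℝ)
    (h : ∀ β, f β = (c β - g β) / 2) :
    cE f ^ 2 + ∑ j ∈ U, cA j f ^ 2 ≤
      cE (fun β => (cE f + ∑ j ∈ U, cA j f * sg (β j)) * c β -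
        (cE f + ∑ j ∈ U, cA j f * sg (β j)) ^ 2 / 2) + cE (fun β => g β ^ 2) / 2 := by
  have h1 := hCO m U (cE f) (fun j => cA j f)
  have h2 := lin_au U (cE f) (fun j => cA j f) f
  simp only [← sq] at h2
  exact key_au (fun β => cE f + ∑ j ∈ U, cA j f * sg (β j)) f g c _ h h1 h2

theorem p_AU (hUC : S_UC) (hCO : S_CO) (hPSI : S_PSI) :
    S_AU := by
  intro p m _ D J
  have h1 := hUC p m D (D.U J) (fun i x => cE fun β => D.psi J i x (D.bx x β))
    (fun i j x => cA j fun β => D.psi J i x (D.bx x β))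
  have hc := Dat.card_pos (D := D)
  have h2 : D.xE (fun x => (#(D.U J x) : ℝ)) * Real.log 2 ≤ D.xE (fun x => (#(D.U J x) : ℝ)) := by
    refine mul_le_of_le_one_right ?_ ?_
    · unfold Dat.xE; positivity
    · have := Real.log_le_sub_one_of_pos (x := 2) two_pos
      linarith
  refine le_trans ?_ (add_le_add_left (h1.trans (add_le_add_left h2 _)) _)
  rw [Dat.Aw, sum_div, ← sum_add_distrib]
  refine sum_le_sum fun i _ => ?_
  simp only [Dat.E, Dat.xE]
  rw [div_right_comm, ← add_div, sum_div univ _ (2 : ℝ), ← sum_add_distrib]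
  refine div_le_div_of_nonneg_right (sum_le_sum fun x _ => ?_) hc.le
  exact pt_au hCO (D.U J x) (fun β => D.psi J i x (D.bx x β)) (fun β => D.M J i x (D.bx x β))
    (fun β => D.chi i x (D.bx x β)) fun β => ((hPSI p m D J).1 i x _ (Dat.In_bx x β)).1

end Pool.Agent.P.MP_263185_co.AL

end

section

/-! Step EN. -/

namespace Pool.Agent.P.MP_263185_co.AL

open Finset
open scoped Classical

theorem p_EN (hLAB : S_LAB) :
    S_EN := by
  intro p m _ D J
  have key : ∀ i j x b, D.In x b → D.psi J i x b - D.psi J i x (D.fl j x b) =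
      D.del J i j x b - D.del J i j x (D.fl j x b) := by
    intro i j x b h
    have hl : D.lab (insert j J) x b = D.lab (insert j J) x (D.fl j x b) := by
      funext l
      unfold Dat.lab
      split_ifs with hl
      · rfl
      · have : l ≠ j := fun e => hl (e ▸ mem_insert_self _ _)
        simp only [Dat.fl, Function.update_of_ne this]
    have hA := (hLAB p m D (insert j J) x x b (D.fl j x b) h (Dat.In_fl j h) hl).1
    have : D.psi (insert j J) i x b = D.psi (insert j J) i x (D.fl j x b) := by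
      unfold Dat.psi; rw [hA]
    unfold Dat.del; rw [this]; ring
  refine ⟨key, ?_, ?_⟩
  · unfold Dat.En Dat.Dr Dat.G
    rw [← sum_sub_distrib]
    refine sum_congr rfl fun i _ => ?_
    rw [← sum_sub_distrib]
    refine sum_congr rfl fun j _ => ?_
    have e1 : D.E (fun x b => ((D.psi J i x b - D.psi J i x (D.fl j x b)) / 2) ^ 2) =
        D.E (fun x b => (1 / 2 * D.del J i j x b ^ 2 + 1 / 2 * D.del J i j x (D.fl j x b) ^ 2) -
          ((D.del J i j x b + D.del J i j x (D.fl j x b)) / 2) ^ 2) :=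
      Dat.E_congr fun x b h => by rw [key i j x b h]; ring
    rw [e1, Dat.E_sub, Dat.E_add, Dat.E_mul, Dat.E_mul,
      Dat.E_fl j (fun x b => D.del J i j x b ^ 2)]
    ring
  · unfold Dat.G
    exact sum_nonneg fun i _ => sum_nonneg fun j _ => Dat.E_nonneg fun x b _ => sq_nonneg _

end Pool.Agent.P.MP_263185_co.AL

end

section

/-! Step DEL. -/

namespace Pool.Agent.P.MP_263185_co.AL

open Finset
open scoped Classical

theorem lf_del (hEDGE : S_EDGE) {p m : ℕ} [NeZero p] (D : Dat p m) (i : Fin m)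
    {b : Fin m → ZMod p} {y y' : D.X} (h : D.In y b) (h' : D.In y' b) :
    lf (D.s y i) (D.s y' i) = (D.chi i y b - D.chi i y' b) / 2 :=
  (hEDGE p D.hp).2.2.2.1 (D.a b i) _ _ (D.ha b y h i) (D.ha b y' h' i)

theorem In_del {p m : ℕ} [NeZero p] (D : Dat p m) {J : Finset (Fin m)} {j : Fin m} {x y : D.X}
    {b : Fin m → ZMod p} {r : ZMod p} (hr : ed (b j) r) (hy : y ∈ D.ce J j x b r) :
    D.In y b := fun l => by
  obtain ⟨h1, h2⟩ := mem_filter.1 hy
  by_cases e : l = j
  · subst e
    rw [h2]; exact hr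
  · exact (Dat.mem_Cy.1 h1).2 l e

theorem sum_del (hEDGE : S_EDGE) {p m : ℕ} [NeZero p] (D : Dat p m) (i : Fin m)
    {b : Fin m → ZMod p} {x : D.X} (h : D.In x b) (T : Finset D.X) (hT : ∀ y ∈ T, D.In y b) :
    ∑ y ∈ T, lf (D.s x i) (D.s y i) = (#T * D.chi i x b - ∑ y ∈ T, D.chi i y b) / 2 := by
  rw [sum_congr rfl fun y hy => lf_del hEDGE D i h (hT y hy), ← sum_div, sum_sub_distrib,
    sum_const, nsmul_eq_mul]

theorem St_del (hEDGE : S_EDGE) {p m : ℕ} [NeZero p] (D : Dat p m) (J : Finset (Fin m))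
    (i j : Fin m) (x : D.X) (b : Fin m → ZMod p) :
    D.St J i j x b (b j) =
      (#(D.ce J j x b (b j + 1)) * (∑ y ∈ D.ce J j x b (b j), D.chi i y b) -
        #(D.ce J j x b (b j)) * ∑ y ∈ D.ce J j x b (b j + 1), D.chi i y b) / 2 := by
  rw [Dat.St, sum_congr rfl fun y hy => sum_del hEDGE D i (In_del D (.inl rfl) hy) _
    fun y' hy' => In_del D (.inr rfl) hy', ← sum_div, sum_sub_distrib, ← mul_sum, sum_const,
    nsmul_eq_mul]

theorem p_DEL (hEDGE : S_EDGE) (hBOX : S_BOX) :
    S_DEL := by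
  intro p m _ D J i j x b hj hx
  obtain ⟨hA, hs, -⟩ := (hBOX p m D J j x b).2.2 hj hx
  have hc : (#(D.A J x b) : ℝ) = #(D.ce J j x b (b j)) + #(D.ce J j x b (b j + 1)) := by
    simpa using hs fun _ => 1
  have hpos : (0 : ℝ) < #(D.ce J j x b (D.c x j)) := by
    rw [← hA]
    exact_mod_cast card_pos.2 ⟨x, Dat.self_mem_A _ hx⟩
  have h0 := sum_del hEDGE D i hx _ fun y (hy : y ∈ D.ce J j x b (b j)) =>
    In_del D (.inl rfl) hy
  have h1 := sum_del hEDGE D i hx _ fun y (hy : y ∈ D.ce J j x b (b j + 1)) =>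
    In_del D (.inr rfl) hy
  have hn : (0 : ℝ) ≤ #(D.ce J j x b (b j)) := Nat.cast_nonneg _
  have hn' : (0 : ℝ) ≤ #(D.ce J j x b (b j + 1)) := Nat.cast_nonneg _
  have hS := St_del hEDGE D J i j x b
  refine ⟨fun e => ?_, fun e => ?_⟩
  · rw [← e] at hA hpos ⊢
    have : (0 : ℝ) < #(D.ce J j x b (b j)) + #(D.ce J j x b (b j + 1)) := by linarith
    rw [Dat.del, Dat.psi, Dat.psi, Dat.g, hA, hs, hc, h0, h1, hS]
    field_simp
    ring
  · have e' : D.c x j = b j + 1 := by rw [e]; ring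
    rw [← e]
    rw [e'] at hA hpos ⊢
    clear e e'
    have : (0 : ℝ) < #(D.ce J j x b (b j)) + #(D.ce J j x b (b j + 1)) := by linarith
    rw [Dat.del, Dat.psi, Dat.psi, Dat.g, hA, hs, hc, h0, h1, hS]
    field_simp
    ring

end Pool.Agent.P.MP_263185_co.AL

end

section

/-! Step WIND. -/

namespace Pool.Agent.P.MP_263185_co.AL

open Finset
open scoped Classical

/-- the proportion of values different from `a` -/
noncomputable def mu_wind {p : ℕ} {C : Type} (v : C → ZMod p) (a : ZMod p) (A : Finset C) : ℝ :=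
  (∑ y ∈ A, if v y = a then (0 : ℝ) else 1) / #A

theorem step_wind (hEDGE : S_EDGE) {p : ℕ} (hp : 5 ≤ p) {C : Type} (v : C → ZMod p)
    (a a' : ZMod p) (A B : Finset C) (h1 : ∀ y ∈ A, ed a (v y)) (h2 : ∀ y ∈ B, ed a (v y))
    (h3 : ∀ y ∈ B, ed a' (v y)) (h : 0 < ∑ y ∈ A, ∑ y' ∈ B, lf (v y) (v y')) :
    ∃ t : ℕ, t ≤ 1 ∧ a' = a + t ∧ mu_wind v a A < mu_wind v a' B + t ∧
      (t = 1 → ∀ y ∈ B, v y = a') := by
  have e : ∑ y ∈ A, ∑ y' ∈ B, lf (v y) (v y') =
      #A * (∑ y ∈ B, if v y = a then (0 : ℝ) else 1) -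
        #B * ∑ y ∈ A, if v y = a then (0 : ℝ) else 1 := by
    rw [mul_sum A, ← nsmul_eq_mul, ← sum_const, ← sum_sub_distrib]
    refine sum_congr rfl fun y hy => ?_
    rw [← nsmul_eq_mul, ← sum_const, ← sum_sub_distrib]
    refine sum_congr rfl fun y' hy' => ?_
    rw [(hEDGE p hp).2.2.2.1 a _ _ (h1 y hy) (h2 y' hy')]
    split_ifs <;> norm_num
  have nn : ∀ (c : ZMod p) (D : Finset C), 0 ≤ ∑ y ∈ D, if v y = c then (0 : ℝ) else 1 :=
    fun c D => sum_nonneg fun y _ => by split_ifs <;> norm_num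
  have hA : (0 : ℝ) < #A := by
    rcases A.eq_empty_or_nonempty with rfl | n
    · simp at h
    · exact_mod_cast n.card_pos
  have hB : (0 : ℝ) < #B := by
    rcases B.eq_empty_or_nonempty with rfl | n
    · simp at h
    · exact_mod_cast n.card_pos
  rw [e] at h
  have lt : mu_wind v a A < mu_wind v a B := by
    rw [mu_wind, mu_wind, div_lt_div_iff₀ hA hB]
    linarith
  obtain ⟨y, hy, hv⟩ : ∃ y ∈ B, v y ≠ a := by
    by_contra n
    rw [sum_eq_zero (s := B) fun y hy => if_pos (by_contra fun k => n ⟨y, hy, k⟩)] at h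
    have := mul_nonneg hB.le (nn a A)
    linarith
  have hv' : v y = a + 1 := (h2 y hy).resolve_left hv
  rcases h3 y hy with k | k
  · obtain rfl : a' = a + 1 := k.symm.trans hv'
    refine ⟨1, le_rfl, by simp, ?_, fun _ z hz => ?_⟩
    · have b1 : mu_wind v a B ≤ 1 := by
        rw [mu_wind, div_le_one hB, card_eq_sum_ones, Nat.cast_sum]
        exact sum_le_sum fun y _ => by split_ifs <;> norm_num
      have b2 : 0 ≤ mu_wind v (a + 1) B := div_nonneg (nn _ _) hB.le
      rw [Nat.cast_one]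
      linarith
    · rcases h2 z hz with k1 | k1
      · rcases h3 z hz with k2 | k2
        · exact k2
        · exact (ne2 hp (by linear_combination k1 - k2)).elim
      · exact k1
  · obtain rfl : a' = a := add_right_cancel (k.symm.trans hv')
    exact ⟨0, zero_le_one, by simp, by simpa using lt, fun k => absurd k zero_ne_one⟩

theorem p_WIND (hEDGE : S_EDGE) :
    S_WIND := by
  intro p _ hp C ce v x h1 h2 h3
  choose t t1 t2 t3 t4 using fun r => step_wind hEDGE hp v (x r) (x (r + 1)) (ce r) (ce (r + 1))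
    (h1 r) (h2 r) (h1 (r + 1)) (h3 r)
  have s1 : 0 < ∑ r, t r := by
    have a := sum_lt_sum_of_nonempty (s := univ) ⟨0, mem_univ _⟩ fun r _ => t3 r
    have b : ∑ r, mu_wind v (x (r + 1)) (ce (r + 1)) = ∑ r, mu_wind v (x r) (ce r) :=
      Equiv.sum_comp (Equiv.addRight 1) fun r => mu_wind v (x r) (ce r)
    rw [sum_add_distrib, b, lt_add_iff_pos_right] at a
    exact_mod_cast a
  have s2 : ((∑ r, t r : ℕ) : ZMod p) = 0 := by
    have a : ∑ r, x (r + 1) = ∑ r, (x r + t r) := sum_congr rfl fun r _ => t2 r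
    have b : ∑ r, x (r + 1) = ∑ r, x r := Equiv.sum_comp (Equiv.addRight 1) x
    rw [sum_add_distrib, b, left_eq_add] at a
    rw [Nat.cast_sum, a]
  have s3 := Nat.le_of_dvd s1 ((ZMod.natCast_eq_zero_iff _ p).1 s2)
  have s4 : ∀ r, t r = 1 := fun r => by
    by_contra n
    have a : ∑ r, t r < ∑ _r : ZMod p, 1 :=
      sum_lt_sum (fun r _ => t1 r) ⟨r, mem_univ _, lt_of_le_of_ne (t1 r) n⟩
    rw [sum_const, card_univ, ZMod.card, smul_eq_mul, mul_one] at a
    omega
  have s5 : ∀ n : ℕ, x n = x 0 + n := fun n => by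
    induction n with
    | zero => simp
    | succ n ih => rw [Nat.cast_succ, t2, ih, s4, Nat.cast_one, add_assoc]
  refine ⟨x 0, fun r y hy => ?_⟩
  have a := t4 (r - 1) (s4 _) y (by rwa [sub_add_cancel])
  rw [sub_add_cancel] at a
  rw [a, ← ZMod.natCast_zmod_val r, s5]

end Pool.Agent.P.MP_263185_co.AL

end

section

/-! Step SGN. -/

namespace Pool.Agent.P.MP_263185_co.AL

open Finset
open scoped Classical

section
variable {p m : ℕ} [NeZero p] (D : Dat p m) (J : Finset (Fin m)) (i j : Fin m) (x : D.X)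
  (b : Fin m → ZMod p)

theorem box_sgn (r : ZMod p) (y : D.X) (h : y ∈ D.ce J j x b r ∨ y ∈ D.ce J j x b (r + 1)) :
    ed (D.a (Function.update b j r) i) (D.s y i) := by
  refine D.ha _ y (fun l => ?_) i
  have h1 : y ∈ D.Cy J j x b := h.elim (fun h => (mem_filter.1 h).1) fun h => (mem_filter.1 h).1
  by_cases e : l = j
  · subst e
    rw [Function.update_self]
    rcases h with h | h
    · exact .inl (mem_filter.1 h).2
    · exact .inr (mem_filter.1 h).2
  · rw [Function.update_of_ne e]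
    exact (Dat.mem_Cy.1 h1).2 l e

theorem core_sgn (h : ∀ r, D.St J i j x b r ≠ 0) :
    ∃ t, ∃ y ∈ D.ce J j x b t, ∃ y' ∈ D.ce J j x b (t + 2), cf (D.s y i) (D.s y' i) := by
  have hne : ∀ r, (D.ce J j x b r).Nonempty := fun r => by
    rcases (D.ce J j x b r).eq_empty_or_nonempty with e | e
    · exact absurd (by rw [Dat.St, e, sum_empty]) (h r)
    · exact e
  choose r hr using hne
  obtain ⟨t, ht⟩ := D.nw j r (fun t => (mem_filter.1 (hr t)).2) fun l hl t t' =>
    ((Dat.mem_Cy.1 (mem_filter.1 (hr t)).1).2 l hl).cf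
      ((Dat.mem_Cy.1 (mem_filter.1 (hr t')).1).2 l hl)
  exact ⟨t, _, hr t, _, hr (t + 2), ht i⟩

end

theorem p_SGN (hWIND : S_WIND) (hEDGE : S_EDGE) :
    S_SGN := by
  intro p m _ D J i j x b
  obtain ⟨-, -, -, -, h5, h6⟩ := hEDGE p D.hp
  constructor
  · by_contra hc
    have hs : ∀ r, 0 < D.St J i j x b r := fun r => by
      by_contra h
      exact hc ⟨r, div_nonpos_of_nonpos_of_nonneg (not_lt.1 h) (by positivity)⟩
    obtain ⟨x₀, hx⟩ := hWIND p D.hp D.X (D.ce J j x b) (fun y => D.s y i)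
      (fun r => D.a (Function.update b j r) i) (fun r y hy => box_sgn D J i j x b r y (.inl hy))
      (fun r y hy => box_sgn D J i j x b r y (.inr hy)) hs
    obtain ⟨t, y, hy, y', hy', h⟩ := core_sgn D J i j x b fun r => (hs r).ne'
    rw [hx _ _ hy, hx _ _ hy', ← add_assoc] at h
    exact (h6 _).1 h
  · by_contra hc
    have hs : ∀ r, D.St J i j x b r < 0 := fun r => by
      by_contra h
      exact hc ⟨r, div_nonneg (not_lt.1 h) (by positivity)⟩
    have hed : ∀ a z : ZMod p, ed a z → ed (-a - 1) (-z) := fun a z h => by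
      rcases h with rfl | rfl
      · right; ring
      · left; ring
    obtain ⟨x₀, hx⟩ := hWIND p D.hp D.X (D.ce J j x b) (fun y => -D.s y i)
      (fun r => -D.a (Function.update b j r) i - 1)
      (fun r y hy => hed _ _ (box_sgn D J i j x b r y (.inl hy)))
      (fun r y hy => hed _ _ (box_sgn D J i j x b r y (.inr hy))) fun r => by
        simp only [(h5 _ _).1, sum_neg_distrib]
        exact neg_pos.2 (hs r)
    obtain ⟨t, y, hy, y', hy', h⟩ := core_sgn D J i j x b fun r => (hs r).ne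
    have e : D.s y' i = D.s y i - 2 := by
      have a1 := hx _ _ hy
      have a2 := hx _ _ hy'
      linear_combination a1 - a2
    rw [e] at h
    exact (h6 _).2 h

end Pool.Agent.P.MP_263185_co.AL

end

section

/-! Step GOOD. -/

namespace Pool.Agent.P.MP_263185_co.AL

open Finset
open scoped Classical

theorem num_good {p : ℕ} [NeZero p] (n d : ZMod p → ℝ) (n0 G : ℝ) (h0 : 0 < n0)
    (hpos : ∀ r, 0 < n r) (hle : ∀ r, n r ≤ 2 * n0) (hG : |G| ≤ ∑ t, |d t|) :
    (G / n0) ^ 2 ≤ 4 * p ^ 2 * ((∑ r, n r * (d r / n r) ^ 2) / ∑ r, n r) := by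
  have p0 : (0 : ℝ) < p := by exact_mod_cast NeZero.pos p
  have hN0 : 0 < ∑ r, n r := sum_pos (fun r _ => hpos r) univ_nonempty
  have hN : ∑ r, n r ≤ p * (2 * n0) := by
    refine (sum_le_sum fun r _ => hle r).trans ?_
    simp [ZMod.card]
  have hT0 : 0 ≤ ∑ r, d r ^ 2 := sum_nonneg fun r _ => sq_nonneg _
  have hS : (∑ r, d r ^ 2) / (2 * n0) ≤ ∑ r, n r * (d r / n r) ^ 2 := by
    rw [sum_div]
    refine sum_le_sum fun r _ => ?_
    have := hpos r
    rw [show n r * (d r / n r) ^ 2 = d r ^ 2 / n r by field_simp]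
    exact div_le_div_of_nonneg_left (sq_nonneg _) this (hle r)
  have hG2 : G ^ 2 ≤ p * ∑ r, d r ^ 2 := by
    have h1 := sq_sum_le_card_mul_sum_sq (s := (univ : Finset (ZMod p))) (f := fun t => |d t|)
    simp only [sq_abs, card_univ, ZMod.card] at h1
    refine le_trans ?_ h1
    rw [← sq_abs G]
    exact pow_le_pow_left₀ (abs_nonneg _) hG 2
  have h2 : ((∑ r, d r ^ 2) / (2 * n0)) / (p * (2 * n0)) ≤
      (∑ r, n r * (d r / n r) ^ 2) / ∑ r, n r :=
    (div_le_div_of_nonneg_left (by positivity) hN0 hN).trans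
      (div_le_div_of_nonneg_right hS hN0.le)
  refine le_trans ?_ (mul_le_mul_of_nonneg_left h2 (by positivity))
  rw [show 4 * (p : ℝ) ^ 2 * ((∑ r, d r ^ 2) / (2 * n0) / (p * (2 * n0))) =
    (p * ∑ r, d r ^ 2) / n0 ^ 2 by field_simp; ring, div_pow]
  exact div_le_div_of_nonneg_right hG2 (by positivity)

theorem g_good (hBOX : S_BOX) {p m : ℕ} [NeZero p] (D : Dat p m) (J : Finset (Fin m))
    (i j : Fin m) (x y : D.X) (b : Fin m → ZMod p) (hy : y ∈ D.Cy J j x b) (t r : ZMod p) :
    D.g J i j y (Function.update b j t) r = D.g J i j x b r := by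
  have h := (hBOX p m D J j x b).2.1 y hy t
  simp only [Dat.g, Dat.St, h]

theorem in_good {p m : ℕ} [NeZero p] (D : Dat p m) (J : Finset (Fin m))
    (j : Fin m) (x y : D.X) (b : Fin m → ZMod p) (hy : y ∈ D.Cy J j x b) (t : ZMod p)
    (ht : ed t (D.c y j)) : D.In y (Function.update b j t) := fun l => by
  by_cases e : l = j
  · subst e
    simpa using ht
  · simpa only [Function.update_of_ne e] using (Dat.mem_Cy.1 hy).2 l e

theorem pair_good (hDEL : S_DEL) (hBOX : S_BOX) {p m : ℕ} [NeZero p] (D : Dat p m)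
    (J : Finset (Fin m)) (i j : Fin m) (x y : D.X) (b : Fin m → ZMod p) (hj : j ∉ J)
    (hx : D.In x b) (hy : y ∈ D.Cy J j x b) :
    D.del J i j y (D.tb j x b y) + D.del J i j y (D.fl j y (D.tb j x b y)) =
      (D.g J i j x b (D.c y j) - D.g J i j x b (D.c y j - 1)) / #(D.ce J j x b (D.c y j)) := by
  have e1 : D.del J i j y (Function.update b j (D.c y j)) =
      D.g J i j x b (D.c y j) / #(D.ce J j x b (D.c y j)) := by
    rw [(hDEL p m D J i j y _ hj (in_good D J j x y b hy _ (.inl rfl))).1 (by simp),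
      g_good hBOX D J i j x y b hy, (hBOX p m D J j x b).2.1 y hy]
  have e2 : D.del J i j y (Function.update b j (D.c y j - 1)) =
      -D.g J i j x b (D.c y j - 1) / #(D.ce J j x b (D.c y j)) := by
    rw [(hDEL p m D J i j y _ hj (in_good D J j x y b hy _ (.inr (by ring)))).2 (by simp),
      g_good hBOX D J i j x y b hy, (hBOX p m D J j x b).2.1 y hy]
  rcases hx j with h | h
  · have t1 : D.tb j x b y = Function.update b j (D.c y j) := by
      rw [Dat.tb, h]; congr 1; ring
    have t2 : D.fl j y (Function.update b j (D.c y j)) = Function.update b j (D.c y j - 1) := by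
      rw [Dat.fl, Function.update_idem, Function.update_self]; congr 1; ring
    rw [t1, t2, e1, e2]; ring
  · have t1 : D.tb j x b y = Function.update b j (D.c y j - 1) := by
      rw [Dat.tb, h]; congr 1; ring
    have t2 : D.fl j y (Function.update b j (D.c y j - 1)) = Function.update b j (D.c y j) := by
      rw [Dat.fl, Function.update_idem, Function.update_self]; congr 1; ring
    rw [t1, t2, e1, e2]; ring

theorem p_GOOD (hDEL : S_DEL) (hSGN : S_SGN) (hCYC : S_CYC) (hBOX : S_BOX) :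
    S_GOOD := by
  intro p m _ D J i j x b hj hx hg
  have hgd : ∀ r r', #(D.ce J j x b r) ≤ 2 * #(D.ce J j x b r') := hg.resolve_left hj
  have h0 : 0 < #(D.ce J j x b (D.c x j)) :=
    card_pos.2 ⟨x, mem_filter.2 ⟨Dat.self_mem_Cy J j hx, rfl⟩⟩
  have hpos : ∀ r, (0 : ℝ) < #(D.ce J j x b r) := fun r => by
    have := hgd (D.c x j) r
    exact_mod_cast (by omega : 0 < #(D.ce J j x b r))
  have hle : ∀ r, (#(D.ce J j x b r) : ℝ) ≤ 2 * #(D.ce J j x b (D.c x j)) := fun r => by
    exact_mod_cast hgd r (D.c x j)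
  have hG : ∀ r, |D.g J i j x b r| ≤ ∑ t, |D.g J i j x b t - D.g J i j x b (t - 1)| := fun r => by
    obtain ⟨⟨r1, h1⟩, r2, h2⟩ := hSGN p m D J i j x b
    have a1 := hCYC p (D.g J i j x b) r r1
    have a2 := hCYC p (D.g J i j x b) r2 r
    rw [abs_le]
    constructor <;> linarith
  have hS := (hBOX p m D J j x b).1
  have s1 : ∑ y ∈ D.Cy J j x b, (D.del J i j y (D.tb j x b y) +
      D.del J i j y (D.fl j y (D.tb j x b y))) ^ 2 = ∑ r, (#(D.ce J j x b r) : ℝ) *
        ((D.g J i j x b r - D.g J i j x b (r - 1)) / #(D.ce J j x b r)) ^ 2 := by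
    rw [hS]
    refine sum_congr rfl fun r _ => ?_
    rw [← nsmul_eq_mul, ← sum_const]
    refine sum_congr rfl fun y hy => ?_
    obtain ⟨hy1, hy2⟩ := mem_filter.1 hy
    rw [pair_good hDEL hBOX D J i j x y b hj hx hy1, hy2]
  have s2 : (#(D.Cy J j x b) : ℝ) = ∑ r, (#(D.ce J j x b r) : ℝ) := by
    simpa using hS fun _ => 1
  rw [s1, s2]
  have key := fun G hG => num_good (fun r => (#(D.ce J j x b r) : ℝ))
    (fun r => D.g J i j x b r - D.g J i j x b (r - 1)) _ G (hpos (D.c x j)) hpos hle hG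
  rcases hx j with h | h
  · rw [(hDEL p m D J i j x b hj hx).1 h.symm]
    exact key _ (hG _)
  · rw [(hDEL p m D J i j x b hj hx).2 (by rw [h]; ring)]
    exact key _ (by rw [abs_neg]; exact hG _)

end Pool.Agent.P.MP_263185_co.AL

end

section

/-! Step EG. -/

namespace Pool.Agent.P.MP_263185_co.AL

open Finset
open scoped Classical

theorem ind_nonneg_eg (P : Prop) : 0 ≤ ind P := by unfold ind; split_ifs <;> norm_num

theorem good_fl_eg (hBOX : S_BOX) {p m : ℕ} [NeZero p] (D : Dat p m) (J : Finset (Fin m))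
    (j : Fin m) (x : D.X) (b : Fin m → ZMod p) (h : D.In x b) :
    D.good J j x (D.fl j x b) ↔ D.good J j x b := by
  have h1 : ∀ r, D.ce J j x (D.fl j x b) r = D.ce J j x b r := fun r =>
    (hBOX p m D J j x b).2.1 x (Dat.self_mem_Cy J j h) _ r
  simp only [Dat.good, h1]

theorem term_eg (hEN : S_EN) (hGOOD : S_GOOD) (hAVJ : S_AVJ) (hBOX : S_BOX) {p m : ℕ} [NeZero p]
    (D : Dat p m) (J : Finset (Fin m)) (i j : Fin m) :
    D.E (fun x b => ind (D.good J j x b) *
        ((D.psi J i x b - D.psi J i x (D.fl j x b)) / 2) ^ 2) ≤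
      16 * p ^ 2 * D.E fun x b => ((D.del J i j x b + D.del J i j x (D.fl j x b)) / 2) ^ 2 := by
  by_cases hj : j ∈ J
  · have h0 : ∀ x b, D.del J i j x b = 0 := fun x b => by
      rw [Dat.del, insert_eq_of_mem hj, sub_self]
    have h1 : D.E (fun x b => ind (D.good J j x b) *
        ((D.psi J i x b - D.psi J i x (D.fl j x b)) / 2) ^ 2) = D.E fun _ _ => 0 :=
      Dat.E_congr fun x b h => by rw [(hEN p m D J).1 i j x b h, h0, h0]; simp
    rw [h1, Dat.E_const]
    exact mul_nonneg (by positivity) (Dat.E_nonneg fun _ _ _ => sq_nonneg _)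
  · have h1 : D.E (fun x b => ind (D.good J j x b) *
        ((D.psi J i x b - D.psi J i x (D.fl j x b)) / 2) ^ 2) ≤
        D.E fun x b => 1 / 2 * (ind (D.good J j x b) * D.del J i j x b ^ 2) +
          1 / 2 * (ind (D.good J j x (D.fl j x b)) * D.del J i j x (D.fl j x b) ^ 2) := by
      refine Dat.E_mono fun x b h => ?_
      rw [(hEN p m D J).1 i j x b h, good_fl_eg hBOX D J j x b h]
      have := mul_nonneg (ind_nonneg_eg (D.good J j x b))
        (sq_nonneg (D.del J i j x b + D.del J i j x (D.fl j x b)))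
      nlinarith
    have h2 : D.E (fun x b => ind (D.good J j x (D.fl j x b)) * D.del J i j x (D.fl j x b) ^ 2) =
        D.E fun x b => ind (D.good J j x b) * D.del J i j x b ^ 2 :=
      Dat.E_fl j fun x b => ind (D.good J j x b) * D.del J i j x b ^ 2
    have h3 : D.E (fun x b => ind (D.good J j x b) * D.del J i j x b ^ 2) ≤
        D.E fun x b => 4 * p ^ 2 * ((∑ y ∈ D.Cy J j x b, (D.del J i j y (D.tb j x b y) +
          D.del J i j y (D.fl j y (D.tb j x b y))) ^ 2) / #(D.Cy J j x b)) := by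
      refine Dat.E_mono fun x b h => ?_
      unfold ind
      split_ifs with hg
      · rw [one_mul]
        exact hGOOD p m D J i j x b hj h hg
      · rw [zero_mul]
        positivity
    have h4 := hAVJ p m D J j fun y b => (D.del J i j y b + D.del J i j y (D.fl j y b)) ^ 2
    have h5 : D.E (fun y b => (D.del J i j y b + D.del J i j y (D.fl j y b)) ^ 2) =
        D.E fun x b => 4 * ((D.del J i j x b + D.del J i j x (D.fl j x b)) / 2) ^ 2 :=
      Dat.E_congr fun x b _ => by ring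
    rw [Dat.E_add, Dat.E_mul, Dat.E_mul, h2] at h1
    rw [Dat.E_mul, h4, h5, Dat.E_mul] at h3
    linarith

theorem p_EG (hEN : S_EN) (hGOOD : S_GOOD) (hAVJ : S_AVJ) (hBOX : S_BOX) :
    S_EG := by
  intro p m _ D J
  rw [Dat.Eg, Dat.G, mul_sum]
  refine sum_le_sum fun i _ => ?_
  rw [mul_sum]
  exact sum_le_sum fun j _ => term_eg hEN hGOOD hAVJ hBOX D J i j

end Pool.Agent.P.MP_263185_co.AL

end

section

/-! Step CP. -/

namespace Pool.Agent.P.MP_263185_co.AL

open Finset
open scoped Classical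

theorem split_cp {m : ℕ} (F : (Fin (m + 1) → Bool) → ℝ) :
    cE F = cE fun β : Fin m → Bool => (F (Fin.cons false β) + F (Fin.cons true β)) / 2 := by
  have e : ∑ β, F β = ∑ q : Bool × (Fin m → Bool), F (Fin.cons q.1 q.2) :=
    (Equiv.sum_comp (Fin.consEquiv fun _ : Fin (m + 1) => Bool) F).symm
  rw [cE, cE, e, Fintype.sum_prod_type, Fintype.sum_bool, ← sum_div, sum_add_distrib, pow_succ]
  field_simp
  ring

theorem add_cp {m : ℕ} (F G : (Fin m → Bool) → ℝ) :
    cE (fun β => F β + G β) = cE F + cE G := by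
  rw [cE, cE, cE, sum_add_distrib, add_div]

theorem nonneg_cp {m : ℕ} (F : (Fin m → Bool) → ℝ) : 0 ≤ cE fun β => F β ^ 2 :=
  div_nonneg (sum_nonneg fun _ _ => sq_nonneg _) (by positivity)

theorem fb_zero_cp {m : ℕ} (t : Bool) (β : Fin m → Bool) :
    fb 0 (Fin.cons t β : Fin (m + 1) → Bool) = Fin.cons (!t) β := by
  simp [fb]

theorem fb_succ_cp {m : ℕ} (j : Fin m) (t : Bool) (β : Fin m → Bool) :
    fb j.succ (Fin.cons t β : Fin (m + 1) → Bool) = Fin.cons t (fb j β) := by
  simp [fb, Fin.cons_update]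

/-- the even part -/
noncomputable def ev_cp {m : ℕ} (f : (Fin (m + 1) → Bool) → ℝ) (β : Fin m → Bool) : ℝ :=
  (f (Fin.cons false β) + f (Fin.cons true β)) / 2

/-- the odd part -/
noncomputable def od_cp {m : ℕ} (f : (Fin (m + 1) → Bool) → ℝ) (β : Fin m → Bool) : ℝ :=
  (f (Fin.cons false β) - f (Fin.cons true β)) / 2

section
variable {m : ℕ} (f : (Fin (m + 1) → Bool) → ℝ)

theorem mean_cp : cE f = cE (ev_cp f) := split_cp f

theorem sq_cp : cE (fun β => f β ^ 2) =
    cE (fun β => ev_cp f β ^ 2) + cE fun β => od_cp f β ^ 2 := by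
  rw [split_cp, ← add_cp]
  refine congrArg cE (funext fun β => ?_)
  simp only [ev_cp, od_cp]
  ring

theorem dzero_cp : cE (fun β => cD 0 f β ^ 2) = cE fun β => od_cp f β ^ 2 := by
  rw [split_cp]
  refine congrArg cE (funext fun β => ?_)
  simp only [cD, od_cp, fb_zero_cp, Bool.not_false, Bool.not_true]
  ring

theorem azero_cp : cA 0 f = cE (od_cp f) := by
  rw [cA, split_cp]
  refine congrArg cE (funext fun β => ?_)
  simp only [od_cp, Fin.cons_zero, sg]
  simp
  ring

theorem dsucc_cp (j : Fin m) : cE (fun β => cD j.succ f β ^ 2) =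
    cE (fun β => cD j (ev_cp f) β ^ 2) + cE fun β => cD j (od_cp f) β ^ 2 := by
  rw [split_cp, ← add_cp]
  refine congrArg cE (funext fun β => ?_)
  simp only [cD, ev_cp, od_cp, fb_succ_cp]
  ring

theorem asucc_cp (j : Fin m) : cA j.succ f = cA j (ev_cp f) := by
  rw [cA, cA, split_cp]
  refine congrArg cE (funext fun β => ?_)
  simp only [ev_cp, Fin.cons_succ]
  ring

end

theorem zero_cp (f : (Fin 0 → Bool) → ℝ) : cE (fun β => f β ^ 2) - cE f ^ 2 = 0 := by
  simp [cE]

theorem poin_cp (m : ℕ) : ∀ f : (Fin m → Bool) → ℝ,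
    cE (fun β => f β ^ 2) - cE f ^ 2 ≤ ∑ j, cE fun β => cD j f β ^ 2 := by
  induction m with
  | zero => intro f; rw [zero_cp]; simp
  | succ m ih =>
    intro f
    rw [Fin.sum_univ_succ, dzero_cp, sq_cp, mean_cp]
    simp only [dsucc_cp, sum_add_distrib]
    have h1 := ih (ev_cp f)
    have h2 : 0 ≤ ∑ j, cE fun β => cD j (od_cp f) β ^ 2 := sum_nonneg fun j _ => nonneg_cp _
    linarith

theorem p_CP :
    S_CP := by
  intro m
  induction m with
  | zero => intro f; rw [zero_cp]; simp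
  | succ m ih =>
    intro f
    rw [Fin.sum_univ_succ, dzero_cp, azero_cp, sq_cp, mean_cp]
    simp only [dsucc_cp, asucc_cp, sum_add_distrib]
    have h1 := ih (ev_cp f)
    have h2 := poin_cp m (od_cp f)
    rw [sum_add_distrib] at h1
    linarith

end Pool.Agent.P.MP_263185_co.AL

end
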