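import Pool.Agent.P.MP_263185_co.AL.Iface

section

/-! Step CA. -/

namespace Pool.Agent.P.MP_263185_co.AL

open Finset
open scoped Classical

theorem cs_ca {m : ℕ} (u v : (Fin m → Bool) → ℝ) :
    cE (fun β => u β * v β) ^ 2 ≤ cE (fun β => u β ^ 2) * cE (fun β => v β ^ 2) := by
  rw [cE, cE, cE, div_pow, div_mul_div_comm, ← sq]
  exact div_le_div_of_nonneg_right (sum_mul_sq_le_sq_mul_sq _ _ _) (by positivity)

theorem one_ca {m : ℕ} : cE (fun _ : Fin m → Bool => (1 : ℝ)) = 1 := by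
  simp [cE]

theorem sg_ca (t : Bool) : sg t ^ 2 = 1 := by
  cases t <;> simp [sg]

theorem add_ca {m : ℕ} (u v : (Fin m → Bool) → ℝ) :
    cE (fun β => u β + v β) = cE u + cE v := by
  rw [cE, cE, cE, sum_add_distrib, add_div]

theorem cA_ca {m : ℕ} (f : (Fin m → Bool) → ℝ) (j : Fin m) :
    cA j f = cE fun β => cD j f β * sg (β j) := by
  have h := cE_fb j fun β => f β * sg (β j)
  have e : ∀ β : Fin m → Bool, sg (fb j β j) = -sg (β j) := fun β => by
    cases h : β j <;> simp [fb, sg, h]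
  simp only [e, cE, mul_neg, sum_neg_distrib] at h
  simp only [cA, cE, cD, div_mul_eq_mul_div, sub_mul, ← sum_div, sum_sub_distrib]
  rw [neg_div] at h
  rw [div_right_comm, sub_div]
  linarith

theorem p_CA :
    S_CA := by
  intro m f j gd
  rw [cA_ca]
  constructor
  · have := cs_ca (cD j f) fun β => sg (β j)
    simpa only [sg_ca, one_ca, mul_one] using this
  · have e : (fun β => cD j f β * sg (β j)) = fun β => ind (gd β) * cD j f β * sg (β j) +
        ind (¬ gd β) * sg (β j) * cD j f β := funext fun β => by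
      by_cases h : gd β <;> simp [ind, h, mul_comm]
    have i2 : ∀ P : Prop, ind P ^ 2 = ind P := fun P => by
      by_cases h : P <;> simp [ind, h]
    have h1 := cs_ca (fun β => ind (gd β) * cD j f β) fun β => sg (β j)
    have h2 := cs_ca (fun β => ind (¬ gd β) * sg (β j)) (cD j f)
    simp only [mul_pow, sg_ca, one_ca, mul_one, i2] at h1 h2
    rw [e, add_ca]
    nlinarith [sq_nonneg (cE (fun β => ind (gd β) * cD j f β * sg (β j)) -
      cE fun β => ind (¬ gd β) * sg (β j) * cD j f β)]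

end Pool.Agent.P.MP_263185_co.AL

end

section

/-! Step CUB. -/

namespace Pool.Agent.P.MP_263185_co.AL

open Finset
open scoped Classical

theorem cE_nonneg_cub {m : ℕ} {f : (Fin m → Bool) → ℝ} (h : ∀ β, 0 ≤ f β) : 0 ≤ cE f :=
  div_nonneg (sum_nonneg fun β _ => h β) (by positivity)

theorem ind_nonneg_cub (P : Prop) : 0 ≤ ind P := by
  unfold ind; split_ifs <;> norm_num

theorem one_cub (hCP : S_CP) (hCA : S_CA) {m : ℕ} (f : (Fin m → Bool) → ℝ) :
    cE (fun β => f β ^ 2) - cE f ^ 2 ≤ ∑ j, cE fun β => cD j f β ^ 2 := by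
  have h1 := hCP m f
  have h2 : ∑ j, (cE (fun β => cD j f β ^ 2) + cA j f ^ 2) ≤
      ∑ j, 2 * cE (fun β => cD j f β ^ 2) :=
    sum_le_sum fun j _ => by have := (hCA m f j fun _ => True).1; linarith
  rw [← mul_sum] at h2
  linarith

theorem two_cub (hCP : S_CP) (hCA : S_CA) {m : ℕ} (f : (Fin m → Bool) → ℝ)
    (gd : Fin m → (Fin m → Bool) → Prop) (U : Finset (Fin m))
    (hU : ∀ j, j ∉ U → cE (fun β => ind (¬ gd j β)) ≤ 1 / 8) :
    2 * cE (fun β => f β ^ 2) ≤ 2 * (cE f ^ 2 + ∑ j ∈ U, cA j f ^ 2) +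
      5 / 4 * (∑ j, cE fun β => cD j f β ^ 2) +
      2 * ∑ j, cE fun β => ind (gd j β) * cD j f β ^ 2 := by
  have h1 := hCP m f
  have h2 : ∑ j, (cE (fun β => cD j f β ^ 2) + cA j f ^ 2) ≤
      ∑ j, ((if j ∈ U then cA j f ^ 2 else 0) + 5 / 4 * cE (fun β => cD j f β ^ 2) +
        2 * cE fun β => ind (gd j β) * cD j f β ^ 2) := by
    refine sum_le_sum fun j _ => ?_
    have a1 : 0 ≤ cE fun β => cD j f β ^ 2 := cE_nonneg_cub fun _ => sq_nonneg _
    have a2 : 0 ≤ cE fun β => ind (gd j β) * cD j f β ^ 2 :=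
      cE_nonneg_cub fun _ => mul_nonneg (ind_nonneg_cub _) (sq_nonneg _)
    split_ifs with h
    · linarith
    · have a3 := (hCA m f j (gd j)).2
      have a4 := mul_le_mul_of_nonneg_right (hU j h) a1
      linarith
  rw [sum_add_distrib (f := fun j => (if j ∈ U then cA j f ^ 2 else 0) +
    5 / 4 * cE (fun β => cD j f β ^ 2)), sum_add_distrib (f := fun j =>
    (if j ∈ U then cA j f ^ 2 else 0)), ← mul_sum, ← mul_sum, sum_ite_mem, univ_inter] at h2
  have h3 : 0 ≤ ∑ j ∈ U, cA j f ^ 2 := sum_nonneg fun _ _ => sq_nonneg _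
  linarith

section
variable {p m : ℕ} [NeZero p] {D : Dat p m}

theorem xE_mono_cub {f g : D.X → ℝ} (h : ∀ x, f x ≤ g x) : D.xE f ≤ D.xE g :=
  div_le_div_of_nonneg_right (sum_le_sum fun x _ => h x) Dat.card_pos.le

theorem xE_add_cub (f g : D.X → ℝ) : D.xE (fun x => f x + g x) = D.xE f + D.xE g := by
  simp only [Dat.xE, sum_add_distrib, add_div]

theorem xE_mul_cub (t : ℝ) (f : D.X → ℝ) : D.xE (fun x => t * f x) = t * D.xE f := by
  simp only [Dat.xE, ← mul_sum, mul_div_assoc]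

theorem xE_sum_cub (F : Fin m → D.X → ℝ) :
    D.xE (fun x => ∑ j, F j x) = ∑ j, D.xE (F j) := by
  simp only [Dat.xE]
  rw [← sum_div, sum_comm]

end

theorem p_CUB (hCP : S_CP) (hCA : S_CA) :
    S_CUB := by
  intro p m _ D J
  have hD : ∀ (i j : Fin m) (x : D.X) (β : Fin m → Bool),
      (D.psi J i x (D.bx x β) - D.psi J i x (D.fl j x (D.bx x β))) / 2 =
        cD j (fun β => D.psi J i x (D.bx x β)) β := fun i j x β => by
    simp only [cD, Dat.bx_fb]
  constructor
  · rw [sub_le_iff_le_add, Dat.e, Dat.Aw, Dat.En, ← sum_add_distrib]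
    refine sum_le_sum fun i _ => ?_
    simp only [Dat.E, hD]
    rw [← xE_sum_cub, ← xE_add_cub]
    refine xE_mono_cub fun x => ?_
    have h1 := one_cub hCP hCA fun β => D.psi J i x (D.bx x β)
    have h3 : 0 ≤ ∑ j ∈ D.U J x, cA j (fun β => D.psi J i x (D.bx x β)) ^ 2 :=
      sum_nonneg fun _ _ => sq_nonneg _
    linarith
  · rw [Dat.e, Dat.Aw, Dat.En, Dat.Eg, mul_sum, mul_sum, mul_sum, mul_sum, ← sum_add_distrib,
      ← sum_add_distrib]
    refine sum_le_sum fun i _ => ?_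
    simp only [Dat.E, hD]
    rw [← xE_sum_cub, ← xE_sum_cub, ← xE_mul_cub, ← xE_mul_cub, ← xE_mul_cub, ← xE_mul_cub,
      ← xE_add_cub, ← xE_add_cub]
    refine xE_mono_cub fun x => ?_
    exact two_cub hCP hCA (fun β => D.psi J i x (D.bx x β))
      (fun j β => D.good J j x (D.bx x β)) (D.U J x) fun j hj => by
        simp only [Dat.U, mem_filter, mem_univ, true_and, not_le] at hj
        exact hj.le

end Pool.Agent.P.MP_263185_co.AL

end

section

/-! Step FIN. -/

namespace Pool.Agent.P.MP_263185_co.AL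

open Finset
open scoped Classical

theorem p_FIN (hGREEDY : S_GREEDY) (hPSI : S_PSI) (hMART : S_MART) (hUM : S_UM) (hLN : S_LN) (hUU : S_UU) (hAU : S_AU) (hEN : S_EN) (hEG : S_EG) (hCUB : S_CUB) :
    S_FIN := by
  intro p m _ D K ζ K0 Km h1 h2 h3
  obtain ⟨d0, f0, -⟩ := hLN p m D
  have Kp : (0 : ℝ) < K := by exact_mod_cast K0
  have mp : (0 : ℝ) < m := by exact_mod_cast K0.trans_le Km
  have s0 : ∀ J, 0 ≤ ∑ i, D.E fun x b => D.M J i x b ^ 2 := fun J =>
    sum_nonneg fun i _ => Dat.E_nonneg fun _ _ _ => sq_nonneg _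
  obtain ⟨J, hJ, hj⟩ := hGREEDY m K D.e ((K + (4 * D.df + 2 * D.phi)) / 4) K0 Km (by positivity)
    fun J hJ => by
      have a := hUM p m D J
      rw [hJ] at a
      rw [(hPSI p m D ∅).2, (hPSI p m D J).2]
      linarith [s0 ∅]
  have hJ' : (#J : ℝ) ≤ K := by exact_mod_cast hJ.le
  have a1 : D.Dr J ≤ m * ((K + (4 * D.df + 2 * D.phi)) / 4 / K) := by
    rw [Dat.Dr, sum_comm]
    refine (sum_le_card_nsmul _ _ _ fun j _ => (hMART p m D J j).ge.trans (hj j)).trans ?_
    rw [card_univ, Fintype.card_fin, nsmul_eq_mul]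
  have a2 : m * ((K + (4 * D.df + 2 * D.phi)) / 4 / K) ≤ m / 4 + ζ * m / 4 := by
    rw [← mul_div_assoc, div_le_iff₀ Kp]
    linarith
  have a3 := (hPSI p m D J).2
  have a4 := hUM p m D J
  have a5 := hAU p m D J
  have a6 := hUU p m D J
  obtain ⟨-, a7, a8⟩ := hEN p m D J
  obtain ⟨a9, a10⟩ := hCUB p m D J
  have b1 : D.G J ≤ 2 * (ζ * m) := by linarith
  have b2 := (hEG p m D J).trans (mul_le_mul_of_nonneg_left b1 (by positivity))
  have b3 : 0 ≤ (p : ℝ) ^ 2 * (ζ * m) := mul_nonneg (sq_nonneg _) (by linarith)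
  refine le_of_mul_le_mul_right ?_ mp
  linarith

end Pool.Agent.P.MP_263185_co.AL

end

section

/-! Step QQ. -/

namespace Pool.Agent.P.MP_263185_co.AL

open Finset
open scoped Classical

theorem p_QQ (hEDGE : S_EDGE) :
    S_QQ := by
  intro p m hp X _ t b b' ht
  let T : Fin m → Finset (ZMod p) := fun l => ({b l, b l + 1} : Finset _).filter (ed (b' l))
  have h1 : #(univ.filter fun x => (∀ l, ed (b l) (t x l)) ∧ ∀ l, ed (b' l) (t x l)) ≤
      ∏ l, #(T l) := by
    rw [← Fintype.card_piFinset]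
    refine card_le_card_of_injOn t (fun x hx => ?_) ht.injOn
    have hx' := (mem_filter.1 (mem_coe.1 hx)).2
    refine mem_coe.2 (Fintype.mem_piFinset.2 fun l => mem_filter.2 ⟨?_, hx'.2 l⟩)
    simpa [ed] using hx'.1 l
  have h2 : ∀ l, #(T l) * (if b' l ≠ b l then 2 else 1) ≤ 2 := fun l => by
    split_ifs with h
    · have : #(T l) ≤ 1 := card_le_one.2 fun x hx y hy => by
        by_contra e
        obtain ⟨a1, a2⟩ := mem_filter.1 hx
        obtain ⟨a3, a4⟩ := mem_filter.1 hy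
        exact h ((hEDGE p hp).2.1 _ _ x y e a2 a4 (by simpa [ed] using a1) (by simpa [ed] using a3))
      omega
    · rw [mul_one]; exact (card_filter_le _ _).trans card_le_two
  calc _ ≤ (∏ l, #(T l)) * ∏ l, (if b' l ≠ b l then 2 else 1) := by
        rw [prod_ite, prod_const, prod_const_one, mul_one]; gcongr
    _ ≤ ∏ _l : Fin m, 2 := by rw [← prod_mul_distrib]; exact prod_le_prod' fun l _ => h2 l
    _ = 2 ^ m := by simp

end Pool.Agent.P.MP_263185_co.AL

end

section

/-! Step AVF. -/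

namespace Pool.Agent.P.MP_263185_co.AL

open Finset
open scoped Classical

theorem fib_avf {α γ : Type} (B : Finset α) (a : α → γ) (f : α → ℝ) :
    ∑ b ∈ B, (∑ b' ∈ B.filter (fun b' => a b' = a b), f b') / #(B.filter fun b' => a b' = a b) =
      ∑ b ∈ B, f b := by
  have h1 : ∀ b ∈ B, (∑ b' ∈ B.filter (fun b' => a b' = a b), f b') /
      #(B.filter fun b' => a b' = a b) =
      ∑ b' ∈ B, if a b' = a b then f b' / #(B.filter fun c => a c = a b') else 0 := by
    intro b _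
    rw [sum_div, sum_filter]
    refine sum_congr rfl fun b' _ => ?_
    split_ifs with h
    · rw [h]
    · rfl
  rw [sum_congr rfl h1, sum_comm]
  refine sum_congr rfl fun b' hb' => ?_
  rw [← sum_filter, sum_const, nsmul_eq_mul]
  have e : (B.filter fun b => a b' = a b) = B.filter fun c => a c = a b' :=
    filter_congr fun c _ => eq_comm
  have hpos : (0 : ℝ) < #(B.filter fun c => a c = a b') := by
    have : 0 < #(B.filter fun c => a c = a b') := card_pos.2 ⟨b', mem_filter.2 ⟨hb', rfl⟩⟩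
    exact_mod_cast this
  rw [e]
  field_simp

theorem p_AVF (hSW : S_SW) :
    S_AVF := by
  intro p m _ D f
  have key : ∀ (x : D.X) (F : (Fin m → ZMod p) → ℝ),
      ∑ β, F (D.bx x β) = ∑ b ∈ univ.filter (fun b => D.In x b), F b := by
    intro x F
    obtain ⟨h1, h2⟩ := (hSW p m D f).2 x
    refine sum_bij (fun β _ => D.bx x β) (fun β _ => mem_filter.2 ⟨mem_univ _, Dat.In_bx x β⟩)
      (fun β _ β' _ h => h1 h) (fun b hb => ?_) (fun _ _ => rfl)
    obtain ⟨β, hβ⟩ := h2 b (mem_filter.1 hb).2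
    exact ⟨β, mem_univ _, hβ⟩
  rw [Dat.E_eq, Dat.E_eq]
  congr 1
  refine sum_congr rfl fun x _ => ?_
  rw [key x (fun b => (∑ b' ∈ D.Fs x b, f x b') / #(D.Fs x b)), key x (f x),
    ← fib_avf (univ.filter fun b => D.In x b) D.a (f x)]
  refine sum_congr rfl fun b _ => ?_
  have e : D.Fs x b = (univ.filter fun b => D.In x b).filter fun b' => D.a b' = D.a b := by
    rw [Dat.Fs, filter_filter]
  rw [e]
  convert rfl

end Pool.Agent.P.MP_263185_co.AL

end

section

/-! Step EA. -/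

set_option linter.unusedSectionVars false

namespace Pool.Agent.P.MP_263185_co.AL

open Finset
open scoped Classical

section
variable {p m : ℕ} [NeZero p] (D : Dat p m)

theorem N_pos_ea {x : D.X} {b : Fin m → ZMod p} (h : D.In x b) : (0 : ℝ) < D.N b := by
  exact_mod_cast card_pos.2 ⟨x, by simpa using h⟩

theorem F_pos_ea {x : D.X} {b : Fin m → ZMod p} (h : D.In x b) : (0 : ℝ) < #(D.Fs x b) := by
  exact_mod_cast card_pos.2 ⟨b, by simpa [Dat.Fs] using h⟩

theorem V_pos_ea {x : D.X} {b : Fin m → ZMod p} (h : D.In x b) : (0 : ℝ) < D.V b :=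
  (N_pos_ea D h).trans_le (by
    exact_mod_cast single_le_sum (f := D.N) (fun _ _ => Nat.zero_le _) (by simp))

/-- the weight of a triple -/
noncomputable def q_ea (b b' : Fin m → ZMod p) : ℝ :=
  D.N b * D.N b' * 2 ^ #(univ.filter fun l => b' l ≠ b l) / (D.V b * 2 ^ m)

theorem sum_q_ea (hQQ : S_QQ) (b : Fin m → ZMod p) :
    ∑ x ∈ univ.filter (fun y => D.In y b), ∑ b' ∈ D.Fs x b, q_ea D b b' ≤ D.N b := by
  rw [sum_comm' (t' := univ.filter fun b' => D.a b' = D.a b)
    (s' := fun b' => univ.filter fun x => D.In x b ∧ D.In x b') (by simp [Dat.Fs]; tauto)]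
  rcases Nat.eq_zero_or_pos (D.V b) with h0 | h0
  · simp [q_ea, h0]
  have h1 : (0 : ℝ) < D.V b := by exact_mod_cast h0
  refine (sum_le_sum (g := fun b' => (D.N b / D.V b : ℝ) * D.N b') fun b' _ => ?_).trans ?_
  · have h2 : ((#(univ.filter fun x => D.In x b ∧ D.In x b') : ℕ) : ℝ) *
        2 ^ #(univ.filter fun l => b' l ≠ b l) ≤ 2 ^ m := by
      have h3 := le_trans (Nat.mul_le_mul_right _ (card_le_card
        (s := univ.filter fun x => D.In x b ∧ D.In x b') fun x hx => by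
          rw [mem_filter] at hx ⊢; exact hx)) (hQQ p m D.hp D.X D.c b b' D.cinj)
      exact_mod_cast h3
    rw [sum_const, nsmul_eq_mul, q_ea, ← mul_div_assoc, div_le_iff₀ (by positivity)]
    calc _ = (D.N b * D.N b' : ℝ) * (#(univ.filter fun x => D.In x b ∧ D.In x b') *
          2 ^ #(univ.filter fun l => b' l ≠ b l)) := by ring
      _ ≤ (D.N b * D.N b' : ℝ) * 2 ^ m := by gcongr
      _ = _ := by field_simp
  · rw [← mul_sum, ← Nat.cast_sum, ← Dat.V, div_mul_cancel₀ _ h1.ne']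

end

theorem p_EA (hSW : S_SW) (hQQ : S_QQ) (hAVF : S_AVF) :
    S_EA := by
  intro p m _ D
  have h1 : D.E (fun x b => ∑ b' ∈ D.Fs x b, q_ea D b b') ≤ 1 := by
    rw [Dat.E_eq, (hSW p m D fun x b => ∑ b' ∈ D.Fs x b, q_ea D b b').1,
      div_le_one (mul_pos Dat.card_pos (by positivity))]
    refine (sum_le_sum fun b _ => sum_q_ea D hQQ b).trans ?_
    have := (hSW p m D fun _ _ => (1 : ℝ)).1
    simp only [sum_const, card_univ, Fintype.card_fun, Fintype.card_bool, Fintype.card_fin,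
      nsmul_eq_mul, mul_one] at this
    simp only [Dat.N]
    rw [← this]; push_cast; rfl
  have h2 : ∀ x b, D.In x b → Real.log (D.N b) +
      (∑ b' ∈ D.Fs x b, Real.log (D.N b')) / #(D.Fs x b) + Real.log #(D.Fs x b) -
      Real.log (D.V b) + (Real.log 2 *
        ((∑ b' ∈ D.Fs x b, (#(univ.filter fun l => b' l ≠ b l) : ℝ)) / #(D.Fs x b)) -
          m * Real.log 2) ≤ ∑ b' ∈ D.Fs x b, q_ea D b b' - 1 := by
    intro x b h
    have f0 := F_pos_ea D h
    have n0 := N_pos_ea D h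
    have v0 := V_pos_ea D h
    have h3 : ∀ b' ∈ D.Fs x b, Real.log (D.N b) + Real.log (D.N b') + Real.log #(D.Fs x b) -
        Real.log (D.V b) + (Real.log 2 * #(univ.filter fun l => b' l ≠ b l) - m * Real.log 2) ≤
        #(D.Fs x b) * q_ea D b b' - 1 := by
      intro b' hb
      have n1 := N_pos_ea D (mem_filter.1 hb).2.1
      have h4 := Real.log_le_sub_one_of_pos
        (show 0 < #(D.Fs x b) * q_ea D b b' by unfold q_ea; positivity)
      rw [q_ea, Real.log_mul f0.ne' (by positivity), Real.log_div (by positivity) (by positivity),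
        Real.log_mul (by positivity) (by positivity), Real.log_mul n0.ne' n1.ne',
        Real.log_mul v0.ne' (by positivity), Real.log_pow, Real.log_pow] at h4
      rw [q_ea]; linarith
    have h5 := sum_le_sum h3
    simp only [sum_add_distrib, sum_sub_distrib, sum_const, nsmul_eq_mul, ← mul_sum] at h5
    rw [← mul_le_mul_iff_right₀ f0]
    convert h5 using 1
    · field_simp
    · ring
  have h6 := Dat.E_mono h2
  simp only [Dat.E_add, Dat.E_sub, Dat.E_mul, Dat.E_const] at h6 ⊢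
  rw [hAVF p m D fun _ b => Real.log (D.N b), ← Dat.Ed] at h6
  linarith

end Pool.Agent.P.MP_263185_co.AL

end

section

/-! Step EB. -/

namespace Pool.Agent.P.MP_263185_co.AL

open Finset
open scoped Classical

theorem key_eb (hQQ : S_QQ) {p m : ℕ} [NeZero p] (D : Dat p m) (b' : Fin m → ZMod p) :
    ∑ b, ∑ x ∈ univ.filter (fun y => D.In y b),
      (if D.a b' = D.a b then (1 : ℝ) else 0) / #(D.Fs x b) ≤ 2 ^ m := by
  have h1 := hQQ p m D.hp D.X D.s (D.a b') (D.a b') D.sinj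
  simp only [and_self, ne_eq, not_true_eq_false, filter_false, card_empty, pow_zero,
    mul_one] at h1
  refine le_trans ?_ (show (#(univ.filter fun x => ∀ l, ed (D.a b' l) (D.s x l)) : ℝ) ≤ 2 ^ m by
    exact_mod_cast h1)
  simp only [sum_filter]
  rw [sum_comm, card_filter, Nat.cast_sum]
  refine sum_le_sum fun x _ => ?_
  have e : ∀ b, (if D.In x b then (if D.a b' = D.a b then (1 : ℝ) else 0) / #(D.Fs x b) else 0) =
      if D.In x b ∧ D.a b = D.a b' then 1 / (#(D.Fs x b') : ℝ) else 0 := fun b => by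
    by_cases h : D.In x b
    · by_cases h' : D.a b = D.a b'
      · simp [h, h', Dat.Fs]
      · simp [h, h', Ne.symm h']
    · simp [h]
  simp only [e]
  rw [← sum_filter, sum_const, nsmul_eq_mul]
  change (#(D.Fs x b') : ℝ) * _ ≤ _
  rcases (D.Fs x b').eq_empty_or_nonempty with h | ⟨b, hb⟩
  · rw [h, card_empty, Nat.cast_zero, zero_mul]; positivity
  · have hb' := mem_filter.1 hb
    have : (#(D.Fs x b') : ℝ) ≠ 0 := by exact_mod_cast (card_pos.2 ⟨b, hb⟩).ne'
    rw [if_pos (hb'.2.2 ▸ D.ha b x hb'.2.1), mul_one_div_cancel this, Nat.cast_one]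

theorem p_EB (hSW : S_SW) (hQQ : S_QQ) :
    S_EB := by
  intro p m _ D
  have hn : (0 : ℝ) < Fintype.card D.X * 2 ^ m := mul_pos Dat.card_pos (by positivity)
  have hN : ∑ b, (D.N b : ℝ) = Fintype.card D.X * 2 ^ m := by
    have := (hSW p m D fun _ _ => 1).1
    simp only [sum_const, card_univ, nsmul_eq_mul, mul_one, Fintype.card_fun, Fintype.card_bool,
      Fintype.card_fin, Nat.cast_pow, Nat.cast_ofNat] at this
    exact this.symm
  have h1 : D.E (fun x b => (D.V b : ℝ) / #(D.Fs x b)) ≤ 2 ^ m := by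
    rw [Dat.E_eq, div_le_iff₀ hn, (hSW p m D fun x b => (D.V b : ℝ) / #(D.Fs x b)).1, ← hN,
      mul_sum]
    have e : ∀ b, ∑ x ∈ univ.filter (fun y => D.In y b), (D.V b : ℝ) / #(D.Fs x b) =
        ∑ b', (∑ x ∈ univ.filter (fun y => D.In y b),
          (if D.a b' = D.a b then (1 : ℝ) else 0) / #(D.Fs x b)) * D.N b' := fun b => by
      simp only [sum_mul]
      rw [sum_comm]
      refine sum_congr rfl fun x _ => ?_
      rw [Dat.V, sum_filter, Nat.cast_sum, sum_div]
      refine sum_congr rfl fun b' _ => ?_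
      split_ifs <;> simp [div_eq_inv_mul]
    simp only [e]
    rw [sum_comm]
    refine sum_le_sum fun b' _ => ?_
    rw [← sum_mul]
    exact mul_le_mul_of_nonneg_right (key_eb hQQ D b') (Nat.cast_nonneg _)
  have h2 : D.E (fun x b => Real.log (D.V b) - Real.log #(D.Fs x b)) ≤
      D.E fun x b => (m * Real.log 2 - 1) + (2 ^ m)⁻¹ * ((D.V b : ℝ) / #(D.Fs x b)) := by
    refine Dat.E_mono fun x b h => ?_
    have a1 : (0 : ℝ) < #(D.Fs x b) := by
      have : b ∈ D.Fs x b := mem_filter.2 ⟨mem_univ _, h, rfl⟩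
      exact_mod_cast card_pos.2 ⟨b, this⟩
    have a2 : (0 : ℝ) < D.V b := by
      have : 0 < D.N b := card_pos.2 ⟨x, mem_filter.2 ⟨mem_univ _, h⟩⟩
      have h' : D.N b ≤ D.V b := single_le_sum (f := D.N) (fun _ _ => Nat.zero_le _)
        (mem_filter.2 ⟨mem_univ b, rfl⟩)
      exact_mod_cast this.trans_le h'
    have := Real.log_le_sub_one_of_pos (mul_pos (inv_pos.2 (pow_pos two_pos m)) (div_pos a2 a1))
    rw [Real.log_mul (by positivity) (by positivity), Real.log_div a2.ne' a1.ne', Real.log_inv,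
      Real.log_pow] at this
    linarith
  rw [Dat.E_add, Dat.E_const, Dat.E_mul] at h2
  have h3 : (2 ^ m : ℝ)⁻¹ * D.E (fun x b => (D.V b : ℝ) / #(D.Fs x b)) ≤ 1 := by
    rw [inv_mul_le_iff₀ (by positivity), mul_one]; exact h1
  linarith

end Pool.Agent.P.MP_263185_co.AL

end

section

/-! Step EC. -/

namespace Pool.Agent.P.MP_263185_co.AL

open Finset
open scoped Classical

theorem pair_ec {α : Type} (u v b : α) (hb : b = u ∨ b = v) {z : ℝ} (hz : 0 < z) :
    ∑ t ∈ ({u, v} : Finset α), (if t = b then (1 : ℝ) else z) ≤ 1 + z := by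
  by_cases h : u = v
  · subst h
    have hbu : u = b := by rcases hb with h | h <;> exact h.symm
    simp [hbu, hz.le]
  · rw [sum_pair h]
    rcases hb with rfl | rfl
    · simp [Ne.symm h]
    · simp [h, add_comm]

theorem pow_ec {α : Type} {m : ℕ} (b b' : Fin m → α) (z : ℝ) :
    z ^ #(univ.filter fun l => b' l ≠ b l) = ∏ l, (if b' l = b l then (1 : ℝ) else z) := by
  rw [← prod_const, prod_filter]
  exact prod_congr rfl fun l _ => by by_cases h : b' l = b l <;> simp [h]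

theorem sum_ec {α : Type} {m : ℕ} (u v b : Fin m → α) (hb : ∀ l, b l = u l ∨ b l = v l)
    (F : Finset (Fin m → α)) (hF : ∀ b' ∈ F, ∀ l, b' l = u l ∨ b' l = v l) {z : ℝ} (hz : 0 < z) :
    ∑ b' ∈ F, z ^ #(univ.filter fun l => b' l ≠ b l) ≤ (1 + z) ^ m := by
  simp only [pow_ec]
  calc ∑ b' ∈ F, ∏ l, (if b' l = b l then (1 : ℝ) else z)
      ≤ ∑ b' ∈ Fintype.piFinset (fun l => ({u l, v l} : Finset α)),
          ∏ l, (if b' l = b l then (1 : ℝ) else z) := by
        refine sum_le_sum_of_subset_of_nonneg (fun b' h => ?_) fun b' _ _ => ?_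
        · exact Fintype.mem_piFinset.2 fun l => by simpa using hF b' h l
        · exact prod_nonneg fun l _ => by split_ifs <;> positivity
    _ = ∏ l, ∑ t ∈ ({u l, v l} : Finset α), (if t = b l then (1 : ℝ) else z) :=
        (prod_univ_sum (fun l => ({u l, v l} : Finset α))
          fun l t => if t = b l then (1 : ℝ) else z).symm
    _ ≤ ∏ _l : Fin m, (1 + z) :=
        prod_le_prod (fun l _ => sum_nonneg fun t _ => by split_ifs <;> positivity)
          fun l _ => pair_ec _ _ _ (hb l) hz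
    _ = (1 + z) ^ m := by simp

theorem point_ec {ι : Type} (F : Finset ι) (hne : F.Nonempty) (d : ι → ℕ) (m : ℕ) {z : ℝ}
    (hz : 0 < z) (h : ∑ i ∈ F, z ^ d i ≤ (1 + z) ^ m) :
    Real.log #F ≤ m * z + 1 / z * ((∑ i ∈ F, (d i : ℝ)) / #F) := by
  have hc : (0 : ℝ) < #F := by exact_mod_cast hne.card_pos
  have h1 : (0 : ℝ) < (1 + z) ^ m := by positivity
  have g := gibbs F (fun _ => 1 / (#F : ℝ)) (fun i => z ^ d i / (1 + z) ^ m)
    (fun _ _ => by positivity) (fun _ _ => by positivity) (by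
      rw [← sum_div, sum_const, nsmul_eq_mul, mul_one_div_cancel hc.ne', div_le_one h1]
      exact h)
  have e : ∀ i ∈ F, 1 / (#F : ℝ) * Real.log (z ^ d i / (1 + z) ^ m / (1 / (#F : ℝ))) =
      1 / (#F : ℝ) * (Real.log z * d i) + 1 / (#F : ℝ) *
        (Real.log #F - m * Real.log (1 + z)) := fun i _ => by
    rw [div_div_eq_mul_div, div_one, Real.log_mul (by positivity) hc.ne',
      Real.log_div (by positivity) h1.ne', Real.log_pow, Real.log_pow]
    ring
  rw [sum_congr rfl e, sum_add_distrib, sum_const, nsmul_eq_mul, ← mul_assoc,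
    mul_one_div_cancel hc.ne', one_mul, ← mul_sum, ← mul_sum] at g
  have a1 : Real.log (1 + z) ≤ z := by
    have := Real.log_le_sub_one_of_pos (show 0 < 1 + z by positivity)
    linarith
  have a2 : -Real.log z ≤ 1 / z := by
    have := Real.log_le_sub_one_of_pos (show 0 < z⁻¹ by positivity)
    rw [Real.log_inv] at this
    rw [one_div]
    linarith
  have a3 : (0 : ℝ) ≤ (∑ i ∈ F, (d i : ℝ)) / #F := by positivity
  have a4 := mul_le_mul_of_nonneg_right a2 a3
  have a5 := mul_le_mul_of_nonneg_left a1 (Nat.cast_nonneg (α := ℝ) m)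
  have a6 : 1 / (#F : ℝ) * (Real.log z * ∑ i ∈ F, (d i : ℝ)) =
      Real.log z * ((∑ i ∈ F, (d i : ℝ)) / #F) := by ring
  rw [a6] at g
  linarith

theorem p_EC (hSW : S_SW) :
    S_EC := by
  intro p m _ D z hz
  have key : ∀ x b, D.In x b → Real.log #(D.Fs x b) ≤ m * z + 1 / z *
      ((∑ b' ∈ D.Fs x b, (#(univ.filter fun l => b' l ≠ b l) : ℝ)) / #(D.Fs x b)) := by
    intro x b hb
    have hin : ∀ b' : Fin m → ZMod p, D.In x b' → ∀ l, b' l = D.c x l ∨ b' l = D.c x l - 1 :=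
      fun b' h l => (h l).imp Eq.symm fun e => by rw [e]; ring
    refine point_ec (D.Fs x b) ⟨b, by simp [Dat.Fs, hb]⟩
      (fun b' => #(univ.filter fun l => b' l ≠ b l)) m hz ?_
    convert sum_ec (fun l => D.c x l) (fun l => D.c x l - 1) b (hin b hb) (D.Fs x b)
      (fun b' h => hin b' (by simp only [Dat.Fs, mem_filter] at h; exact h.2.1)) hz
  have h := Dat.E_mono key
  rw [Dat.E_add, Dat.E_const, Dat.E_mul] at h
  unfold Dat.phi Dat.Ed
  rw [div_eq_inv_mul _ z, ← one_div]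
  exact h

end Pool.Agent.P.MP_263185_co.AL

end

section

/-! Step E1. -/

namespace Pool.Agent.P.MP_263185_co.AL

open Finset
open scoped Classical

theorem p_E1 (hLN : S_LN) (hEA : S_EA) (hEB : S_EB) (hEC : S_EC) :
    S_E1 := by
  intro p m _ D z hz
  obtain ⟨l1, -, l3⟩ := hLN p m D
  have a := hEA p m D
  have b := hEB p m D
  have c := hEC p m D z hz
  have e : D.E (fun x b => 2 * Real.log (D.N b) + Real.log #(D.Fs x b) - Real.log (D.V b)) +
      D.E (fun x b => Real.log (D.V b) - Real.log #(D.Fs x b)) =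
      2 * D.E fun _ b => Real.log (D.N b) := by
    rw [← D.E_add, ← D.E_mul]
    congr 1
    ext x b
    ring
  have h1 : D.Ed * Real.log 2 ≤ 2 * D.df := by linarith
  have h2 : (1 / 2 : ℝ) < Real.log 2 := by linarith [Real.log_two_gt_d9]
  have h3 : D.Ed ≤ 4 * D.df := by
    rcases le_total D.Ed 0 with h | h
    · linarith
    · nlinarith
  exact c.trans (add_le_add le_rfl (div_le_div_of_nonneg_right h3 hz.le))

end Pool.Agent.P.MP_263185_co.AL

end

section

/-! Step CORE. -/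

namespace Pool.Agent.P.MP_263185_co.AL

open Finset
open scoped Classical

lemma num_core {ζ q m df phi K : ℝ} (h0 : 0 < ζ) (h1 : ζ ≤ 1) (hq : 0 ≤ q) (hm : 4 ≤ ζ * m)
    (hK : ζ * m / 4 ≤ K) (hK' : K ≤ ζ * m / 4 + 1)
    (hd : df < (ζ ^ 2 / 100) ^ 2 / (4 + q) * m)
    (hp : phi ≤ m * (ζ ^ 2 / 100) + 4 * df / (ζ ^ 2 / 100)) :
    K ≤ m ∧ K + 4 * df + 2 * phi ≤ ζ * m ∧ (4 * df + 2 * phi) * m ≤ ζ * m * K ∧
      q * df + phi ≤ ζ * m := by
  obtain ⟨z, hz⟩ : ∃ z, z = ζ ^ 2 / 100 := ⟨_, rfl⟩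
  rw [← hz] at hd hp
  have hm0 : 0 < m := by
    by_contra h
    nlinarith [mul_nonneg h0.le (neg_nonneg.2 (not_lt.1 h))]
  have z0 : 0 < z := by rw [hz]; positivity
  have z1 : z ≤ ζ / 100 := by rw [hz]; nlinarith
  have z2 : z ≤ 1 := by linarith
  obtain ⟨e, he⟩ : ∃ e, e = z ^ 2 / (4 + q) := ⟨_, rfl⟩
  rw [← he] at hd
  have e0 : 0 < e := by rw [he]; positivity
  have e1 : e * (4 + q) = z ^ 2 := by rw [he]; field_simp
  have e2 : 4 * e ≤ z ^ 2 := by nlinarith [mul_nonneg e0.le hq]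
  have e3 : q * e ≤ z ^ 2 := by nlinarith
  have zz : z ^ 2 ≤ z := by nlinarith
  have a1 : 4 * df ≤ z ^ 2 * m := by nlinarith [mul_le_mul_of_nonneg_right e2 hm0.le]
  have a2 : 4 * df / z ≤ z * m := by rw [div_le_iff₀ z0]; nlinarith
  have a3 : phi ≤ 2 * (z * m) := by linarith
  have a4 : z ^ 2 * m ≤ z * m := mul_le_mul_of_nonneg_right zz hm0.le
  have a5 : q * df ≤ z * m := by
    have := mul_le_mul_of_nonneg_left hd.le hq
    nlinarith [mul_le_mul_of_nonneg_right e3 hm0.le]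
  have a6 : z * m ≤ ζ * m / 100 := by nlinarith [mul_le_mul_of_nonneg_right z1 hm0.le]
  have a7 : ζ * m ≤ m := by nlinarith
  have a8 : 4 * df + 2 * phi ≤ ζ * K := by
    have b1 : z * m = ζ * (ζ * m) / 100 := by rw [hz]; ring
    have b2 := mul_le_mul_of_nonneg_left hK h0.le
    have b3 : 0 ≤ ζ * (ζ * m) := by positivity
    linarith
  refine ⟨by linarith, by linarith, ?_, by linarith⟩
  nlinarith [mul_le_mul_of_nonneg_right a8 hm0.le]

theorem p_CORE (hFIN : S_FIN) (hE1 : S_E1) (hLN : S_LN) :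
    S_CORE := by
  intro p _
  obtain ⟨ζ, hζ⟩ : ∃ ζ : ℝ, ζ = 1 / (40 + 600 * (p : ℝ) ^ 2) := ⟨_, rfl⟩
  have hp : (0 : ℝ) ≤ (p : ℝ) ^ 2 := by positivity
  have h0 : 0 < ζ := by rw [hζ]; positivity
  have he : ζ * (40 + 600 * (p : ℝ) ^ 2) = 1 := by rw [hζ]; field_simp
  have h1 : ζ ≤ 1 := by nlinarith [mul_nonneg h0.le hp]
  have h2 : ζ * (6 + 96 * (p : ℝ) ^ 2) < 3 / 16 := by nlinarith [mul_nonneg h0.le hp]
  refine ⟨(ζ ^ 2 / 100) ^ 2 / (4 + 256 * (p : ℝ) ^ 3), by positivity, ⌈4 / ζ⌉₊, fun m hm D => ?_⟩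
  by_contra hlt
  have hm' : 4 ≤ ζ * m := by
    have := (Nat.le_ceil (4 / ζ)).trans (Nat.cast_le.2 hm)
    rw [div_le_iff₀ h0] at this
    linarith
  have hK := Nat.le_ceil (ζ * m / 4)
  have hK' := (Nat.ceil_lt_add_one (show 0 ≤ ζ * m / 4 by linarith)).le
  obtain ⟨a, b, c, d⟩ := num_core (q := 256 * (p : ℝ) ^ 3) h0 h1 (by positivity) hm' hK hK'
    (not_le.1 hlt) (hE1 p m D _ (by positivity))
  have := hFIN p m D ⌈ζ * m / 4⌉₊ ζ (Nat.ceil_pos.2 (by linarith)) (Nat.cast_le.1 a) b c d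
  linarith

end Pool.Agent.P.MP_263185_co.AL

end

section

/-! Step PRE. -/

namespace Pool.Agent.P.MP_263185_co.AL

open Finset
open scoped Classical

theorem p_PRE (hST1 : S_ST1) (hST2 : S_ST2) (hCORE : S_CORE) :
    S_PRE := by
  intro p _ hp
  obtain ⟨ρ, r0, r1, h1⟩ := hST1 p hp
  obtain ⟨ε, e0, m₀, h3⟩ := hCORE p
  have l0 : 0 < -Real.log ρ := neg_pos.2 (Real.log_neg r0 r1)
  obtain ⟨γ, g0, g1, g2⟩ : ∃ γ, 0 < γ ∧ γ ≤ ε / 2 ∧ γ ≤ -Real.log ρ * (ε / 2) :=
    ⟨_, lt_min (by positivity) (by positivity), min_le_left _ _, min_le_right _ _⟩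
  refine ⟨Real.exp (γ / 2), Real.one_lt_exp_iff.2 (by positivity),
    max m₀ ⌈2 * (1 - Real.log ρ) / γ⌉₊, fun m hm P => ?_⟩
  have m0 : (0 : ℝ) ≤ m := m.cast_nonneg
  have m1 : 2 * (1 - Real.log ρ) ≤ m * γ :=
    (div_le_iff₀ g0).1 (Nat.ceil_le.1 (le_of_max_le_right hm))
  have p0 : (0 : ℝ) < p := by exact_mod_cast Nat.pos_of_ne_zero (NeZero.ne p)
  have p1 : (0 : ℝ) < p ^ m := by positivity
  set κ := ⌊ε * m / 2⌋₊
  have k1 : (κ : ℝ) ≤ ε * m / 2 := Nat.floor_le (by positivity)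
  have k2 : ε * m / 2 < κ + 1 := Nat.lt_floor_add_one _
  have two : (2 : ℝ) ≤ Real.exp 1 := by linarith [Real.add_one_le_exp 1]
  set y := Real.exp (-Real.log ρ - γ * m) with hy
  have a1 : (#(univ.filter fun x => κ ≤ #(P.sp x)) : ℝ) ≤ p ^ m * y := by
    refine (h1 m P κ).trans (mul_le_mul_of_nonneg_left ?_ p1.le)
    rw [← Real.exp_log r0, ← Real.exp_nat_mul]
    refine Real.exp_le_exp.2 ?_
    nlinarith [mul_le_mul_of_nonneg_right g2 m0, mul_le_mul_of_nonneg_left k2.le l0.le]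
  have a2 : (Fintype.card P.X : ℝ) ≤ p ^ m * y + p ^ m * y := by
    rcases hST2 p m P κ with c | ⟨D, c⟩
    · have : (0 : ℝ) < p ^ m * y := mul_pos p1 (Real.exp_pos _)
      have c' := (Nat.cast_le (α := ℝ)).2 c
      linarith
    · have c' := (Nat.cast_le (α := ℝ)).2 c
      push_cast at c'
      have := D.ne
      have d0 : (0 : ℝ) < Fintype.card D.X := by exact_mod_cast Fintype.card_pos
      have d1 := h3 m (le_of_max_le_left hm) D
      have d2 : (2 : ℝ) ^ κ ≤ Real.exp κ := by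
        rw [← Real.exp_one_pow]
        exact pow_le_pow_left₀ zero_le_two two κ
      have d3 : Real.exp κ * Fintype.card D.X ≤ p ^ m * y := by
        rw [← Real.exp_log d0, ← Real.exp_log p1, ← Real.exp_add, ← Real.exp_add, Real.log_pow]
        refine Real.exp_le_exp.2 ?_
        rw [Dat.df] at d1
        nlinarith [mul_le_mul_of_nonneg_right g1 m0]
      linarith [mul_le_mul_of_nonneg_right d2 d0.le]
  have a3 : 2 * y * Real.exp (γ / 2) ^ m ≤ 1 := by
    refine (mul_le_mul_of_nonneg_right (mul_le_mul_of_nonneg_right two (Real.exp_pos _).le)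
      (by positivity)).trans ?_
    rw [← Real.exp_nat_mul, ← Real.exp_add, ← Real.exp_add]
    exact Real.exp_le_one_iff.2 (by linarith)
  have a4 := mul_le_mul_of_nonneg_right a2 (pow_pos (Real.exp_pos (γ / 2)) m).le
  nlinarith [mul_le_mul_of_nonneg_left a3 p1.le]

end Pool.Agent.P.MP_263185_co.AL

end

section

/-! Step R2. -/

namespace Pool.Agent.P.MP_263185_co.AL

open Finset
open scoped Classical

theorem p_R2 :
    S_R2 := by
  intro p _ x h
  have p0 : (0 : ℝ) < p := by exact_mod_cast NeZero.pos p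
  obtain ⟨t, ht⟩ := Finite.exists_max fun t => Int.fract (p * x t)
  obtain ⟨k, hk⟩ := (ZMod.intCast_zmod_eq_zero_iff_dvd (⌊p * x (t + 2)⌋ - ⌊p * x t⌋ - 2) p).1
    (by rw [Int.cast_sub, Int.cast_sub, h, h]; push_cast; ring)
  refine ⟨t, -k, ?_⟩
  have h1 : ((⌊p * x (t + 2)⌋ : ℤ) : ℝ) - (⌊p * x t⌋ : ℤ) - 2 = p * k := by exact_mod_cast hk
  have a1 := ht (t + 2)
  have a2 := Int.fract_lt_one (p * x t)
  have a3 := Int.fract_nonneg (p * x (t + 2))
  simp only [Int.fract] at a1 a2 a3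
  rw [le_div_iff₀ p0, ← abs_of_pos p0, ← abs_mul, abs_le]
  push_cast
  constructor <;> nlinarith

end Pool.Agent.P.MP_263185_co.AL

end

section

/-! Step THA. -/

namespace Pool.Agent.P.MP_263185_co.AL

open Finset
open scoped Classical

theorem p_THA (hPRE : S_PRE) (hR2 : S_R2) :
    S_THA := by
  intro p _ hp ho
  obtain ⟨c, hc, m₀, h⟩ := hPRE p ho
  refine ⟨c, hc, m₀, fun m hm N hle => ?_⟩
  obtain ⟨f, hf⟩ := hle
  change (Fin m → ZMod p) → Fin N × (Fin m → ℝ) at f
  have hf' : ∀ x y : Fin m → ZMod p, (f x).1 = (f y).1 →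
      (∀ l, circ p ((f x).2 l) ((f y).2 l)) → ∀ i, cf (x i) (y i) :=
    fun x y h1 h2 => hf x y ⟨h1, h2⟩
  have p0 : 0 < p := by omega
  have key : ∀ n : Fin N, (Fintype.card {x // (f x).1 = n} : ℝ) * c ^ m ≤ (p : ℝ) ^ m :=
    fun n => h m hm
      { X := {x // (f x).1 = n}
        hp := hp
        c := fun x l => ((⌊p * (f x.1).2 l⌋ : ℤ) : ZMod p)
        s := Subtype.val
        sinj := Subtype.val_injective
        lip := fun x y hxy => hf' _ _ (x.2.trans y.2.symm) fun l => circ_of_cf p0 (hxy l)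
        nw := fun j r h1 h2 => by
          obtain ⟨t, ht⟩ := hR2 p (fun t => (f (r t).1).2 j) h1
          refine ⟨t, hf' _ _ ((r t).2.trans (r (t + 2)).2.symm) fun l => ?_⟩
          by_cases e : l = j
          · subst e; exact ht
          · exact circ_of_cf p0 (h2 l e t (t + 2)) }
  have e : p ^ m = ∑ n : Fin N, Fintype.card {x // (f x).1 = n} := by
    rw [← Fintype.card_sigma, Fintype.card_congr (Equiv.sigmaFiberEquiv fun x => (f x).1)]
    simp
  have e' : (p : ℝ) ^ m = ∑ n : Fin N, (Fintype.card {x // (f x).1 = n} : ℝ) := by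
    exact_mod_cast e
  have h3 : (p : ℝ) ^ m * c ^ m ≤ (p : ℝ) ^ m * N := by
    calc (p : ℝ) ^ m * c ^ m = ∑ n : Fin N, (Fintype.card {x // (f x).1 = n} : ℝ) * c ^ m := by
          rw [← sum_mul, ← e']
      _ ≤ ∑ _n : Fin N, (p : ℝ) ^ m := sum_le_sum fun n _ => key n
      _ = (p : ℝ) ^ m * N := by simp [mul_comm]
  exact le_of_mul_le_mul_left h3 (by positivity)

end Pool.Agent.P.MP_263185_co.AL

end
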