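import Pool.Agent.P.MP_263185_co.AL.SFin
import Pool.Agent.P.MP_263185_co.AL.M1
import Pool.Agent.P.MP_263185_co.AL.M2
import Pool.Agent.P.MP_263185_co.AL.M3
import Pool.Agent.P.MP_263185_co.AL.M4

/-! All steps together. -/

namespace Pool.Agent.P.MP_263185_co.AL

theorem t_PSD : S_PSD := p_PSD
theorem t_TEN : S_TEN := p_TEN
theorem t_KER : S_KER := p_KER t_PSD t_TEN
theorem t_EDGE : S_EDGE := p_EDGE
theorem t_NA : S_NA := p_NA t_EDGE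
theorem t_NB1 : S_NB1 := p_NB1 t_EDGE
theorem t_NB : S_NB := p_NB t_NB1
theorem t_ST1 : S_ST1 := p_ST1 t_KER t_NA t_NB
theorem t_ST2 : S_ST2 := p_ST2 t_NA t_EDGE
theorem t_GREEDY : S_GREEDY := p_GREEDY
theorem t_SW : S_SW := p_SW
theorem t_AVG : S_AVG := p_AVG t_SW
theorem t_PSI : S_PSI := p_PSI t_EDGE t_AVG
theorem t_MART : S_MART := p_MART t_PSI t_AVG
theorem t_LU : S_LU := p_LU
theorem t_LAB : S_LAB := p_LAB t_EDGE
theorem t_UA : S_UA := p_UA t_LU t_LAB t_AVG t_SW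
theorem t_UB : S_UB := p_UB t_LU t_LAB t_SW t_EDGE
theorem t_LN : S_LN := p_LN t_SW
theorem t_UM : S_UM := p_UM t_UA t_UB t_PSI t_LN
theorem t_CYC : S_CYC := p_CYC
theorem t_BOX : S_BOX := p_BOX
theorem t_BAD : S_BAD := p_BAD t_CYC t_BOX
theorem t_AVJ : S_AVJ := p_AVJ t_SW
theorem t_UT : S_UT := p_UT t_LU t_LAB t_AVG t_SW
theorem t_UU : S_UU := p_UU t_BAD t_AVJ t_UT
theorem t_UC : S_UC := p_UC t_LU t_SW t_EDGE
theorem t_CO : S_CO := p_CO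
theorem t_AU : S_AU := p_AU t_UC t_CO t_PSI
theorem t_EN : S_EN := p_EN t_LAB
theorem t_DEL : S_DEL := p_DEL t_EDGE t_BOX
theorem t_WIND : S_WIND := p_WIND t_EDGE
theorem t_SGN : S_SGN := p_SGN t_WIND t_EDGE
theorem t_GOOD : S_GOOD := p_GOOD t_DEL t_SGN t_CYC t_BOX
theorem t_EG : S_EG := p_EG t_EN t_GOOD t_AVJ t_BOX
theorem t_CP : S_CP := p_CP
theorem t_CA : S_CA := p_CA
theorem t_CUB : S_CUB := p_CUB t_CP t_CA
theorem t_FIN : S_FIN := p_FIN t_GREEDY t_PSI t_MART t_UM t_LN t_UU t_AU t_EN t_EG t_CUB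
theorem t_QQ : S_QQ := p_QQ t_EDGE
theorem t_AVF : S_AVF := p_AVF t_SW
theorem t_EA : S_EA := p_EA t_SW t_QQ t_AVF
theorem t_EB : S_EB := p_EB t_SW t_QQ
theorem t_EC : S_EC := p_EC t_SW
theorem t_E1 : S_E1 := p_E1 t_LN t_EA t_EB t_EC
theorem t_CORE : S_CORE := p_CORE t_FIN t_E1 t_LN
theorem t_PRE : S_PRE := p_PRE t_ST1 t_ST2 t_CORE
theorem t_R2 : S_R2 := p_R2
theorem t_THA : S_THA := p_THA t_PRE t_R2

end Pool.Agent.P.MP_263185_co.AL
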