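import Mathlib

/-! Strassen duality in a short form: a preordered semiring has a monotone real character that
separates two elements which are asymptotically incomparable. -/

namespace Pool.Agent.P.MP_263185_co.S33

variable {R : Type*} [CommSemiring R]

/-- a preorder compatible with the semiring structure in which every element is bounded -/
structure Pre (L : R → R → Prop) : Prop where
  refl : ∀ x, L x x
  trans : ∀ {x y z}, L x y → L y z → L x z
  add : ∀ {x y} (z), L x y → L (x + z) (y + z)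
  mul : ∀ {x y} (z), L x y → L (x * z) (y * z)
  zero : ∀ x, L 0 x
  one : ∀ x, x ≠ 0 → L 1 x
  arch : ∀ x, ∃ r : ℕ, L x r

/-- the natural numbers do not collapse -/
def Proper (L : R → R → Prop) : Prop := ∀ n : ℕ, ¬ L (n + 1) n

/-- the extension of a preorder that forces `y` below `x` -/
def ext (L : R → R → Prop) (y x : R) (u v : R) : Prop := ∃ s, L (u + s * x) (v + s * y)

variable {L : R → R → Prop}

theorem Pre.cast (_h : Pre L) {x y x' y' : R} (a : L x y) (e : x' = x) (e' : y' = y) : L x' y' :=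
  e ▸ e' ▸ a

theorem Pre.add2 (h : Pre L) {x y u v : R} (a : L x y) (b : L u v) : L (x + u) (y + v) :=
  h.trans (h.add u a) (h.cast (h.add y b) (add_comm _ _) (add_comm _ _))

theorem Pre.mul2 (h : Pre L) {x y u v : R} (a : L x y) (b : L u v) : L (x * u) (y * v) :=
  h.trans (h.mul u a) (h.cast (h.mul y b) (mul_comm _ _) (mul_comm _ _))

theorem Pre.le_add (h : Pre L) (x y : R) : L x (x + y) :=
  h.cast (h.add x (h.zero y)) (zero_add x).symm (add_comm _ _)

theorem Pre.le_ext (h : Pre L) (y x : R) {u v : R} (a : L u v) : ext L y x u v :=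
  ⟨0, h.cast a (by ring) (by ring)⟩

theorem Pre.ext (h : Pre L) (y x : R) : Pre (ext L y x) where
  refl u := h.le_ext y x (h.refl u)
  trans := fun ⟨s, a⟩ ⟨t, b⟩ => ⟨s + t, h.trans (h.cast (h.add (t * x) a) (by ring) rfl)
    (h.cast (h.add (s * y) b) (by ring) (by ring))⟩
  add z := fun ⟨s, a⟩ => ⟨s, h.cast (h.add z a) (by ring) (by ring)⟩
  mul z := fun ⟨s, a⟩ => ⟨s * z, h.cast (h.mul z a) (by ring) (by ring)⟩
  zero u := h.le_ext y x (h.zero u)
  one u hu := h.le_ext y x (h.one u hu)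
  arch u := (h.arch u).imp fun _ a => h.le_ext y x a

theorem Pre.ext_self (h : Pre L) (y x : R) : S33.ext L y x y x :=
  ⟨1, h.cast (h.refl (x + y)) (by ring) (by ring)⟩

theorem Pre.absorb (h : Pre L) (hp : Proper L) (w : R) : ¬ L (w + 1) w := fun a => by
  have k : ∀ k : ℕ, L (w + k) w := fun k => by
    induction k with
    | zero => exact h.cast (h.refl w) (by simp) rfl
    | succ k ih => exact h.trans (h.cast (h.add 1 ih) (by push_cast; ring) rfl) a
  obtain ⟨r, hr⟩ := h.arch w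
  exact hp r (h.trans (h.cast (h.le_add _ w) rfl (by push_cast; ring)) (h.trans (k (r + 1)) hr))

theorem Pre.dich (h : Pre L) (hp : Proper L) (x y : R) :
    Proper (S33.ext L y x) ∨ Proper (S33.ext L x y) := by
  by_contra hc
  simp only [Proper, not_or, not_forall, not_not] at hc
  obtain ⟨⟨n, s, a⟩, m, t, b⟩ := hc
  have t0 : t ≠ 0 := fun e => hp m (h.cast b (by rw [e]; ring) (by rw [e]; ring))
  refine h.absorb hp (n * t + m * s + s * t * x + s * t * y) (h.trans (h.add2 (h.refl _)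
    (h.trans (h.one t t0) (h.le_add t s))) (h.cast (h.add2 (h.mul t a) (h.mul s b)) ?_ ?_)) <;> ring

theorem Pre.total (h : Pre L) (hp : Proper L) : ∃ M : R → R → Prop, Pre M ∧ Proper M ∧
    (∀ x y, L x y → M x y) ∧ ∀ x y, M x y ∨ M y x := by
  obtain ⟨M, h1, h2⟩ := zorn_le_nonempty₀ {M : R → R → Prop | Pre M ∧ Proper M} (fun c hc ch K hK =>
    ⟨fun x y => ∃ M ∈ c, M x y, ⟨⟨fun x => ⟨K, hK, (hc hK).1.refl x⟩,
      fun {x y z} ⟨M, hM, a⟩ ⟨N, hN, b⟩ => (ch.total hM hN).elim
        (fun e => ⟨N, hN, (hc hN).1.trans (e x y a) b⟩)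
        fun e => ⟨M, hM, (hc hM).1.trans a (e y z b)⟩,
      fun z ⟨M, hM, a⟩ => ⟨M, hM, (hc hM).1.add z a⟩, fun z ⟨M, hM, a⟩ => ⟨M, hM, (hc hM).1.mul z a⟩,
      fun x => ⟨K, hK, (hc hK).1.zero x⟩, fun x e => ⟨K, hK, (hc hK).1.one x e⟩,
      fun x => ((hc hK).1.arch x).imp fun _ a => ⟨K, hK, a⟩⟩,
      fun n ⟨M, hM, a⟩ => (hc hM).2 n a⟩, fun M hM x y a => ⟨M, hM, a⟩⟩) L ⟨h, hp⟩
  have k : ∀ x y, Proper (S33.ext M y x) → M y x := fun x y e =>
    h2.2 (y := S33.ext M y x) ⟨h2.1.1.ext y x, e⟩ (fun _ _ a => h2.1.1.le_ext y x a) y x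
      (h2.1.1.ext_self y x)
  exact ⟨M, h2.1.1, h2.1.2, h1, fun x y => (h2.1.1.dich h2.1.2 x y).elim
    (fun e => .inr (k x y e)) fun e => .inl (k y x e)⟩

theorem Pre.nat_le (h : Pre L) (hp : Proper L) {a b : ℕ} (e : L a b) : a ≤ b := by
  by_contra hc
  obtain ⟨d, rfl⟩ : ∃ d, a = b + 1 + d := ⟨a - (b + 1), by omega⟩
  exact hp b (h.trans (h.cast (h.le_add _ (d : R)) rfl (by push_cast; ring)) e)

theorem eq_of_bound {a b C : ℝ} (h : ∀ s : ℕ, 0 < s → s * |a - b| ≤ C) : a = b := by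
  by_contra hc
  have p : 0 < |a - b| := abs_pos.2 (sub_ne_zero.2 hc)
  obtain ⟨s, hs⟩ := exists_nat_gt (C / |a - b|)
  have := h (s + 1) s.succ_pos
  rw [div_lt_iff₀ p] at hs
  push_cast at this
  nlinarith

theorem Pre.char (h : Pre L) (hp : Proper L) (ht : ∀ x y, L x y ∨ L y x) : ∃ F : R → ℝ,
    F 1 = 1 ∧ (∀ x y, F (x + y) = F x + F y) ∧ (∀ x y, F (x * y) = F x * F y) ∧
      ∀ x y, L x y → F x ≤ F y := by
  classical
  let S : R → Set ℝ := fun x => {q | ∃ r s : ℕ, 0 < s ∧ L (s * x) r ∧ q = r / s}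
  have ne : ∀ x, (S x).Nonempty := fun x => (h.arch x).elim fun r a =>
    ⟨_, r, 1, one_pos, h.cast a (by simp) rfl, rfl⟩
  have bd : ∀ x, BddBelow (S x) := fun x => ⟨0, by rintro _ ⟨r, s, -, -, rfl⟩; positivity⟩
  have up : ∀ x (r s : ℕ), 0 < s → L (s * x) r → s * sInf (S x) ≤ r := fun x r s hs a => by
    have := csInf_le (bd x) ⟨r, s, hs, a, rfl⟩
    rwa [le_div_iff₀' (by exact_mod_cast hs)] at this
  have lo : ∀ x (r s : ℕ), 0 < s → L r (s * x) → r ≤ s * sInf (S x) := fun x r s hs a => by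
    rw [← div_le_iff₀' (by exact_mod_cast hs)]
    refine le_csInf (ne x) ?_
    rintro _ ⟨r', s', hs', b, rfl⟩
    have : r * s' ≤ r' * s := h.nat_le hp (h.trans (h.cast (h.mul s' a) (by push_cast; ring) rfl)
      (h.cast (h.mul s b) (by ring) (by push_cast; ring)))
    rw [div_le_div_iff₀ (by exact_mod_cast hs) (by exact_mod_cast hs')]
    exact_mod_cast this
  have sw : ∀ x : R, ∃ r : ℕ, L r x ∧ L x (r + 1 : ℕ) := fun x => by
    have a := Nat.find_spec (h.arch x)
    have b := fun m => Nat.find_min (h.arch x) (m := m)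
    generalize Nat.find (h.arch x) = r at a b
    cases r with
    | zero => exact ⟨0, h.cast (h.zero x) (by simp) rfl,
        h.trans a (h.cast (h.zero _) (by simp) rfl)⟩
    | succ r => exact ⟨r, (ht _ _).resolve_right (b r r.lt_succ_self), a⟩
  refine ⟨fun x => sInf (S x), ?_, fun x y => ?_, fun x y => ?_, fun x y a => ?_⟩
  · have a := up 1 1 1 one_pos (h.cast (h.refl 1) (by simp) (by simp))
    have b := lo 1 1 1 one_pos (h.cast (h.refl 1) (by simp) (by simp))
    simp only [Nat.cast_one, one_mul] at a b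
    exact le_antisymm a b
  · refine eq_of_bound (C := 2) fun s hs => ?_
    obtain ⟨r, a1, a2⟩ := sw (s * x)
    obtain ⟨t, b1, b2⟩ := sw (s * y)
    have c1 := lo (x + y) (r + t) s hs (h.cast (h.add2 a1 b1) (by push_cast; ring) (by ring))
    have c2 := up (x + y) (r + 1 + (t + 1)) s hs
      (h.cast (h.add2 a2 b2) (by ring) (by push_cast; ring))
    have d1 := lo x r s hs a1
    have d2 := up x _ s hs a2
    have e1 := lo y t s hs b1
    have e2 := up y _ s hs b2
    push_cast at c1 c2 d2 e2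
    rw [← abs_of_nonneg (Nat.cast_nonneg (α := ℝ) s), ← abs_mul, abs_le]
    constructor <;> nlinarith
  · refine eq_of_bound (C := sInf (S x) + sInf (S y) + 1) fun s hs => ?_
    obtain ⟨r, a1, a2⟩ := sw (s * x)
    obtain ⟨t, b1, b2⟩ := sw (s * y)
    have c1 := lo (x * y) (r * t) (s * s) (by positivity)
      (h.cast (h.mul2 a1 b1) (by push_cast; ring) (by push_cast; ring))
    have c2 := up (x * y) ((r + 1) * (t + 1)) (s * s) (by positivity)
      (h.cast (h.mul2 a2 b2) (by push_cast; ring) (by push_cast; ring))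
    have d1 := lo x r s hs a1
    have d2 := up x _ s hs a2
    have e1 := lo y t s hs b1
    have e2 := up y _ s hs b2
    push_cast at c1 c2 d2 e2
    have s1 : (1 : ℝ) ≤ s := by exact_mod_cast hs
    have r0 : (0 : ℝ) ≤ r := r.cast_nonneg
    have t0 : (0 : ℝ) ≤ t := t.cast_nonneg
    have f1 := mul_le_mul d1 e1 t0 (r0.trans d1)
    have f2 := mul_le_mul d2 e2 (t0.trans e1) (by positivity)
    refine le_of_mul_le_mul_left ?_ (show (0 : ℝ) < s by linarith)
    rw [← mul_assoc, ← abs_of_nonneg (show (0 : ℝ) ≤ s * s by positivity), ← abs_mul, abs_le]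
    constructor <;> nlinarith
  · exact csInf_le_csInf (bd x) (ne y) fun _ ⟨r, s, hs, b, e⟩ =>
      ⟨r, s, hs, h.trans (h.mul2 (h.refl _) a) b, e⟩

/-- if no constant multiple of the powers of `2 * B` dominates the powers of `A`, some monotone
character is at least as large on `A` as on `B` -/
theorem Pre.strassen (h : Pre L) (hp : Proper L) {A B : R} (hB : B ≠ 0)
    (H : ∀ r : ℕ, ∃ l : ℕ, ¬ L (A ^ l) (r * (2 * B) ^ l)) : ∃ F : R → ℝ,
    F 1 = 1 ∧ (∀ x y, F (x + y) = F x + F y) ∧ (∀ x y, F (x * y) = F x * F y) ∧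
      (∀ x y, L x y → F x ≤ F y) ∧ F B ≤ F A := by
  have pr : Proper (S33.ext L B A) := by
    rintro n ⟨s, a⟩
    have s0 : s ≠ 0 := fun e => hp n (h.cast a (by rw [e]; ring) (by rw [e]; ring))
    have a1 : L (n + s * A) (n + s * B) := h.trans (h.cast (h.le_add _ 1) rfl (by ring)) a
    have a2 : ∀ j : ℕ, L (n + j * s * A) (n + j * s * B) := fun j => by
      induction j with
      | zero => exact h.cast (h.refl n) (by simp) (by simp)
      | succ j ih =>
        exact h.trans (h.cast (h.add (j * s * A) a1) (by push_cast; ring) rfl)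
          (h.cast (h.add (s * B) ih) (by ring) (by push_cast; ring))
    have b1 : L 1 (s * B) := h.cast (h.mul2 (h.one s s0) (h.one B hB)) (by ring) rfl
    have b2 : L n (((n + 1 : ℕ) : R) * s * B) := h.trans (h.le_add _ 1)
      (h.cast (h.mul ((n : R) + 1) b1) (by ring) (by push_cast; ring))
    have z1 : L 1 (((n + 1 : ℕ) : R) * s) := h.trans (h.one s s0)
      (h.cast (h.le_add s (n * s)) rfl (by push_cast; ring))
    have a3 := a2 (n + 1)
    generalize ((n + 1 : ℕ) : R) * s = z at b2 z1 a3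
    have c1 : L (z * A) (z * (2 * B)) := h.trans (h.cast (h.le_add _ n) rfl (add_comm _ _))
      (h.trans a3 (h.cast (h.add (z * B) b2) rfl (by ring)))
    have c2 : ∀ l : ℕ, L (z * A ^ l) (z * (2 * B) ^ l) := fun l => by
      induction l with
      | zero => exact h.cast (h.refl z) (by simp) (by simp)
      | succ l ih =>
        exact h.trans (h.cast (h.mul (A ^ l) c1) (by ring) rfl)
          (h.cast (h.mul (2 * B) ih) (by ring) (by ring))
    obtain ⟨r, hr⟩ := h.arch z
    obtain ⟨l, hl⟩ := H r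
    exact hl (h.trans (h.cast (h.mul (A ^ l) z1) (by ring) rfl) (h.trans (c2 l) (h.mul _ hr)))
  obtain ⟨M, m1, m2, m3, m4⟩ := (h.ext B A).total pr
  obtain ⟨F, f1, f2, f3, f4⟩ := m1.char m2 m4
  exact ⟨F, f1, f2, f3, fun x y a => f4 x y (m3 x y (h.le_ext B A a)),
    f4 _ _ (m3 _ _ (h.ext_self B A))⟩

end Pool.Agent.P.MP_263185_co.S33
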