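import Pool.Agent.P.MP_263185_co.AL.SAbs

/-! The semiring of confusability relations with a finite clique cover. -/

namespace Pool.Agent.P.MP_263185_co.S33

/-- a reflexive relation (equal or adjacent) whose points are covered by finitely many cliques -/
structure CG where
  V : Type
  r : V → V → Prop
  cover : ∃ (n : ℕ) (f : V → Fin n), ∀ x y, f x = f y → r x y

/-- a map under which only related points have related images -/
def Hom (G H : CG) : Prop := ∃ f : G.V → H.V, ∀ x y, H.r (f x) (f y) → G.r x y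

theorem Hom.refl (G : CG) : Hom G G := ⟨id, fun _ _ h => h⟩

theorem Hom.trans {G H K : CG} : Hom G H → Hom H K → Hom G K :=
  fun ⟨f, a⟩ ⟨g, b⟩ => ⟨g ∘ f, fun x y h => a x y (b _ _ h)⟩

/-- isolated points -/
def disc (n : ℕ) : CG := ⟨Fin n, Eq, n, id, fun _ _ h => h⟩

/-- the relation on a disjoint union -/
def sumRel {V W : Type} (r : V → V → Prop) (s : W → W → Prop) : V ⊕ W → V ⊕ W → Prop
  | .inl x, .inl y => r x y
  | .inr x, .inr y => s x y
  | _, _ => False

/-- disjoint union -/
def CG.add (G H : CG) : CG := ⟨G.V ⊕ H.V, sumRel G.r H.r, by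
  obtain ⟨n, f, a⟩ := G.cover
  obtain ⟨m, g, b⟩ := H.cover
  refine ⟨n + m, fun x => finSumFinEquiv (Sum.map f g x), fun x y h => ?_⟩
  have := finSumFinEquiv.injective h
  rcases x with x | x <;> rcases y with y | y <;> simp at this
  exacts [a x y this, b x y this]⟩

/-- strong product -/
def CG.mul (G H : CG) : CG := ⟨G.V × H.V, fun x y => G.r x.1 y.1 ∧ H.r x.2 y.2, by
  obtain ⟨n, f, a⟩ := G.cover
  obtain ⟨m, g, b⟩ := H.cover
  refine ⟨n * m, fun x => finProdFinEquiv (f x.1, g x.2), fun x y h => ?_⟩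
  have := Prod.ext_iff.1 (finProdFinEquiv.injective h)
  exact ⟨a _ _ this.1, b _ _ this.2⟩⟩

/-- strong power -/
def CG.pow (G : CG) (m : ℕ) : CG := ⟨Fin m → G.V, fun x y => ∀ i, G.r (x i) (y i), by
  obtain ⟨n, f, a⟩ := G.cover
  exact ⟨n ^ m, fun x => finFunctionFinEquiv fun i => f (x i), fun x y h i =>
    a _ _ (congrFun (finFunctionFinEquiv.injective h) i)⟩⟩

theorem Hom.add {G G' H H' : CG} : Hom G G' → Hom H H' → Hom (G.add H) (G'.add H') :=
  fun ⟨f, a⟩ ⟨g, b⟩ => ⟨Sum.map f g, by
    rintro (x | x) (y | y) h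
    exacts [a _ _ h, h, h, b _ _ h]⟩

theorem Hom.mul {G G' H H' : CG} : Hom G G' → Hom H H' → Hom (G.mul H) (G'.mul H') :=
  fun ⟨f, a⟩ ⟨g, b⟩ => ⟨Prod.map f g, fun _ _ h => ⟨a _ _ h.1, b _ _ h.2⟩⟩

instance : Setoid CG := ⟨fun G H => Hom G H ∧ Hom H G, fun G => ⟨.refl G, .refl G⟩,
  fun h => h.symm, fun a b => ⟨a.1.trans b.1, b.2.trans a.2⟩⟩

/-- the classes -/
def Q : Type 1 := Quotient (inferInstance : Setoid CG)

/-- the class of a relation -/
def cl (G : CG) : Q := Quotient.mk _ G

theorem cl_eq {G H : CG} (e : G.V ≃ H.V) (h : ∀ x y, H.r (e x) (e y) ↔ G.r x y) : cl G = cl H :=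
  Quotient.sound ⟨⟨e, fun x y => (h x y).1⟩, ⟨e.symm, fun x y a => by
    simpa using (h _ _).2 a⟩⟩

theorem ind {P : Q → Prop} (h : ∀ G, P (cl G)) (x : Q) : P x := Quotient.ind h x

instance : Add Q := ⟨Quotient.map₂ CG.add fun _ _ a _ _ b => ⟨a.1.add b.1, a.2.add b.2⟩⟩
instance : Mul Q := ⟨Quotient.map₂ CG.mul fun _ _ a _ _ b => ⟨a.1.mul b.1, a.2.mul b.2⟩⟩
instance : Zero Q := ⟨cl (disc 0)⟩
instance : One Q := ⟨cl (disc 1)⟩

theorem Q.add_comm (x y : Q) : x + y = y + x := by
  induction x using ind; induction y using ind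
  exact cl_eq (Equiv.sumComm _ _) (by rintro (x | x) (y | y) <;> rfl)

theorem Q.mul_comm (x y : Q) : x * y = y * x := by
  induction x using ind; induction y using ind
  exact cl_eq (Equiv.prodComm _ _) fun _ _ => and_comm

theorem Q.zero_add (x : Q) : 0 + x = x := by
  induction x using ind
  exact cl_eq (Equiv.emptySum (Fin 0) _) (by
    rintro (x | x) (y | y) <;> first | exact x.elim0 | exact y.elim0 | rfl)

theorem Q.zero_mul (x : Q) : 0 * x = 0 := by
  induction x using ind
  exact Quotient.sound ⟨⟨fun x => x.1, fun x => x.1.elim0⟩, ⟨fun x => x.elim0, fun x => x.elim0⟩⟩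

theorem Q.one_mul (x : Q) : 1 * x = x := by
  induction x using ind
  exact Quotient.sound ⟨⟨fun x => x.2, fun x y h => ⟨Subsingleton.elim (α := Fin 1) _ _, h⟩⟩,
    ⟨fun x => ((0 : Fin 1), x), fun x y h => h.2⟩⟩

theorem Q.mul_add (x y z : Q) : x * (y + z) = x * y + x * z := by
  induction x using ind; induction y using ind; induction z using ind
  exact cl_eq (Equiv.prodSumDistrib _ _ _) (by
    rintro ⟨a, x | x⟩ ⟨b, y | y⟩
    exacts [Iff.rfl, ⟨False.elim, And.right⟩, ⟨False.elim, And.right⟩, Iff.rfl])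

instance : CommSemiring Q where
  add_assoc x y z := by
    induction x using ind; induction y using ind; induction z using ind
    exact cl_eq (Equiv.sumAssoc _ _ _) (by
      rintro ((x | x) | x) ((y | y) | y) <;> rfl)
  zero_add := Q.zero_add
  add_zero x := (Q.add_comm _ _).trans (Q.zero_add x)
  nsmul := nsmulRec
  add_comm := Q.add_comm
  left_distrib := Q.mul_add
  right_distrib x y z := by rw [Q.mul_comm, Q.mul_add, Q.mul_comm z, Q.mul_comm z]
  zero_mul := Q.zero_mul
  mul_zero x := (Q.mul_comm _ _).trans (Q.zero_mul x)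
  mul_assoc x y z := by
    induction x using ind; induction y using ind; induction z using ind
    exact cl_eq (Equiv.prodAssoc _ _ _) fun _ _ => and_assoc.symm
  one_mul := Q.one_mul
  mul_one x := (Q.mul_comm _ _).trans (Q.one_mul x)
  mul_comm := Q.mul_comm

theorem cl_add (G H : CG) : cl (G.add H) = cl G + cl H := rfl

theorem cl_mul (G H : CG) : cl (G.mul H) = cl G * cl H := rfl

theorem cl_disc (n : ℕ) : cl (disc n) = n := by
  induction n with
  | zero => rfl
  | succ n ih =>
    rw [Nat.cast_succ, ← ih]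
    exact (cl_eq (G := (disc n).add (disc 1)) (H := disc (n + 1)) finSumFinEquiv fun x y =>
      finSumFinEquiv.injective.eq_iff.trans (by
        rcases x with x | x <;> rcases y with y | y
        exacts [Sum.inl_injective.eq_iff, ⟨fun h => (by cases h), False.elim⟩,
          ⟨fun h => (by cases h), False.elim⟩, Sum.inr_injective.eq_iff])).symm

theorem cl_pow (G : CG) (m : ℕ) : cl (G.pow m) = cl G ^ m := by
  induction m with
  | zero => exact Quotient.sound ⟨⟨fun _ => (0 : Fin 1), fun _ _ _ i => i.elim0⟩,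
      ⟨fun _ i => i.elim0, fun _ _ _ => Subsingleton.elim (α := Fin 1) _ _⟩⟩
  | succ m ih =>
    rw [pow_succ', ← ih]
    exact (cl_eq (G := G.mul (G.pow m)) (H := G.pow (m + 1)) (Fin.consEquiv fun _ => G.V)
      fun x y => Fin.forall_fin_succ).symm

/-- the order on classes -/
def Le : Q → Q → Prop := Quotient.lift₂ Hom fun _ _ _ _ a b =>
  propext ⟨fun h => (a.2.trans h).trans b.1, fun h => (a.1.trans h).trans b.2⟩

theorem le_cl {G H : CG} : Le (cl G) (cl H) ↔ Hom G H := Iff.rfl

theorem pre : Pre Le where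
  refl x := by induction x using ind; exact Hom.refl _
  trans {x y z} := by
    induction x using ind; induction y using ind; induction z using ind; exact Hom.trans
  add {x y} z := by
    induction x using ind; induction y using ind; induction z using ind
    exact fun h => Hom.add h (.refl _)
  mul {x y} z := by
    induction x using ind; induction y using ind; induction z using ind
    exact fun h => Hom.mul h (.refl _)
  zero x := by induction x using ind; exact ⟨fun x => x.elim0, fun x => x.elim0⟩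
  one x := by
    induction x using ind with
    | h G =>
      intro h
      by_cases e : Nonempty G.V
      · exact e.elim fun v => ⟨fun _ => v, fun _ _ _ => Subsingleton.elim (α := Fin 1) _ _⟩
      · exact (h (Quotient.sound ⟨⟨fun x => (e ⟨x⟩).elim, fun x => (e ⟨x⟩).elim⟩,
          ⟨fun x => x.elim0, fun x => x.elim0⟩⟩)).elim
  arch x := by
    induction x using ind with
    | h G => exact G.cover.imp fun n h => cl_disc n ▸ h

theorem proper : Proper Le := fun n h => by
  rw [← Nat.cast_succ, ← cl_disc, ← cl_disc] at h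
  obtain ⟨f, hf⟩ := h
  simpa using Fintype.card_le_of_injective (α := Fin (n + 1)) (β := Fin n) f hf

/-- if `C ^ m` maps to `N` copies of `G ^ m` only for exponentially large `N`, a monotone character
is larger on `C` than on `G` by a factor -/
theorem gap (C G : CG) (v : G.V) {c : ℝ} (hc : 1 < c) (m0 : ℕ)
    (H : ∀ m, m0 ≤ m → ∀ N : ℕ, Hom (C.pow m) ((disc N).mul (G.pow m)) → c ^ m ≤ N) :
    ∃ F : CG → ℝ, F (disc 1) = 1 ∧ (∀ x y, F (x.add y) = F x + F y) ∧
      (∀ x y, F (x.mul y) = F x * F y) ∧ (∀ x y, Hom x y → F x ≤ F y) ∧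
        ∃ d : ℝ, 1 < d ∧ d * F G ≤ F C := by
  obtain ⟨k, hk⟩ := ((tendsto_pow_atTop_atTop_of_one_lt hc).eventually_gt_atTop 8 |>.and
    (Filter.eventually_gt_atTop 0)).exists
  have g1 : Le 1 (cl G) := ⟨fun _ => v, fun _ _ _ => Subsingleton.elim (α := Fin 1) _ _⟩
  have g2 : ∀ l : ℕ, Le 1 (cl G ^ l) := fun l => by
    induction l with
    | zero => exact pre.cast (pre.refl 1) rfl (pow_zero _)
    | succ l ih => exact pre.cast (pre.mul2 ih g1) (by ring) (by ring)
  obtain ⟨F, f1, f2, f3, f4, f5⟩ := pre.strassen proper (A := cl C ^ k) (B := 2 * cl G ^ k)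
    (fun e => proper 0 (pre.trans (pre.cast (g2 k) (by simp) rfl)
      (pre.cast (pre.le_add _ (cl G ^ k)) rfl (by rw [Nat.cast_zero, ← e]; ring))))
    fun r => ⟨m0 + r, fun h => by
      have := H (k * (m0 + r)) (by nlinarith [hk.2]) (r * 4 ^ (m0 + r)) (le_cl.1 (pre.cast h
        (by rw [cl_pow, pow_mul]) (by rw [cl_mul, cl_disc, cl_pow, pow_mul]; push_cast; ring)))
      rw [pow_mul] at this
      have a1 : (8 : ℝ) ^ (m0 + r) ≤ (c ^ k) ^ (m0 + r) := pow_le_pow_left₀ (by norm_num) hk.1.le _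
      have a2 : (r : ℝ) < 2 ^ (m0 + r) := by
        exact_mod_cast (Nat.le_add_left r m0).trans_lt Nat.lt_two_pow_self
      have a3 : (8 : ℝ) ^ (m0 + r) = 2 ^ (m0 + r) * 4 ^ (m0 + r) := by rw [← mul_pow]; norm_num
      push_cast at this
      nlinarith [pow_pos (show (0 : ℝ) < 4 by norm_num) (m0 + r)]⟩
  have p : ∀ x (l : ℕ), F (x ^ l) = F x ^ l := fun x l => by
    induction l with
    | zero => simpa using f1
    | succ l ih => rw [pow_succ, f3, ih, pow_succ]
  have z : ∀ x, 0 ≤ F x := fun x => by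
    have a := f2 0 0
    have b := f4 0 x (pre.zero x)
    rw [add_zero] at a
    linarith
  rw [two_mul, f2, p, p] at f5
  refine ⟨fun x => F (cl x), f1, fun x y => f2 (cl x) (cl y), fun x y => f3 (cl x) (cl y),
    fun x y h => f4 _ _ h,
    2 ^ ((k : ℝ)⁻¹), Real.one_lt_rpow (by norm_num) (by have := hk.2; positivity), ?_⟩
  refine le_of_pow_le_pow_left₀ hk.2.ne' (z _) ?_
  rw [mul_pow, Real.rpow_inv_natCast_pow (by norm_num) hk.2.ne']
  linarith

end Pool.Agent.P.MP_263185_co.S33
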