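import Pool.Agent.P.MP_263185_co.AL.Iface
import Pool.Agent.P.MP_263185_co.AL.SSemi

/-! From the combinatorial core to a point of the asymptotic spectrum of graphs. -/

namespace Pool.Agent.P.MP_263185_co.AL

open SimpleGraph S33

/-- equal or adjacent -/
def ofG {V : Type} [Finite V] (G : SimpleGraph V) : CG := ⟨V, fun x y => x = y ∨ G.Adj x y, by
  obtain ⟨n, ⟨e⟩⟩ := Finite.exists_equiv_fin V
  exact ⟨n, e, fun x y h => .inl (e.injective h)⟩⟩

/-- the closed circle graph -/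
def crc (n : ℕ) : CG := ⟨ℝ, circ (n + 2), n + 2, fun x => ((⌊(n + 2 : ℕ) * x⌋ : ℤ) : ZMod (n + 2)),
  fun _ _ h => circ_of_cf n.succ.succ_pos (.inl h.symm)⟩

theorem frac_hom {n a b : ℕ} (h : 2 * a < (n + 2) * b) : S33.Hom (ofG (fraction a b)) (crc n) := by
  refine ⟨fun x : Fin a => (((x : ℕ) : ℝ) / a : ℝ), fun (x y : Fin a) ⟨k, hk⟩ => ?_⟩
  replace hk : |((x : ℕ) : ℝ) / a - ((y : ℕ) : ℝ) / a - k| ≤ 2 / (n + 2 : ℕ) := hk
  have a0 : (0 : ℝ) < a := by exact_mod_cast Fin.pos x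
  have p1 : (0 : ℝ) < (n + 2 : ℕ) := by positivity
  have h1 : (2 : ℝ) * a < (n + 2 : ℕ) * b := by exact_mod_cast h
  refine (eq_or_ne x y).imp id fun n => ⟨n, k, ?_⟩
  have e : (((x : ℕ) : ℝ) - (y : ℕ) - k * a) = (((x : ℕ) : ℝ) / a - ((y : ℕ) : ℝ) / a - k) * a := by
    field_simp
  have : |((x : ℕ) : ℝ) - (y : ℕ) - k * a| < b := by
    rw [e, abs_mul, abs_of_pos a0]
    rw [le_div_iff₀ p1] at hk
    nlinarith
  exact_mod_cast this

theorem main_of_tha (hTHA : S_THA) : S_MAIN := fun p hp ho => by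
  obtain ⟨n, rfl⟩ : ∃ n, p = n + 2 := ⟨p - 2, by omega⟩
  obtain ⟨c, hc, m0, H⟩ := hTHA (n + 2) hp ho
  obtain ⟨F, f1, f2, f3, f4, d, hd, f5⟩ := gap (ofG (cycleGraph (n + 2))) (crc n) (0 : ℝ) hc m0
    fun m hm N ⟨g, hg⟩ => H m hm N ⟨g, fun s t a i => by
      rcases hg s t a i with e | e | e
      exacts [.inl e.symm, .inr (.inr (sub_eq_iff_eq_add'.1 e)), .inr (.inl (sub_eq_iff_eq_add'.1 e))]⟩
  have q : ∀ G K : CG, S33.Hom G K → S33.Hom K G → F G = F K := fun _ _ a b =>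
    (f4 _ _ a).antisymm (f4 _ _ b)
  refine ⟨fun V _ G => F (ofG G), ⟨?_, fun V W _ _ G K => ?_, fun V W _ _ G K => ?_,
    fun V W _ _ G K ⟨f⟩ => f4 _ _ ⟨f, fun x y h => ?_⟩⟩, d, hd, fun a b h =>
    (mul_le_mul_of_nonneg_left (f4 _ _ (frac_hom h)) (by linarith)).trans f5⟩
  · exact (q (ofG (⊥ : SimpleGraph Unit)) (disc 1) ⟨fun _ => (0 : Fin 1), fun _ _ _ => Or.inl rfl⟩
      ⟨fun _ => (), fun _ _ _ => Subsingleton.elim (α := Fin 1) _ _⟩).trans f1
  · refine (q (ofG (G.sum K)) ((ofG G).add (ofG K)) ⟨id, ?_⟩ ⟨id, ?_⟩).trans (f2 (ofG G) (ofG K))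
    · rintro (x | x) (y | y) h
      exacts [h.imp (congrArg _) id, h.elim, h.elim, h.imp (congrArg _) id]
    · rintro (x | x) (y | y) h
      exacts [h.imp (fun e => Sum.inl_injective e) id,
        h.elim (fun e => by cases e) fun e => Bool.false_ne_true e,
        h.elim (fun e => by cases e) fun e => Bool.false_ne_true e,
        h.imp (fun e => Sum.inr_injective e) id]
  · refine (q (ofG (strong G K)) ((ofG G).mul (ofG K)) ⟨id, fun x y h => ?_⟩
      ⟨id, fun x y h => ?_⟩).trans (f3 (ofG G) (ofG K))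
    · exact (eq_or_ne x y).imp id fun e => ⟨e, h⟩
    · exact h.elim (fun e => ⟨.inl (congrArg _ e), .inl (congrArg _ e)⟩) And.right
  · by_contra hc
    have := f.map_rel (show Gᶜ.Adj x y from ⟨fun e => hc (.inl e), fun e => hc (.inr e)⟩)
    exact h.elim this.1 this.2

/-- the additive form: the fraction graphs below `p / 2` stay at distance `δ` from the cycle -/
theorem main_add (hTHA : S_THA) (p : ℕ) (hp : 5 ≤ p) (ho : Odd p) :
    ∃ F : ∀ (V : Type) [Finite V], SimpleGraph V → ℝ, Spectral F ∧ ∃ δ : ℝ, 0 < δ ∧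
      ∀ a b : ℕ, 2 * a < p * b → F (Fin a) (fraction a b) + δ ≤ F (Fin p) (cycleGraph p) := by
  obtain ⟨F, h, c, hc, k⟩ := main_of_tha hTHA p hp ho
  have o : 1 ≤ F (Fin p) (cycleGraph p) := h.one ▸ h.mono _ _ ⊥ _
    ⟨⟨fun _ => ⟨0, by omega⟩, fun e => (e.1 (Subsingleton.elim _ _)).elim⟩⟩
  refine ⟨F, h, 1 - 1 / c, by rw [sub_pos, div_lt_one (by linarith)]; exact hc, fun a b e => ?_⟩
  have := k a b e
  refine le_of_mul_le_mul_left ?_ (show 0 < c by linarith)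
  rw [mul_add, mul_sub, mul_one_div_cancel (by linarith)]
  nlinarith

end Pool.Agent.P.MP_263185_co.AL
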